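import Pool.Agent.H.MP_216555_lc.Defs

/-!
# Basic facts, part A: transfer of counts, orbits, `Dcl`, independence
All elementary, from `Tp.refl/symm/trans/mono/ext/ext1/ext2/eq_iff`.
-/

set_option linter.unusedSectionVars false

namespace MS216

open Finset

variable {V : Type} [Fintype V] [DecidableEq V] {m : ℕ} {P : PI V m}

private theorem BasicA_fst {B : Finset V} {y z y' z' : V} (h : P.Tp B [y, z] [y', z']) :
    P.Tp B [y] [y'] := by
  refine PI.Tp.mono (h) (by simp) ?_
  intro a b hab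
  simp only [mem_pr, List.zip_cons_cons, List.zip_nil_right, List.mem_cons, List.not_mem_nil,
      Prod.mk.injEq, Finset.mem_insert, Finset.mem_union, Finset.mem_singleton,
      Finset.notMem_empty, or_false, and_false, false_or] at hab ⊢
  grind

private theorem BasicA_snd {B : Finset V} {y z y' z' : V} (h : P.Tp B [y, z] [y', z']) :
    P.Tp B [z] [z'] := by
  refine PI.Tp.mono (h) (by simp) ?_
  intro a b hab
  simp only [mem_pr, List.zip_cons_cons, List.zip_nil_right, List.mem_cons, List.not_mem_nil,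
      Prod.mk.injEq, Finset.mem_insert, Finset.mem_union, Finset.mem_singleton,
      Finset.notMem_empty, or_false, and_false, false_or] at hab ⊢
  grind

private theorem BasicA_swap {B : Finset V} {y z y' z' : V} (h : P.Tp B [y, z] [y', z']) :
    P.Tp B [z, y] [z', y'] := by
  refine PI.Tp.mono (h) (by simp) ?_
  intro a b hab
  simp only [mem_pr, List.zip_cons_cons, List.zip_nil_right, List.mem_cons, List.not_mem_nil,
      Prod.mk.injEq, Finset.mem_insert, Finset.mem_union, Finset.mem_singleton,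
      Finset.notMem_empty, or_false, and_false, false_or] at hab ⊢
  grind

private theorem BasicA_base {B B' : Finset V} (hB : B ⊆ B') {l l' : List V}
    (h : P.Tp B' l l') : P.Tp B l l' := by
  refine h.mono h.len fun a b hab => ?_
  rw [mem_pr] at hab ⊢
  rcases hab with h1 | h1
  · exact Or.inl ⟨h1.1, hB h1.2⟩
  · exact Or.inr h1

/-- Transfer of counts: use the permutation `β` of `Tp.ext`. -/
theorem PI.Tp.card_eq {B : Finset V} {l l' : List V} (h : P.Tp B l l')
    (hm : B.card + l.length < m) (Q Q' : V → Prop)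
    (hQ : ∀ z z', P.Tp B (z :: l) (z' :: l') → (Q z ↔ Q' z')) :
    (fs Q).card = (fs Q').card := by
  obtain ⟨β, hβ⟩ := h.ext hm
  refine Finset.card_bij (fun z _ => β z) (fun z hz => ?_) (fun z _ z' _ hzz => β.injective hzz)
    (fun y hy => ?_)
  · rw [mem_fs] at hz ⊢
    exact (hQ z (β z) (hβ z)).1 hz
  · rw [mem_fs] at hy
    refine ⟨β.symm y, ?_, β.apply_symm_apply y⟩
    rw [mem_fs, hQ (β.symm y) y (by simpa using hβ (β.symm y))]
    exact hy

/-- Transfer of sums. -/
theorem PI.Tp.sum_eq {B : Finset V} {l l' : List V} (h : P.Tp B l l')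
    (hm : B.card + l.length < m) (F F' : V → ℝ)
    (hF : ∀ z z', P.Tp B (z :: l) (z' :: l') → F z = F' z') :
    ∑ z, F z = ∑ z, F' z := by
  obtain ⟨β, hβ⟩ := h.ext hm
  rw [← Equiv.sum_comp β F']
  exact Finset.sum_congr rfl fun z _ => hF z (β z) (hβ z)

theorem PI.invEq_orbit {B : Finset V} (hm : B.card + 6 ≤ m) :
    P.InvEq B (fun y z => P.Tp B [y] [z]) := by
  refine ⟨⟨fun y => ?_, fun h => h.symm, fun h h' => h.trans h'⟩, fun _ _ h => h,
    fun y z y' z' h h1 => ?_⟩
  · exact PI.Tp.refl (by simp; omega)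
  · exact (BasicA_fst h).symm.trans (h1.trans (BasicA_snd h))

theorem PI.InvEq.and {B B' : Finset V} {e e' : V → V → Prop} (h : P.InvEq B e)
    (h' : P.InvEq B' e') (hB : B ⊆ B') : P.InvEq B' (fun y z => e y z ∧ e' y z) := by
  refine ⟨⟨fun y => ⟨h.equiv.refl y, h'.equiv.refl y⟩, fun hx => ⟨h.equiv.symm hx.1,
    h'.equiv.symm hx.2⟩, fun hx hy => ⟨h.equiv.trans hx.1 hy.1, h'.equiv.trans hx.2 hy.2⟩⟩,
    fun y z hx => h'.tp y z hx.2, fun y z y' z' ht hx => ?_⟩
  exact ⟨h.inv y z y' z' (BasicA_base hB ht) hx.1, h'.inv y z y' z' ht hx.2⟩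

/-- If `y` is not alone in its class then no point of its orbit is alone. -/
theorem PI.InvEq.nonid {B : Finset V} {e : V → V → Prop} (h : P.InvEq B e)
    (hm : B.card + 6 ≤ m) {y y' z : V} (ht : P.Tp B [y] [y']) (hz : z ≠ y) (he : e y z) :
    ∃ z', z' ≠ y' ∧ e y' z' := by
  obtain ⟨z', hz'⟩ := ht.ext1 (by simp; omega) z
  refine ⟨z', ?_, h.inv y z y' z' (BasicA_swap hz') he⟩
  have h1 := hz'.eq_iff (a := z) (b := z') (c := y) (d := y') (by simp [mem_pr]) (by simp [mem_pr])
  exact fun h2 => hz (h1.2 h2)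

theorem PI.InvEq.class_card {B : Finset V} {e : V → V → Prop} (h : P.InvEq B e)
    (hm : B.card + 6 ≤ m) {y y' : V} (ht : P.Tp B [y] [y']) :
    (fs (e y)).card = (fs (e y')).card := by
  refine ht.card_eq (by simp; omega) (e y) (e y') fun z z' hz => ?_
  exact ⟨h.inv y z y' z' (BasicA_swap hz), h.inv y' z' y z (BasicA_swap hz).symm⟩

theorem PI.not_dcl {B : Finset V} {y : V} :
    y ∉ P.Dcl B ↔ ∃ y', y' ≠ y ∧ P.Tp B [y] [y'] := by
  unfold PI.Dcl
  simp only [Set.mem_setOf_eq]
  push Not
  exact ⟨fun ⟨y', h1, h2⟩ => ⟨y', h2, h1⟩, fun ⟨y', h1, h2⟩ => ⟨y', h2, h1⟩⟩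

theorem PI.dcl_mono {B B' : Finset V} (h : B ⊆ B') : P.Dcl B ⊆ P.Dcl B' := by
  intro y hy y' hy'
  exact hy y' (BasicA_base h hy')

theorem PI.mem_dcl_self {B : Finset V} {y : V} (h : y ∈ B) : y ∈ P.Dcl B := by
  intro y' hy'
  have h1 := hy'.eq_iff (a := y) (b := y) (c := y) (d := y') (by simp [mem_pr, h])
    (by simp [mem_pr])
  exact (h1.1 rfl).symm

theorem PI.Tp.dcl_iff {B : Finset V} {y y' : V} (h : P.Tp B [y] [y']) :
    y ∈ P.Dcl B ↔ y' ∈ P.Dcl B := by
  constructor
  · intro h1
    have h2 := h1 y' h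
    rw [h2]
    exact h1
  · intro h1
    have h2 := h1 y h.symm
    rw [h2]
    exact h1

private theorem BasicA_dcl1 {B : Finset V} (hm : B.card + 6 ≤ m) {v y v' y' : V}
    (h : P.Tp B [v, y] [v', y']) (hy : y ∈ P.Dcl (insert v B)) :
    y' ∈ P.Dcl (insert v' B) := by
  intro y'' hy''
  have h1 : P.Tp B [v', y'] [v', y''] := by
    refine PI.Tp.mono (hy'') (by simp) ?_
    intro a b hab
    simp only [mem_pr, List.zip_cons_cons, List.zip_nil_right, List.mem_cons, List.not_mem_nil,
        Prod.mk.injEq, Finset.mem_insert, Finset.mem_union, Finset.mem_singleton,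
        Finset.notMem_empty, or_false, and_false, false_or] at hab ⊢
    grind
  obtain ⟨y₂, h2⟩ := h.symm.ext1 (by simp; omega) y''
  have h3 : P.Tp B [v', y''] [v, y₂] := by
    refine PI.Tp.mono (h2) (by simp) ?_
    intro a b hab
    simp only [mem_pr, List.zip_cons_cons, List.zip_nil_right, List.mem_cons, List.not_mem_nil,
        Prod.mk.injEq, Finset.mem_insert, Finset.mem_union, Finset.mem_singleton,
        Finset.notMem_empty, or_false, and_false, false_or] at hab ⊢
    grind
  have h4 := (h.trans h1).trans h3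
  have h5 : P.Tp (insert v B) [y] [y₂] := by
    refine PI.Tp.mono (h4) (by simp) ?_
    intro a b hab
    simp only [mem_pr, List.zip_cons_cons, List.zip_nil_right, List.mem_cons, List.not_mem_nil,
        Prod.mk.injEq, Finset.mem_insert, Finset.mem_union, Finset.mem_singleton,
        Finset.notMem_empty, or_false, and_false, false_or] at hab ⊢
    grind
  have h6 := hy y₂ h5
  exact (h2.eq_iff (a := y'') (b := y₂) (c := y') (d := y) (by simp [mem_pr])
    (by simp [mem_pr])).2 h6

private theorem BasicA_dcl2 {B : Finset V} (hm : B.card + 6 ≤ m) {u v y u' v' y' : V}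
    (h : P.Tp B [u, v, y] [u', v', y']) (hy : y ∈ P.Dcl (insert u (insert v B))) :
    y' ∈ P.Dcl (insert u' (insert v' B)) := by
  intro y'' hy''
  have h1 : P.Tp B [u', v', y'] [u', v', y''] := by
    refine PI.Tp.mono (hy'') (by simp) ?_
    intro a b hab
    simp only [mem_pr, List.zip_cons_cons, List.zip_nil_right, List.mem_cons, List.not_mem_nil,
        Prod.mk.injEq, Finset.mem_insert, Finset.mem_union, Finset.mem_singleton,
        Finset.notMem_empty, or_false, and_false, false_or] at hab ⊢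
    grind
  obtain ⟨y₂, h2⟩ := h.symm.ext1 (by simp; omega) y''
  have h3 : P.Tp B [u', v', y''] [u, v, y₂] := by
    refine PI.Tp.mono (h2) (by simp) ?_
    intro a b hab
    simp only [mem_pr, List.zip_cons_cons, List.zip_nil_right, List.mem_cons, List.not_mem_nil,
        Prod.mk.injEq, Finset.mem_insert, Finset.mem_union, Finset.mem_singleton,
        Finset.notMem_empty, or_false, and_false, false_or] at hab ⊢
    grind
  have h4 := (h.trans h1).trans h3
  have h5 : P.Tp (insert u (insert v B)) [y] [y₂] := by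
    refine PI.Tp.mono (h4) (by simp) ?_
    intro a b hab
    simp only [mem_pr, List.zip_cons_cons, List.zip_nil_right, List.mem_cons, List.not_mem_nil,
        Prod.mk.injEq, Finset.mem_insert, Finset.mem_union, Finset.mem_singleton,
        Finset.notMem_empty, or_false, and_false, false_or] at hab ⊢
    grind
  have h6 := hy y₂ h5
  exact (h2.eq_iff (a := y'') (b := y₂) (c := y') (d := y) (by simp [mem_pr])
    (by simp [mem_pr])).2 h6

/-- Sketch: symmetric, so assume `y ∈ Dcl (insert v B)` and `Tp B [v',y'] [v',y'']`. By `ext1`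
from `Tp B [v',y'] [v,y]` get `y₂` with `Tp B [y'',v',y'] [y₂,v,y]`; then
`Tp B [v,y] [v,y₂]`, so `y₂ = y`, and `eq_iff` gives `y'' = y'`. -/
theorem PI.Tp.dcl_insert {B : Finset V} (hm : B.card + 6 ≤ m) {v y v' y' : V}
    (h : P.Tp B [v, y] [v', y']) :
    y ∈ P.Dcl (insert v B) ↔ y' ∈ P.Dcl (insert v' B) := by
  exact ⟨BasicA_dcl1 hm h, BasicA_dcl1 hm h.symm⟩

theorem PI.Tp.dcl_insert2 {B : Finset V} (hm : B.card + 6 ≤ m) {u v y u' v' y' : V}
    (h : P.Tp B [u, v, y] [u', v', y']) :
    y ∈ P.Dcl (insert u (insert v B)) ↔ y' ∈ P.Dcl (insert u' (insert v' B)) := by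
  exact ⟨BasicA_dcl2 hm h, BasicA_dcl2 hm h.symm⟩

theorem PI.Tp.ind2 {B : Finset V} (hm : B.card + 6 ≤ m) {w y w' y' : V}
    (h : P.Tp B [w, y] [w', y']) (hi : P.Ind2 B w y) : P.Ind2 B w' y' := by
  refine ⟨fun h1 => hi.1 ?_, fun h1 => hi.2 ?_⟩
  · exact (BasicA_fst h).dcl_iff.2 h1
  · exact (h.dcl_insert hm).2 h1

theorem PI.Tp.ind3 {B : Finset V} (hm : B.card + 6 ≤ m) {w y z w' y' z' : V}
    (h : P.Tp B [w, y, z] [w', y', z']) (hi : P.Ind3 B w y z) : P.Ind3 B w' y' z' := by
  have h3 : P.Tp B [w] [w'] := by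
    refine PI.Tp.mono (h) (by simp) ?_
    intro a b hab
    simp only [mem_pr, List.zip_cons_cons, List.zip_nil_right, List.mem_cons, List.not_mem_nil,
        Prod.mk.injEq, Finset.mem_insert, Finset.mem_union, Finset.mem_singleton,
        Finset.notMem_empty, or_false, and_false, false_or] at hab ⊢
    grind
  have h4 : P.Tp B [w, y] [w', y'] := by
    refine PI.Tp.mono (h) (by simp) ?_
    intro a b hab
    simp only [mem_pr, List.zip_cons_cons, List.zip_nil_right, List.mem_cons, List.not_mem_nil,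
        Prod.mk.injEq, Finset.mem_insert, Finset.mem_union, Finset.mem_singleton,
        Finset.notMem_empty, or_false, and_false, false_or] at hab ⊢
    grind
  have h5 : P.Tp B [y, w, z] [y', w', z'] := by
    refine PI.Tp.mono (h) (by simp) ?_
    intro a b hab
    simp only [mem_pr, List.zip_cons_cons, List.zip_nil_right, List.mem_cons, List.not_mem_nil,
        Prod.mk.injEq, Finset.mem_insert, Finset.mem_union, Finset.mem_singleton,
        Finset.notMem_empty, or_false, and_false, false_or] at hab ⊢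
    grind
  refine ⟨fun h1 => hi.1 ?_, fun h1 => hi.2.1 ?_, fun h1 => hi.2.2 ?_⟩
  · exact h3.dcl_iff.2 h1
  · exact (h4.dcl_insert hm).2 h1
  · exact (h5.dcl_insert2 hm).2 h1

theorem PI.ind2_mono {B B' : Finset V} (h : B ⊆ B') {w y : V} (hi : P.Ind2 B' w y) :
    P.Ind2 B w y := by
  exact ⟨fun h1 => hi.1 (PI.dcl_mono h h1),
    fun h1 => hi.2 (PI.dcl_mono (Finset.insert_subset_insert w h) h1)⟩

theorem PI.ind3_mono {B B' : Finset V} (h : B ⊆ B') {w y z : V} (hi : P.Ind3 B' w y z) :
    P.Ind3 B w y z := by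
  exact ⟨fun h1 => hi.1 (PI.dcl_mono h h1),
    fun h1 => hi.2.1 (PI.dcl_mono (Finset.insert_subset_insert w h) h1),
    fun h1 => hi.2.2 (PI.dcl_mono
      (Finset.insert_subset_insert y (Finset.insert_subset_insert w h)) h1)⟩

end MS216
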