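import Pool.Agent.H.MP_216555_lc.BasicA

/-!
# Basic facts, part B: strong classes
-/

set_option linter.unusedSectionVars false

namespace MS216

open Finset

variable {V : Type} [Fintype V] [DecidableEq V] {m : ℕ} {P : PI V m}

/-- `Sim B` is an invariant equivalence relation.  Sketch. reflexive: `e y y`, `Tp.refl`.
symmetric/transitive: for an `InvEq B e` in which `z` is not alone, `y` is not alone either
(`InvEq.nonid` with `Tp B [z] [y]`), so `e y z`.  inv: if `Tp B [y,z] [y',z']` and `Sim B y z`,
and `y'` is not alone for `e`, then `y` is not alone, so `e y z`, so `e y' z'`. -/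
theorem PI.sim_invEq {B : Finset V} (hm : B.card + 6 ≤ m) : P.InvEq B (P.Sim B) := by
  refine ⟨⟨fun y => ⟨PI.Tp.refl (by simp; omega), fun e he _ => he.equiv.refl y⟩, ?_, ?_⟩,
    fun y z h => h.1, ?_⟩
  · rintro y z ⟨h1, h2⟩
    refine ⟨h1.symm, fun e he hz => ?_⟩
    obtain ⟨z', hz', hez⟩ := hz
    obtain ⟨y', hy', hey⟩ := he.nonid hm h1.symm hz' hez
    exact he.equiv.symm (h2 e he ⟨y', hy', hey⟩)
  · rintro y z x ⟨h1, h2⟩ ⟨h3, h4⟩
    refine ⟨h1.trans h3, fun e he hy => ?_⟩
    obtain ⟨y', hy', hey⟩ := hy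
    obtain ⟨z', hz', hez⟩ := he.nonid hm h1 hy' hey
    exact he.equiv.trans (h2 e he ⟨y', hy', hey⟩) (h4 e he ⟨z', hz', hez⟩)
  · rintro y z y' z' h ⟨h1, h2⟩
    have hy : P.Tp B [y'] [y] := by exact PI.Tp.mono (h.symm) (by simp) (by intro a b hab; simp only [mem_pr, List.zip_cons_cons, List.zip_nil_right, List.mem_cons, List.not_mem_nil, Prod.mk.injEq, Finset.mem_insert, Finset.mem_union, Finset.mem_singleton, Finset.notMem_empty, or_false, and_false, false_or] at hab ⊢; grind)
    have hz : P.Tp B [z] [z'] := by exact PI.Tp.mono (h) (by simp) (by intro a b hab; simp only [mem_pr, List.zip_cons_cons, List.zip_nil_right, List.mem_cons, List.not_mem_nil, Prod.mk.injEq, Finset.mem_insert, Finset.mem_union, Finset.mem_singleton, Finset.notMem_empty, or_false, and_false, false_or] at hab ⊢; grind)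
    refine ⟨(hy.trans h1).trans hz, fun e he hy' => ?_⟩
    obtain ⟨x, hx, hex⟩ := hy'
    obtain ⟨x', hx', hex'⟩ := he.nonid hm hy hx hex
    exact he.inv y z y' z' h (h2 e he ⟨x', hx', hex'⟩)

theorem PI.sim_refl {B : Finset V} (hm : B.card + 6 ≤ m) (y : V) : P.Sim B y y := by
  exact (PI.sim_invEq hm).equiv.refl y

theorem PI.Sim.symm {B : Finset V} (hm : B.card + 6 ≤ m) {y z : V} (h : P.Sim B y z) :
    P.Sim B z y := by
  exact (PI.sim_invEq hm).equiv.symm h

theorem PI.Sim.trans {B : Finset V} (hm : B.card + 6 ≤ m) {y z x : V} (h : P.Sim B y z)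
    (h' : P.Sim B z x) : P.Sim B y x := by
  exact (PI.sim_invEq hm).equiv.trans h h'

theorem PI.Sim.tp {B : Finset V} {y z : V} (h : P.Sim B y z) : P.Tp B [y] [z] := h.1

theorem PI.Sim.dcl_iff {B : Finset V} {y z : V} (h : P.Sim B y z) :
    y ∈ P.Dcl B ↔ z ∈ P.Dcl B := by
  exact h.1.dcl_iff

/-- invariance of `Sim B` -/
theorem PI.Tp.sim_iff {B : Finset V} (hm : B.card + 6 ≤ m) {y z y' z' : V}
    (h : P.Tp B [y, z] [y', z']) : P.Sim B y z ↔ P.Sim B y' z' := by
  exact ⟨(PI.sim_invEq hm).inv _ _ _ _ h, (PI.sim_invEq hm).inv _ _ _ _ h.symm⟩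

/-- Uniform transfer.  Sketch: let `e` be `InvEq (insert w B)` in which `y'` is not alone.
Put `e' a b := ∃ a' b', Tp B [v,a,b] [w,a',b'] ∧ e a' b'`.  This is `InvEq (insert v B)`:
transitivity by extending `Tp B [v,a,b] [w,a',b']` by the third point `c ↦ c₁` and using the
invariance of `e` under `Tp (insert w B) [b',c₁] [b'',c'']`; `y` is not alone in `e'`.  So
`e' y z`, hence `e y' z'` by invariance of `e`. -/
theorem PI.Tp.sim_insert {B : Finset V} (hm : B.card + 6 ≤ m) {v y z w y' z' : V}
    (h : P.Tp B [v, y, z] [w, y', z']) (hs : P.Sim (insert v B) y z) :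
    P.Sim (insert w B) y' z' := by
  obtain ⟨h1, h2⟩ := hs
  have hv1 : P.Tp B [w, y'] [v, y] := by exact PI.Tp.mono (h.symm) (by simp) (by intro a b hab; simp only [mem_pr, List.zip_cons_cons, List.zip_nil_right, List.mem_cons, List.not_mem_nil, Prod.mk.injEq, Finset.mem_insert, Finset.mem_union, Finset.mem_singleton, Finset.notMem_empty, or_false, and_false, false_or] at hab ⊢; grind)
  have hv2 : P.Tp B [v, y] [v, z] := by exact PI.Tp.mono (h1) (by simp) (by intro a b hab; simp only [mem_pr, List.zip_cons_cons, List.zip_nil_right, List.mem_cons, List.not_mem_nil, Prod.mk.injEq, Finset.mem_insert, Finset.mem_union, Finset.mem_singleton, Finset.notMem_empty, or_false, and_false, false_or] at hab ⊢; grind)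
  have hv3 : P.Tp B [v, z] [w, z'] := by exact PI.Tp.mono (h) (by simp) (by intro a b hab; simp only [mem_pr, List.zip_cons_cons, List.zip_nil_right, List.mem_cons, List.not_mem_nil, Prod.mk.injEq, Finset.mem_insert, Finset.mem_union, Finset.mem_singleton, Finset.notMem_empty, or_false, and_false, false_or] at hab ⊢; grind)
  have hv4 := (hv1.trans hv2).trans hv3
  refine ⟨by exact PI.Tp.mono (hv4) (by simp) (by intro a b hab; simp only [mem_pr, List.zip_cons_cons, List.zip_nil_right, List.mem_cons, List.not_mem_nil, Prod.mk.injEq, Finset.mem_insert, Finset.mem_union, Finset.mem_singleton, Finset.notMem_empty, or_false, and_false, false_or] at hab ⊢; grind), fun e he hy => ?_⟩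
  obtain ⟨x', hx', hex⟩ := hy
  obtain ⟨e', he'⟩ : ∃ e' : V → V → Prop, ∀ a b, e' a b ↔
      ∃ a' b', P.Tp B [v, a, b] [w, a', b'] ∧ e a' b' := ⟨_, fun a b => Iff.rfl⟩
  have hI : P.InvEq (insert v B) e' := by
    refine ⟨⟨fun a => ?_, fun {a b} hab => ?_, fun {a b c} hab hbc => ?_⟩, fun a b hab => ?_,
      fun a b c d ht hab => ?_⟩
    · have hvw : P.Tp B [v] [w] := by exact PI.Tp.mono (h) (by simp) (by intro a b hab; simp only [mem_pr, List.zip_cons_cons, List.zip_nil_right, List.mem_cons, List.not_mem_nil, Prod.mk.injEq, Finset.mem_insert, Finset.mem_union, Finset.mem_singleton, Finset.notMem_empty, or_false, and_false, false_or] at hab ⊢; grind)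
      obtain ⟨a', ha'⟩ := hvw.ext1 (by simp; omega) a
      rw [he']
      exact ⟨a', a', by exact PI.Tp.mono (ha') (by simp) (by intro a b hab; simp only [mem_pr, List.zip_cons_cons, List.zip_nil_right, List.mem_cons, List.not_mem_nil, Prod.mk.injEq, Finset.mem_insert, Finset.mem_union, Finset.mem_singleton, Finset.notMem_empty, or_false, and_false, false_or] at hab ⊢; grind), he.equiv.refl a'⟩
    · rw [he'] at hab ⊢
      obtain ⟨a', b', ht, hE⟩ := hab
      exact ⟨b', a', by exact PI.Tp.mono (ht) (by simp) (by intro a b hab; simp only [mem_pr, List.zip_cons_cons, List.zip_nil_right, List.mem_cons, List.not_mem_nil, Prod.mk.injEq, Finset.mem_insert, Finset.mem_union, Finset.mem_singleton, Finset.notMem_empty, or_false, and_false, false_or] at hab ⊢; grind), he.equiv.symm hE⟩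
    · rw [he'] at hab hbc ⊢
      obtain ⟨a', b', ht, hE⟩ := hab
      obtain ⟨b'', c'', ht', hE'⟩ := hbc
      obtain ⟨c₁, hc₁⟩ := ht.ext1 (by simp; omega) c
      have k1 : P.Tp B [v, b, c] [w, b', c₁] := by exact PI.Tp.mono (hc₁) (by simp) (by intro a b hab; simp only [mem_pr, List.zip_cons_cons, List.zip_nil_right, List.mem_cons, List.not_mem_nil, Prod.mk.injEq, Finset.mem_insert, Finset.mem_union, Finset.mem_singleton, Finset.notMem_empty, or_false, and_false, false_or] at hab ⊢; grind)
      have k2 := ht'.symm.trans k1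
      have k3 : P.Tp (insert w B) [b'', c''] [b', c₁] := by exact PI.Tp.mono (k2) (by simp) (by intro a b hab; simp only [mem_pr, List.zip_cons_cons, List.zip_nil_right, List.mem_cons, List.not_mem_nil, Prod.mk.injEq, Finset.mem_insert, Finset.mem_union, Finset.mem_singleton, Finset.notMem_empty, or_false, and_false, false_or] at hab ⊢; grind)
      exact ⟨a', c₁, by exact PI.Tp.mono (hc₁) (by simp) (by intro a b hab; simp only [mem_pr, List.zip_cons_cons, List.zip_nil_right, List.mem_cons, List.not_mem_nil, Prod.mk.injEq, Finset.mem_insert, Finset.mem_union, Finset.mem_singleton, Finset.notMem_empty, or_false, and_false, false_or] at hab ⊢; grind), he.equiv.trans hE (he.inv _ _ _ _ k3 hE')⟩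
    · rw [he'] at hab
      obtain ⟨a', b', ht, hE⟩ := hab
      have k1 := he.tp _ _ hE
      have k2 : P.Tp B [v, a] [w, a'] := by exact PI.Tp.mono (ht) (by simp) (by intro a b hab; simp only [mem_pr, List.zip_cons_cons, List.zip_nil_right, List.mem_cons, List.not_mem_nil, Prod.mk.injEq, Finset.mem_insert, Finset.mem_union, Finset.mem_singleton, Finset.notMem_empty, or_false, and_false, false_or] at hab ⊢; grind)
      have k3 : P.Tp B [w, a'] [w, b'] := by exact PI.Tp.mono (k1) (by simp) (by intro a b hab; simp only [mem_pr, List.zip_cons_cons, List.zip_nil_right, List.mem_cons, List.not_mem_nil, Prod.mk.injEq, Finset.mem_insert, Finset.mem_union, Finset.mem_singleton, Finset.notMem_empty, or_false, and_false, false_or] at hab ⊢; grind)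
      have k4 : P.Tp B [w, b'] [v, b] := by exact PI.Tp.mono (ht.symm) (by simp) (by intro a b hab; simp only [mem_pr, List.zip_cons_cons, List.zip_nil_right, List.mem_cons, List.not_mem_nil, Prod.mk.injEq, Finset.mem_insert, Finset.mem_union, Finset.mem_singleton, Finset.notMem_empty, or_false, and_false, false_or] at hab ⊢; grind)
      have k5 := (k2.trans k3).trans k4
      exact PI.Tp.mono (k5) (by simp) (by intro a b hab; simp only [mem_pr, List.zip_cons_cons, List.zip_nil_right, List.mem_cons, List.not_mem_nil, Prod.mk.injEq, Finset.mem_insert, Finset.mem_union, Finset.mem_singleton, Finset.notMem_empty, or_false, and_false, false_or] at hab ⊢; grind)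
    · rw [he'] at hab ⊢
      obtain ⟨a', b', hab', hE⟩ := hab
      have k1 : P.Tp B [v, c, d] [v, a, b] := by exact PI.Tp.mono (ht.symm) (by simp) (by intro a b hab; simp only [mem_pr, List.zip_cons_cons, List.zip_nil_right, List.mem_cons, List.not_mem_nil, Prod.mk.injEq, Finset.mem_insert, Finset.mem_union, Finset.mem_singleton, Finset.notMem_empty, or_false, and_false, false_or] at hab ⊢; grind)
      exact ⟨a', b', k1.trans hab', hE⟩
  obtain ⟨x, hx⟩ := h.ext2 (by simp; omega) x'
  have hxy : x ≠ y := by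
    intro hh
    have k1 := hx.eq_iff (a := x) (b := x') (c := y) (d := y') (by simp [mem_pr]) (by simp [mem_pr])
    exact hx' (k1.1 hh)
  have hyz := h2 e' hI ⟨x, hxy, (he' y x).2 ⟨y', x', by exact PI.Tp.mono (hx) (by simp) (by intro a b hab; simp only [mem_pr, List.zip_cons_cons, List.zip_nil_right, List.mem_cons, List.not_mem_nil, Prod.mk.injEq, Finset.mem_insert, Finset.mem_union, Finset.mem_singleton, Finset.notMem_empty, or_false, and_false, false_or] at hab ⊢; grind), hex⟩⟩
  rw [he'] at hyz
  obtain ⟨y₁, z₁, ht, hE⟩ := hyz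
  have k1 := ht.symm.trans h
  have k2 : P.Tp (insert w B) [y₁, z₁] [y', z'] := by exact PI.Tp.mono (k1) (by simp) (by intro a b hab; simp only [mem_pr, List.zip_cons_cons, List.zip_nil_right, List.mem_cons, List.not_mem_nil, Prod.mk.injEq, Finset.mem_insert, Finset.mem_union, Finset.mem_singleton, Finset.notMem_empty, or_false, and_false, false_or] at hab ⊢; grind)
  exact he.inv _ _ _ _ k2 hE

end MS216
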