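import Pool.Agent.H.MP_216555_lc.TqrC

/-!
# Step F, part 1: cells
-/

set_option linter.unusedSectionVars false

namespace MS216

open Finset

section aux

variable {V : Type} [Fintype V] [DecidableEq V] {m : ℕ} {P : PI V m} {K S : ℕ}

private theorem cl_dcl_le (hE : P.Env K S) {B : Finset V} (hB : B.card ≤ S) :
    (fs (fun y => y ∈ P.Dcl B)).card ≤ K ^ S :=
  (hE.dcl_card hB).trans (Nat.pow_le_pow_right (by have := hE.hK; omega) hB)

/-- triples by first coordinate -/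
private theorem cl_trs_le (E X Y : Finset V) (R : V → V → V → Prop) :
    (trs E X Y R).card ≤ ∑ a ∈ E, (prs X Y (R a)).card := by
  classical
  have h1 : trs E X Y R ⊆ E.biUnion (fun a => (prs X Y (R a)).image (fun p => (a, p))) := by
    rintro ⟨a, b, c⟩ h
    rw [mem_trs] at h
    rw [mem_biUnion]
    exact ⟨a, h.1, mem_image.2 ⟨(b, c), mem_prs.2 h.2, rfl⟩⟩
  refine (card_le_card h1).trans (card_biUnion_le.trans ?_)
  exact sum_le_sum fun a _ => card_image_le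

/-- the bad pairs: not independent over `D` -/
private theorem cl_bad (hE : P.Env K S) {D : Finset V} (hD : D.card + 1 ≤ S) (X Y : Finset V) :
    (prs X Y (fun w y => ¬ P.Ind2 D w y)).card ≤ 2 * (K ^ S * Fintype.card V) := by
  classical
  have h1 : prs X Y (fun w y => ¬ P.Ind2 D w y) ⊆
      (fs (fun y => y ∈ P.Dcl D) ×ˢ (univ : Finset V)) ∪
      (univ : Finset V).biUnion (fun w => (fs (fun y => y ∈ P.Dcl (insert w D))).image
        (fun y => (w, y))) := by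
    rintro ⟨w, y⟩ h
    rw [mem_prs] at h
    rw [mem_union, mem_product, mem_biUnion]
    by_cases hw : w ∈ P.Dcl D
    · exact Or.inl ⟨mem_fs.2 hw, mem_univ _⟩
    · right
      refine ⟨w, mem_univ _, mem_image.2 ⟨y, mem_fs.2 ?_, rfl⟩⟩
      by_contra hy
      exact h.2.2 ⟨hw, hy⟩
  refine (card_le_card h1).trans ((card_union_le _ _).trans ?_)
  have h2 : (fs (fun y => y ∈ P.Dcl D) ×ˢ (univ : Finset V)).card ≤ K ^ S * Fintype.card V := by
    rw [card_product, card_univ]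
    exact Nat.mul_le_mul_right _ (cl_dcl_le hE (by omega))
  have h3 : ((univ : Finset V).biUnion (fun w => (fs (fun y => y ∈ P.Dcl (insert w D))).image
      (fun y => (w, y)))).card ≤ K ^ S * Fintype.card V := by
    refine card_biUnion_le.trans ?_
    calc ∑ w : V, ((fs (fun y => y ∈ P.Dcl (insert w D))).image (fun y => (w, y))).card
        ≤ ∑ _w : V, K ^ S := sum_le_sum fun w _ => card_image_le.trans
          (cl_dcl_le hE ((card_insert_le _ _).trans hD))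
      _ = K ^ S * Fintype.card V := by rw [sum_const, card_univ, smul_eq_mul, mul_comm]
  omega

/-- the number of strong classes outside `Dcl` -/
private theorem cl_cells (hE : P.Env K S) {D : Finset V} (hD : D.card ≤ S) (X : Finset V)
    (hX : ∀ x ∈ X, x ∉ P.Dcl D) :
    (X.image (fun x => fs (P.Sim D x))).card ≤ K ^ S := by
  classical
  have hm : D.card + 6 ≤ m := by have := hE.hm; omega
  obtain ⟨T, hTX, hinj, hT⟩ := exists_subset_injOn_image_eq_of_surjOn X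
    (X.image (fun x => fs (P.Sim D x))) (f := fun x => fs (P.Sim D x)) (by
      rw [coe_image]; exact Set.surjOn_image _ _)
  rw [← hT, card_image_of_injOn hinj]
  refine (hE.few hD (PI.sim_invEq hm) T ?_ ?_).trans
    (Nat.pow_le_pow_right (by have := hE.hK; omega) hD)
  · intro t ht
    exact hE.sim_nontriv hD (hX t (hTX ht))
  · intro t ht t' ht' h
    apply hinj ht ht'
    show fs (P.Sim D t) = fs (P.Sim D t')
    ext z
    rw [mem_fs, mem_fs]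
    exact ⟨fun h' => (h.symm hm).trans hm h', fun h' => h.trans hm h'⟩

end aux

/-- `B ⊆ b ⊆ d`.  Sketch: by `tqr` (`S₁ = E`, `S₂ = S₃ = X`) and averaging over `E` some `v₁ ∈ E` has
`≥ c n²` pairs `(w₁,y₁) ∈ X²` with `Tp B [v,w,y] [v₁,w₁,y₁]`, `c = δ³/(4K^(3S))`.  Remove the
`≤ 4 K^S n` pairs with `w₁ ∈ Dcl (insert v₁ d)` or `y₁ ∈ Dcl (insert w₁ (insert v₁ d))`
(`dcl_card`).  Let `X' = X \ Dcl (insert v₁ d)`; it is cut by `Sim (insert v₁ b)` into at most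
`K^S` cells (`few`, `sim_nontriv`, `Dcl` monotone), so two cells `Y₁, Y₂` carry at least
`(c n² - 4 K^S n)/K^(2S) ≥ c/(2 K^(2S)) n²` of the remaining pairs; then `|Y₁|, |Y₂| ≥ δ' n` with
`δ' = c/(2K^(2S))`. -/
theorem cells (K S : ℕ) (δ : ℝ) (hδ : 0 < δ) : ∃ δ' : ℝ, 0 < δ' ∧ ∃ n₀ : ℕ,
    ∀ (V : Type) [Fintype V] [DecidableEq V]
    (m : ℕ) (P : PI V m), P.Env K S → n₀ ≤ Fintype.card V →
    ∀ B b d : Finset V, B ⊆ b → b ⊆ d → d.card + 4 ≤ S →
    ∀ v w y, P.Sim B v w → P.Sim B v y → P.Ind3 B v w y → ∀ E X : Finset V,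
      (∀ a ∈ E, P.Sim B v a) → (∀ a ∈ X, P.Sim B v a) →
      δ * Fintype.card V ≤ E.card → δ * Fintype.card V ≤ X.card →
      ∃ v₁ ∈ E, ∃ Y₁ Y₂ : Finset V, Y₁ ⊆ X ∧ Y₂ ⊆ X ∧
        (∀ a ∈ Y₁, ∀ a' ∈ Y₁, P.Sim (insert v₁ b) a a') ∧
        (∀ a ∈ Y₂, ∀ a' ∈ Y₂, P.Sim (insert v₁ b) a a') ∧
        δ' * Fintype.card V ≤ Y₁.card ∧ δ' * Fintype.card V ≤ Y₂.card ∧
        ∃ w₁ ∈ Y₁, ∃ y₁ ∈ Y₂, P.Tp B [v, w, y] [v₁, w₁, y₁] ∧
          P.Ind2 (insert v₁ d) w₁ y₁ := by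
  classical
  obtain ⟨n₁, hn₁⟩ := tqr K S δ hδ
  by_cases hK0 : K = 0
  · refine ⟨1, one_pos, 0, ?_⟩
    intro V _ _ m P hE
    have := hE.hK
    omega
  have hKpos : (0 : ℝ) < K := by exact_mod_cast Nat.pos_of_ne_zero hK0
  obtain ⟨c, hc⟩ : ∃ c : ℝ, c = δ ^ 3 / (4 * (K : ℝ) ^ (3 * S)) := ⟨_, rfl⟩
  have hc0 : 0 < c := by rw [hc]; positivity
  obtain ⟨κ, hκ⟩ : ∃ κ : ℝ, κ = c / (2 * (K : ℝ) ^ (2 * S)) := ⟨_, rfl⟩
  have hκ0 : 0 < κ := by rw [hκ]; positivity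
  refine ⟨κ, hκ0, max (n₁ + 1) (⌈4 * (K : ℝ) ^ S / c⌉₊ + 1), ?_⟩
  intro V _ _ m P hE hn B b d hBb hbd hd v w y hw hy hi E X hEs hXs hEc hXc
  obtain ⟨n, hnn⟩ : ∃ n : ℝ, n = (Fintype.card V : ℝ) := ⟨_, rfl⟩
  have hn1 : n₁ ≤ Fintype.card V := by
    have := (le_max_left (n₁ + 1) (⌈4 * (K : ℝ) ^ S / c⌉₊ + 1)).trans hn
    omega
  have hn2 : 4 * (K : ℝ) ^ S / c ≤ n := by
    have h1 := (le_max_right (n₁ + 1) (⌈4 * (K : ℝ) ^ S / c⌉₊ + 1)).trans hn
    have h2 : (⌈4 * (K : ℝ) ^ S / c⌉₊ : ℝ) ≤ n := by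
      rw [hnn]; exact_mod_cast (by omega : ⌈4 * (K : ℝ) ^ S / c⌉₊ ≤ Fintype.card V)
    exact (Nat.le_ceil _).trans h2
  have hn0 : 0 < n := lt_of_lt_of_le (by positivity) hn2
  have hBd : B.card ≤ d.card := card_le_card (hBb.trans hbd)
  have hM := hn₁ V m P hE hn1 B (by omega) v w y hw hy hi E X X hEs hXs hXs hEc hXc hXc
  rw [← hc, ← hnn] at hM
  rw [← hnn] at hEc hXc ⊢
  -- averaging over `E`
  have hEne : E.Nonempty := by
    rw [nonempty_iff_ne_empty]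
    intro he
    rw [he, card_empty, Nat.cast_zero] at hEc
    have : 0 < δ * n := by positivity
    linarith
  have hEn : (E.card : ℝ) ≤ n := by
    rw [hnn]; exact_mod_cast card_le_univ E
  obtain ⟨v₁, hv₁, hA⟩ : ∃ v₁ ∈ E, c * n ^ 2 ≤
      ((prs X X (fun w' y' => P.Tp B [v, w, y] [v₁, w', y'])).card : ℝ) := by
    apply exists_le_of_sum_le hEne
    rw [sum_const, nsmul_eq_mul]
    have h1 : ((trs E X X (fun v' w' y' => P.Tp B [v, w, y] [v', w', y'])).card : ℝ) ≤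
        ∑ a ∈ E, ((prs X X (fun w' y' => P.Tp B [v, w, y] [a, w', y'])).card : ℝ) := by
      exact_mod_cast cl_trs_le E X X (fun v' w' y' => P.Tp B [v, w, y] [v', w', y'])
    refine le_trans ?_ (hM.trans h1)
    have h2 : (E.card : ℝ) * (c * n ^ 2) ≤ n * (c * n ^ 2) :=
      mul_le_mul_of_nonneg_right hEn (by positivity)
    calc (E.card : ℝ) * (c * n ^ 2) ≤ n * (c * n ^ 2) := h2
      _ = c * n ^ 3 := by ring
  -- remove the dependent pairs
  have hD1 : (insert v₁ d).card + 1 ≤ S := by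
    have := card_insert_le v₁ d
    omega
  obtain ⟨A', hA'⟩ : ∃ A' : Finset (V × V), A' = prs X X (fun w' y' =>
      P.Tp B [v, w, y] [v₁, w', y'] ∧ P.Ind2 (insert v₁ d) w' y') := ⟨_, rfl⟩
  have hAA : (prs X X (fun w' y' => P.Tp B [v, w, y] [v₁, w', y'])).card ≤
      A'.card + 2 * (K ^ S * Fintype.card V) := by
    refine le_trans ?_ (Nat.add_le_add_left (cl_bad hE hD1 X X) _)
    refine le_trans (card_le_card ?_) (card_union_le _ _)
    rintro ⟨a, a'⟩ h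
    rw [mem_prs] at h
    rw [mem_union, hA', mem_prs, mem_prs]
    by_cases hi' : P.Ind2 (insert v₁ d) a a'
    · exact Or.inl ⟨h.1, h.2.1, h.2.2, hi'⟩
    · exact Or.inr ⟨h.1, h.2.1, hi'⟩
  have hA2 : c / 2 * n ^ 2 ≤ (A'.card : ℝ) := by
    have h1 : ((prs X X (fun w' y' => P.Tp B [v, w, y] [v₁, w', y'])).card : ℝ) ≤
        A'.card + 2 * ((K : ℝ) ^ S * n) := by
      rw [hnn]; exact_mod_cast hAA
    have h2 : 4 * (K : ℝ) ^ S ≤ n * c := by
      rwa [div_le_iff₀ hc0] at hn2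
    nlinarith [mul_le_mul_of_nonneg_right h2 hn0.le]
  -- the cells
  obtain ⟨X', hX'⟩ : ∃ X' : Finset V, X' = X.filter (fun x => x ∉ P.Dcl (insert v₁ d)) := ⟨_, rfl⟩
  have hbd' : insert v₁ b ⊆ insert v₁ d := insert_subset_insert _ hbd
  have hb1 : (insert v₁ b).card ≤ S := by
    have := card_le_card hbd'
    omega
  have hm1 : (insert v₁ b).card + 6 ≤ m := by have := hE.hm; omega
  obtain ⟨Q, hQ⟩ : ∃ Q : Finset (Finset V), Q = X'.image (fun x => fs (P.Sim (insert v₁ b) x)) :=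
    ⟨_, rfl⟩
  have hQc : Q.card ≤ K ^ S := by
    rw [hQ]
    apply cl_cells hE hb1
    intro x hx hx2
    rw [hX', mem_filter] at hx
    exact hx.2 (PI.dcl_mono hbd' hx2)
  have hmaps : ∀ p ∈ A', (fs (P.Sim (insert v₁ b) p.1), fs (P.Sim (insert v₁ b) p.2)) ∈ Q ×ˢ Q := by
    rintro ⟨a, a'⟩ hp
    rw [hA', mem_prs] at hp
    have ha : a ∈ X' := by
      rw [hX', mem_filter]; exact ⟨hp.1, hp.2.2.2.1⟩
    have ha' : a' ∈ X' := by
      rw [hX', mem_filter]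
      exact ⟨hp.2.1, fun h => hp.2.2.2.2 (PI.dcl_mono (subset_insert _ _) h)⟩
    rw [mem_product, hQ]
    exact ⟨mem_image_of_mem _ ha, mem_image_of_mem _ ha'⟩
  have hsum := card_eq_sum_card_fiberwise (s := A') (t := Q ×ˢ Q)
    (f := fun p => (fs (P.Sim (insert v₁ b) p.1), fs (P.Sim (insert v₁ b) p.2)))
    (fun p hp => hmaps p hp)
  have hA'ne : A'.Nonempty := by
    rw [nonempty_iff_ne_empty]
    intro he
    rw [he, card_empty, Nat.cast_zero] at hA2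
    have : 0 < c / 2 * n ^ 2 := by positivity
    linarith
  have hQne : (Q ×ˢ Q).Nonempty := by
    obtain ⟨p, hp⟩ := hA'ne
    exact ⟨_, hmaps p hp⟩
  obtain ⟨q, hq, hfib⟩ : ∃ q ∈ Q ×ˢ Q, κ * n ^ 2 ≤ ((A'.filter (fun p =>
      (fs (P.Sim (insert v₁ b) p.1), fs (P.Sim (insert v₁ b) p.2)) = q)).card : ℝ) := by
    apply exists_le_of_sum_le hQne
    rw [sum_const, nsmul_eq_mul, card_product]
    have h1 : ∑ q ∈ Q ×ˢ Q, ((A'.filter (fun p =>
      (fs (P.Sim (insert v₁ b) p.1), fs (P.Sim (insert v₁ b) p.2)) = q)).card : ℝ) = A'.card := by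
      exact_mod_cast hsum.symm
    rw [h1]
    refine le_trans ?_ hA2
    have h2 : ((Q.card * Q.card : ℕ) : ℝ) ≤ (K : ℝ) ^ (2 * S) := by
      have h3 : Q.card * Q.card ≤ K ^ (2 * S) := by
        rw [two_mul, pow_add]
        exact Nat.mul_le_mul hQc hQc
      exact_mod_cast h3
    calc ((Q.card * Q.card : ℕ) : ℝ) * (κ * n ^ 2) ≤ (K : ℝ) ^ (2 * S) * (κ * n ^ 2) :=
          mul_le_mul_of_nonneg_right h2 (by positivity)
      _ = c / 2 * n ^ 2 := by rw [hκ]; field_simp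
  obtain ⟨F, hF⟩ : ∃ F : Finset (V × V), F = A'.filter (fun p =>
      (fs (P.Sim (insert v₁ b) p.1), fs (P.Sim (insert v₁ b) p.2)) = q) := ⟨_, rfl⟩
  rw [← hF] at hfib
  obtain ⟨Y₁, hY₁⟩ : ∃ Y₁ : Finset V, Y₁ = X.filter (fun x => fs (P.Sim (insert v₁ b) x) = q.1) :=
    ⟨_, rfl⟩
  obtain ⟨Y₂, hY₂⟩ : ∃ Y₂ : Finset V, Y₂ = X.filter (fun x => fs (P.Sim (insert v₁ b) x) = q.2) :=
    ⟨_, rfl⟩
  have hFY : F ⊆ Y₁ ×ˢ Y₂ := by
    rintro ⟨a, a'⟩ hp
    rw [hF, mem_filter, hA', mem_prs] at hp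
    have h1 : fs (P.Sim (insert v₁ b) a) = q.1 := by rw [← hp.2]
    have h2 : fs (P.Sim (insert v₁ b) a') = q.2 := by rw [← hp.2]
    rw [mem_product, hY₁, hY₂, mem_filter, mem_filter]
    exact ⟨⟨hp.1.1, h1⟩, ⟨hp.1.2.1, h2⟩⟩
  have hFc : (F.card : ℝ) ≤ (Y₁.card : ℝ) * Y₂.card := by
    have := card_le_card hFY
    rw [card_product] at this
    exact_mod_cast this
  have hY1n : (Y₁.card : ℝ) ≤ n := by
    rw [hnn]; exact_mod_cast card_le_univ Y₁
  have hY2n : (Y₂.card : ℝ) ≤ n := by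
    rw [hnn]; exact_mod_cast card_le_univ Y₂
  have hF0 : F.Nonempty := by
    rw [nonempty_iff_ne_empty]
    intro he
    rw [he, card_empty, Nat.cast_zero] at hfib
    have : 0 < κ * n ^ 2 := by positivity
    linarith
  have hcls : ∀ q' : Finset V, ∀ a ∈ X.filter (fun x => fs (P.Sim (insert v₁ b) x) = q'),
      ∀ a' ∈ X.filter (fun x => fs (P.Sim (insert v₁ b) x) = q'), P.Sim (insert v₁ b) a a' := by
    intro q' a ha a' ha'
    rw [mem_filter] at ha ha'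
    have h1 : a' ∈ fs (P.Sim (insert v₁ b) a') := mem_fs.2 (PI.sim_refl hm1 a')
    rw [ha'.2, ← ha.2, mem_fs] at h1
    exact h1
  refine ⟨v₁, hv₁, Y₁, Y₂, ?_, ?_, ?_, ?_, ?_, ?_, ?_⟩
  · rw [hY₁]; exact filter_subset _ _
  · rw [hY₂]; exact filter_subset _ _
  · rw [hY₁]; exact hcls q.1
  · rw [hY₂]; exact hcls q.2
  · have h1 : κ * n ^ 2 ≤ (Y₁.card : ℝ) * n :=
      hfib.trans (hFc.trans (mul_le_mul_of_nonneg_left hY2n (Nat.cast_nonneg _)))
    have h2 : κ * n * n ≤ (Y₁.card : ℝ) * n := by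
      calc κ * n * n = κ * n ^ 2 := by ring
        _ ≤ _ := h1
    exact le_of_mul_le_mul_right h2 hn0
  · have h1 : κ * n ^ 2 ≤ n * (Y₂.card : ℝ) :=
      hfib.trans (hFc.trans (mul_le_mul_of_nonneg_right hY1n (Nat.cast_nonneg _)))
    have h2 : n * (κ * n) ≤ n * (Y₂.card : ℝ) := by
      calc n * (κ * n) = κ * n ^ 2 := by ring
        _ ≤ _ := h1
    exact le_of_mul_le_mul_left h2 hn0
  · obtain ⟨⟨a, a'⟩, hp⟩ := hF0
    have hp1 := hFY hp
    rw [mem_product] at hp1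
    rw [hF, mem_filter, hA', mem_prs] at hp
    exact ⟨a, hp1.1, a', hp1.2, hp.1.2.2.1, hp.1.2.2.2⟩

end MS216
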