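import Pool.Agent.H.MP_216555_lc.NCc

/-!
# Existence of a diagonally stable strong class
-/

set_option linter.unusedSectionVars false

namespace MS216

open Finset

private theorem phi_mono {K s t : ℕ} (hK : 1 ≤ K) (h : s ≤ t) : phi K s ≤ phi K t := by
  unfold phi
  have : K ^ (s + K + 1) ≤ K ^ (t + K + 1) := Nat.pow_le_pow_right hK (by omega)
  omega

private theorem sq_mono (K : ℕ) {i j : ℕ} (h : i ≤ j) : sq K i ≤ sq K j := by
  induction j with
  | zero => obtain rfl : i = 0 := by omega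
            exact le_rfl
  | succ j ih =>
    rcases Nat.lt_or_ge j i with h1 | h1
    · obtain rfl : i = j + 1 := by omega
      exact le_rfl
    · refine (ih h1).trans ?_
      change sq K j ≤ sq K j + phi K (sq K j)
      omega

/-- Sketch: suppose no such `(B₀, x₀)` exists.  By induction on `j ≤ K` there are `B₀, x₀` with
`|B₀| ≤ sq K j`, `x₀ ∉ Dcl B₀`, `NC B₀ x₀ x₀ (j+1)`: start `B₀ = ∅` (`dcl_card`, `big`: `Dcl ∅` is
not everything; `nc_one`); if `Diag B₀ x₀ (phi K |B₀|)` fails at `B, x, y, z, y', z'`, then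
`nc_split` for `B₀ ⊆ B` and the classes of `x` and `x` gives `NC B x x (j+2)`, and
`|B| ≤ |B₀| + phi K |B₀| ≤ sq K (j+1)` (`phi` is monotone in `s`).  `j = K` contradicts
`nc_bound` (`s = sq K K`).  Here `sq K j ≤ sq K K` for `j ≤ K`. -/
theorem diag_exists (K S : ℕ) (hS : sq K K + Lp K (sq K K) + 4 ≤ S) : ∃ n₀ : ℕ,
    ∀ (V : Type) [Fintype V] [DecidableEq V]
    (m : ℕ) (P : PI V m), P.Env K S → n₀ ≤ Fintype.card V →
    ∃ (B₀ : Finset V) (x₀ : V), B₀.card ≤ sq K K ∧ x₀ ∉ P.Dcl B₀ ∧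
      P.Diag B₀ x₀ (phi K B₀.card) := by
  obtain ⟨n₁, hn₁⟩ := nc_bound K (sq K K) S hS
  obtain ⟨n₂, hn₂⟩ := nc_split K S
  refine ⟨max n₁ n₂, ?_⟩
  intro V _ _ m P hE hn
  have hK := hE.hK
  have hK1 : 1 ≤ K := by omega
  by_contra hcon
  push Not at hcon
  have key : ∀ j, j ≤ K → ∃ (B₀ : Finset V) (x₀ : V), B₀.card ≤ sq K j ∧ x₀ ∉ P.Dcl B₀ ∧
      P.NC B₀ x₀ x₀ (j + 1) := by
    intro j
    induction j with
    | zero =>
      intro _
      obtain ⟨x₀, hx₀⟩ : ∃ x₀ : V, x₀ ∉ P.Dcl ∅ := by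
        by_contra hall
        push Not at hall
        have h1 := hE.dcl_card (B := ∅) (by simp)
        have h2 : (fs (fun y => y ∈ P.Dcl (∅ : Finset V))) = Finset.univ := by
          ext y
          simp [hall y]
        rw [h2, Finset.card_univ] at h1
        have h3 := hE.big
        have h4 : K ^ 1 ≤ K ^ (4 * S + 8) := Nat.pow_le_pow_right hK1 (by omega)
        simp only [Finset.card_empty, pow_zero, pow_one] at h1 h4
        omega
      exact ⟨∅, x₀, by simp, hx₀, hE.nc_one (by simp; omega) hx₀ hx₀⟩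
    | succ j ih =>
      intro hj
      obtain ⟨B₀, x₀, hB₀, hx₀, hnc⟩ := ih (by omega)
      have hle : sq K j ≤ sq K K := sq_mono K (by omega)
      have hle' : sq K (j + 1) ≤ sq K K := sq_mono K hj
      have hnd := hcon B₀ x₀ (hB₀.trans hle) hx₀
      unfold PI.Diag at hnd
      push Not at hnd
      obtain ⟨B, hBB, _, hcard, x, hx, hxB, y, z, y', z', hy, hz, hy', hz', hi, hi', ht, hnt⟩ := hnd
      have hphi : phi K B₀.card ≤ phi K (sq K j) := phi_mono hK1 hB₀
      have hBc : B.card ≤ sq K (j + 1) := by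
        change B.card ≤ sq K j + phi K (sq K j)
        omega
      refine ⟨B, x, hBc, hxB, ?_⟩
      exact hn₂ V m P hE (le_trans (le_max_right _ _) hn) B₀ B hBB (by omega) x₀ x₀ x x hxB hxB
        hx hx (j + 1) hnc y z y' z' hy hy' hz hz' hi hi' ht hnt
  obtain ⟨B₀, x₀, hB₀, hx₀, hnc⟩ := key K le_rfl
  exact hn₁ V m P hE (le_trans (le_max_left _ _) hn) B₀ hB₀ x₀ x₀ hx₀ hx₀ hnc

end MS216
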