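import Pool.Agent.H.MP_216555_lc.SimM

/-!
# Reading lemmas (step 7)
-/

set_option linter.unusedSectionVars false

namespace MS216

open Finset

variable {V : Type} [Fintype V] [DecidableEq V] {m : ℕ} {P : PI V m} {K S : ℕ}

/-- A change of lists and base, reduced to a statement about pairs. -/
private theorem read_mv {B B' : Finset V} {l l' k k' : List V} (h : P.Tp B l l')
    (hl : k.length = k'.length)
    (hs : ∀ a b, ((a = b ∧ a ∈ B') ∨ (a, b) ∈ k.zip k') → ((a = b ∧ a ∈ B) ∨ (a, b) ∈ l.zip l')) :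
    P.Tp B' k k' := by
  refine PI.Tp.mono h hl ?_
  intro a b hab
  rw [mem_pr] at hab ⊢
  exact hs a b hab

private theorem read_card {b R : Finset V} : b.card ≤ (b ∪ R).card :=
  Finset.card_le_card Finset.subset_union_left

private theorem read_sub {b R : Finset V} {r : V} (hr : r ∈ R) : insert r b ⊆ b ∪ R := by
  intro x hx
  rw [Finset.mem_insert] at hx
  rw [Finset.mem_union]
  rcases hx with rfl | hx
  · exact Or.inr hr
  · exact Or.inl hx

/-- Every `w ∈ E`, `w ∉ Dcl (insert y b)`, is `Sim (insert y b)` to some `r ∈ R`, for every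
`y ∈ [y₀]_{b ∪ R}`.  Sketch: extend `Tp (b ∪ R) [y] [y₀]` by `w ↦ w'` (`ext1`).  For `r ∈ R`:
`Tp b [r,w] [r,w']` and `Sim b r w` (both in `[w₀]_b`), so `Sim b r w'`, so `Sim b w₀ w'`;
`w' ∉ Dcl (insert y₀ b)` by `dcl_insert`.  So `Sim (insert y₀ b) w' r` for some `r ∈ R`; now
`Tp b [y₀,w',r] [y,w,r]` and `Tp.sim_insert`. -/
theorem PI.Env.rep_any (hE : P.Env K S) {b R : Finset V} (hb : (b ∪ R).card + 2 ≤ S)
    {w₀ y₀ : V} (hR : P.RepSet K b w₀ y₀ R) {y : V} (hy : P.Sim (b ∪ R) y₀ y) {w : V}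
    (hw : P.Sim b w₀ w) (hwd : w ∉ P.Dcl (insert y b)) :
    ∃ r ∈ R, P.Sim (insert y b) w r := by
  have hm := hE.hm
  have hbm : b.card + 6 ≤ m := by
    have := read_card (b := b) (R := R)
    omega
  obtain ⟨w', h1⟩ := hy.tp.symm.ext1 (by simp only [List.length_cons, List.length_nil]; omega) w
  obtain ⟨r0, hr0⟩ := hR.ne
  have a1 : P.Sim b r0 w := PI.Sim.trans hbm (PI.Sim.symm hbm (hR.sub r0 hr0)) hw
  have a2 : P.Tp b [r0, w] [r0, w'] := by
    refine read_mv h1 rfl ?_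
    intro a c hab
    simp only [List.zip_cons_cons, List.zip_nil_right, List.mem_cons, List.not_mem_nil,
      Prod.mk.injEq, Finset.mem_union, or_false] at hab ⊢
    grind
  have a3 : P.Sim b w₀ w' := PI.Sim.trans hbm (hR.sub r0 hr0) ((a2.sim_iff hbm).1 a1)
  have a4 : P.Tp b [y, w] [y₀, w'] := by
    refine read_mv h1 rfl ?_
    intro a c hab
    simp only [List.zip_cons_cons, List.zip_nil_right, List.mem_cons, List.not_mem_nil,
      Prod.mk.injEq, Finset.mem_union, or_false] at hab ⊢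
    grind
  have a5 : w' ∉ P.Dcl (insert y₀ b) := fun h => hwd ((PI.Tp.dcl_insert hbm a4).2 h)
  obtain ⟨r, hr, hs⟩ := hR.rep w' a3 a5
  have a6 : P.Tp b [y₀, w', r] [y, w, r] := by
    refine read_mv h1.symm rfl ?_
    intro a c hab
    simp only [List.zip_cons_cons, List.zip_nil_right, List.mem_cons, List.not_mem_nil,
      Prod.mk.injEq, Finset.mem_union, or_false] at hab ⊢
    grind
  exact ⟨r, hr, PI.Tp.sim_insert hbm a6 hs⟩

/-- Lemma R.  Sketch: choose `r` for `w` by `rep_any` (`w ∉ Dcl (insert y b)` from `Ind3` and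
`ind2_symm`).  `Stab` with `v = r` (`Sim b w₀ r`): `Sim (insert r b) w w'` (`sim_mono` from
`b ∪ R`), `Sim (insert r b) y y`, `Tp b [w,y] [w',y]`, `Ind2 (insert r b)` of both pairs
(`ind2_mono`): so `Tp (insert r b) [w,y] [w',y]`, i.e. `Tp b [y,r,w] [y,r,w']`.  `Sim (insert y b)`
is invariant under it (`Tp.sim_iff`), so `Sim (insert y b) w' r`, hence
`Sim (insert y b) w w'`.  `Stab` with `v = y` for the pairs `(w,z)`, `(w',z)`, which are
`Ind2 (insert y b)` (`ind3_swap'`): `Tp (insert y b) [w,z] [w',z]`. -/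
theorem PI.Env.lemR (hE : P.Env K S) {b R : Finset V} (hb : (b ∪ R).card + 4 ≤ S)
    {w₀ y₀ : V} (hS : P.Stab b w₀ y₀) (hw₀ : w₀ ∉ P.Dcl b) (hR : P.RepSet K b w₀ y₀ R)
    {w w' y z : V} (hw : P.Sim b w₀ w) (hw' : P.Sim b w₀ w') (hww : P.Sim (b ∪ R) w w')
    (hy : P.Sim (b ∪ R) y₀ y) (hz : P.Sim (b ∪ R) y₀ z)
    (hi : P.Ind3 (b ∪ R) w y z) (hi' : P.Ind3 (b ∪ R) w' y z)
    (h1 : P.Tp b [w, y] [w', y]) (h2 : P.Tp b [w, z] [w', z]) :
    P.Tp b [w, y, z] [w', y, z] := by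
  have hm := hE.hm
  have hbc := read_card (b := b) (R := R)
  have hbm : b.card + 6 ≤ m := by omega
  have hsw := hE.ind3_swap' (by omega) hi
  have hsw' := hE.ind3_swap' (by omega) hi'
  have hyb : insert y b ⊆ insert y (b ∪ R) := Finset.insert_subset_insert _ subset_union_left
  have hwd : w ∉ P.Dcl (insert y b) := fun h => hsw.2.1 (PI.dcl_mono hyb h)
  obtain ⟨r, hr, hwr⟩ := hE.rep_any (by omega) hR hy hw hwd
  have hrb : insert r b ⊆ b ∪ R := read_sub hr
  have hyX : P.Sim b y₀ y := hE.sim_mono subset_union_left (by omega) hR.nd hy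
  have hzX : P.Sim b y₀ z := hE.sim_mono subset_union_left (by omega) hR.nd hz
  have hrm : (insert r b).card + 6 ≤ m := by
    have := Finset.card_insert_le r b
    omega
  have hym : (insert y b).card + 6 ≤ m := by
    have := Finset.card_insert_le y b
    omega
  have t1 := hS r (Or.inl (hR.sub r hr)) w w' y y hw hw' hyX hyX
    (hE.sim_mono hrb (by omega) hi.1 hww) (PI.sim_refl hrm y) h1
    (PI.ind2_mono hrb ⟨hi.1, hi.2.1⟩) (PI.ind2_mono hrb ⟨hi'.1, hi'.2.1⟩)
  have t2 : P.Tp (insert y b) [w, r] [w', r] := by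
    refine read_mv t1 rfl ?_
    intro a c hab
    simp only [List.zip_cons_cons, List.zip_nil_right, List.mem_cons, List.not_mem_nil,
      Prod.mk.injEq, Finset.mem_insert, or_false] at hab ⊢
    grind
  have s1 : P.Sim (insert y b) w' r := (t2.sim_iff hym).1 hwr
  have s2 : P.Sim (insert y b) w w' := PI.Sim.trans hym hwr (PI.Sim.symm hym s1)
  have t3 := hS y (Or.inr hyX) w w' z z hw hw' hzX hzX s2 (PI.sim_refl hym z) h2
    (PI.ind2_mono hyb ⟨hsw.2.1, hsw.2.2⟩) (PI.ind2_mono hyb ⟨hsw'.2.1, hsw'.2.2⟩)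
  refine read_mv t3 rfl ?_
  intro a c hab
  simp only [List.zip_cons_cons, List.zip_nil_right, List.mem_cons, List.not_mem_nil,
    Prod.mk.injEq, Finset.mem_insert, or_false] at hab ⊢
  grind

/-- Lemma M.  Sketch: extend `Tp (insert e (b ∪ R)) [y,z] [y',z']` by `w ↦ u`: `Sim (b ∪ R) e u`
by invariance (`Tp (b ∪ R) [e,w] [e,u]`), `Ind3 (b ∪ R) u y' z'` by `Tp.ind3`,
`Tp b [u,y'] [w,y]` and so `Tp b [u,y'] [w',y']`, same for `z'`.  `lemR` for `u, w', y', z'`. -/
theorem PI.Env.lemM (hE : P.Env K S) {b R : Finset V} (hb : (b ∪ R).card + 5 ≤ S)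
    {w₀ y₀ : V} (hS : P.Stab b w₀ y₀) (hw₀ : w₀ ∉ P.Dcl b) (hR : P.RepSet K b w₀ y₀ R)
    {e w w' y z y' z' : V} (he : P.Sim b w₀ e) (hed : e ∉ P.Dcl (b ∪ R))
    (hw : P.Sim (b ∪ R) e w) (hw' : P.Sim (b ∪ R) e w')
    (hy : P.Sim (b ∪ R) y₀ y) (hz : P.Sim (b ∪ R) y₀ z)
    (hy' : P.Sim (b ∪ R) y₀ y') (hz' : P.Sim (b ∪ R) y₀ z')
    (ht : P.Tp (insert e (b ∪ R)) [y, z] [y', z'])
    (hi : P.Ind3 (b ∪ R) w y z) (hi' : P.Ind3 (b ∪ R) w' y' z')
    (h1 : P.Tp b [w, y] [w', y']) (h2 : P.Tp b [w, z] [w', z']) :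
    P.Tp b [w, y, z] [w', y', z'] := by
  have hm := hE.hm
  have hbc := read_card (b := b) (R := R)
  have hbm : b.card + 6 ≤ m := by omega
  have hRm : (b ∪ R).card + 6 ≤ m := by omega
  obtain ⟨u, hu⟩ := ht.ext1 (by
    have := Finset.card_insert_le e (b ∪ R)
    simp only [List.length_cons, List.length_nil]
    omega) w
  have c1 : P.Tp (b ∪ R) [e, w] [e, u] := by
    refine read_mv hu rfl ?_
    intro a c hab
    simp only [List.zip_cons_cons, List.zip_nil_right, List.mem_cons, List.not_mem_nil,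
      Prod.mk.injEq, Finset.mem_insert, or_false] at hab ⊢
    grind
  have c2 : P.Sim (b ∪ R) e u := (c1.sim_iff hRm).1 hw
  have c3 : P.Tp (b ∪ R) [w, y, z] [u, y', z'] := by
    refine read_mv hu rfl ?_
    intro a c hab
    simp only [List.zip_cons_cons, List.zip_nil_right, List.mem_cons, List.not_mem_nil,
      Prod.mk.injEq, Finset.mem_insert, or_false] at hab ⊢
    grind
  have c4 : P.Ind3 (b ∪ R) u y' z' := c3.ind3 hRm hi
  have c5 : P.Tp b [w, y, z] [u, y', z'] := by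
    refine read_mv c3 rfl ?_
    intro a c hab
    simp only [List.zip_cons_cons, List.zip_nil_right, List.mem_cons, List.not_mem_nil,
      Prod.mk.injEq, Finset.mem_union, or_false] at hab ⊢
    grind
  have c6 : P.Tp b [w, y] [u, y'] := by
    refine read_mv c5 rfl ?_
    intro a c hab
    simp only [List.zip_cons_cons, List.zip_nil_right, List.mem_cons, List.not_mem_nil,
      Prod.mk.injEq, or_false] at hab ⊢
    grind
  have c7 : P.Tp b [w, z] [u, z'] := by
    refine read_mv c5 rfl ?_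
    intro a c hab
    simp only [List.zip_cons_cons, List.zip_nil_right, List.mem_cons, List.not_mem_nil,
      Prod.mk.injEq, or_false] at hab ⊢
    grind
  have e1 : P.Sim b w₀ u :=
    PI.Sim.trans hbm he (hE.sim_mono subset_union_left (by omega) hed c2)
  have e2 : P.Sim b w₀ w' :=
    PI.Sim.trans hbm he (hE.sim_mono subset_union_left (by omega) hed hw')
  exact c5.trans (hE.lemR (by omega) hS hw₀ hR e1 e2
    (PI.Sim.trans hRm (PI.Sim.symm hRm c2) hw') hy' hz' c4 hi' (c6.symm.trans h1)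
    (c7.symm.trans h2))

end MS216
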