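import Pool.Agent.H.MP_216555_lc.SimM

/-!
# Sets of representatives (no largeness beyond `Env`)
-/

set_option linter.unusedSectionVars false

namespace MS216

open Finset

variable {V : Type} [Fintype V] [DecidableEq V] {m : ℕ} {P : PI V m} {K S : ℕ}

/-- Sketch: let `T ⊆ fs (Sim b w₀)` be a maximal set of points outside `Dcl (insert y₀ b)`, pairwise
not `Sim (insert y₀ b)`-equivalent; `|T| ≤ K^(|b|+1)` by `few` (none is alone: `sim_nontriv`), and
`T` is not empty (`exists_sim_notMem_dcl`).  Go through the elements `t` of `T` one after another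
(induction on a sub-finset): if `R'` has been chosen with `y₀ ∉ Dcl (b ∪ R')`, choose
`r` with `Sim (insert y₀ b) t r` and `r ∉ Dcl (insert y₀ (b ∪ R'))`
(`exists_sim_notMem_dcl`); then `exch` over `b ∪ R'` gives `y₀ ∉ Dcl (insert r (b ∪ R'))`.
`Sim b w₀ r` by `sim_mono` (`t ∉ Dcl (insert y₀ b)`).  Every `w ∈ [w₀]_b` outside
`Dcl (insert y₀ b)` is equivalent to some `t ∈ T`, hence to its `r`. -/
theorem PI.Env.reps (hE : P.Env K S) {b : Finset V}
    (hb : b.card + K ^ (b.card + 1) + 2 ≤ S) {w₀ y₀ : V} (hw : w₀ ∉ P.Dcl b)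
    (hy : y₀ ∉ P.Dcl b) : ∃ R : Finset V, P.RepSet K b w₀ y₀ R := by
  classical
  have hK : 0 < K := by
    have := hE.hK
    omega
  have hm := hE.hm
  obtain ⟨N, hN⟩ : ∃ N, N = K ^ (b.card + 1) := ⟨_, rfl⟩
  rw [← hN] at hb
  have hbS : b.card ≤ S := by omega
  have hbm : b.card + 6 ≤ m := by omega
  have hyc : (insert y₀ b).card ≤ b.card + 1 := Finset.card_insert_le _ _
  have hyS : (insert y₀ b).card ≤ S := by omega
  have hym : (insert y₀ b).card + 6 ≤ m := by omega
  have hsub : b ⊆ insert y₀ b := Finset.subset_insert _ _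
  -- a maximal set of inequivalent points
  obtain ⟨T, hT, hmax⟩ := Finset.exists_max_image
    ((univ : Finset (Finset V)).filter fun T =>
      (∀ t ∈ T, P.Sim b w₀ t ∧ t ∉ P.Dcl (insert y₀ b)) ∧
      ∀ t ∈ T, ∀ t' ∈ T, P.Sim (insert y₀ b) t t' → t = t') Finset.card
    ⟨∅, by simp⟩
  rw [Finset.mem_filter] at hT
  obtain ⟨-, hT1, hT2⟩ := hT
  have hTc : T.card ≤ N := by
    refine (hE.few hyS (PI.sim_invEq hym) T (fun t ht => hE.sim_nontriv hyS (hT1 t ht).2)
      hT2).trans ?_
    rw [hN]
    exact Nat.pow_le_pow_right hK hyc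
  have hTm : ∀ w, P.Sim b w₀ w → w ∉ P.Dcl (insert y₀ b) →
      ∃ t ∈ T, P.Sim (insert y₀ b) w t := by
    intro w hw1 hw2
    by_contra hcon
    push Not at hcon
    have hwT : w ∉ T := fun h => hcon w h (PI.sim_refl hym w)
    have h1 := hmax (insert w T) (by
      rw [Finset.mem_filter]
      refine ⟨mem_univ _, ?_, ?_⟩
      · intro t ht
        rcases Finset.mem_insert.1 ht with rfl | h
        · exact ⟨hw1, hw2⟩
        · exact hT1 t h
      · intro t ht t' ht' hs
        rcases Finset.mem_insert.1 ht with h | h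
        · rcases Finset.mem_insert.1 ht' with h' | h'
          · rw [h, h']
          · rw [h] at hs
            exact absurd hs (hcon t' h')
        · rcases Finset.mem_insert.1 ht' with h' | h'
          · rw [h'] at hs
            exact absurd (hs.symm hym) (hcon t h)
          · exact hT2 t h t' h' hs)
    rw [Finset.card_insert_of_notMem hwT] at h1
    omega
  -- representatives
  have key : ∀ T' : Finset V, T' ⊆ T → ∃ R : Finset V, R.card ≤ T'.card ∧
      (∀ r ∈ R, P.Sim b w₀ r) ∧ y₀ ∉ P.Dcl (b ∪ R) ∧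
      ∀ t ∈ T', ∃ r ∈ R, P.Sim (insert y₀ b) t r := by
    intro T'
    induction T' using Finset.induction_on with
    | empty =>
      intro _
      refine ⟨∅, le_rfl, fun r hr => absurd hr (Finset.notMem_empty r), ?_,
        fun t ht => absurd ht (Finset.notMem_empty t)⟩
      rw [Finset.union_empty]
      exact hy
    | insert t T'' htT ih =>
      intro hTT
      obtain ⟨R, hR1, hR2, hR3, hR4⟩ := ih ((Finset.subset_insert _ _).trans hTT)
      have htT2 : t ∈ T := hTT (Finset.mem_insert_self _ _)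
      have hc1 : T''.card + 1 ≤ N := by
        rw [← Finset.card_insert_of_notMem htT]
        exact (Finset.card_le_card hTT).trans hTc
      have hc2 : (b ∪ R).card ≤ b.card + R.card := Finset.card_union_le _ _
      have hc3 : (insert y₀ (b ∪ R)).card ≤ (b ∪ R).card + 1 := Finset.card_insert_le _ _
      obtain ⟨x, hx1, hx2⟩ := hE.exists_sim_notMem_dcl (B := insert y₀ b)
        (B' := insert y₀ (b ∪ R)) hyS (by omega) (hT1 t htT2).2
      refine ⟨insert x R, ?_, ?_, ?_, ?_⟩
      · rw [Finset.card_insert_of_notMem htT]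
        exact (Finset.card_insert_le _ _).trans (Nat.add_le_add_right hR1 1)
      · intro r hr
        rcases Finset.mem_insert.1 hr with rfl | h
        · exact (hT1 t htT2).1.trans hbm (hE.sim_mono hsub hyS (hT1 t htT2).2 hx1)
        · exact hR2 r h
      · have h1 : b ∪ insert x R = insert x (b ∪ R) := by
          rw [Finset.union_insert]
        rw [h1]
        exact hE.exch (by omega) hR3 hx2
      · intro t' ht'
        rcases Finset.mem_insert.1 ht' with rfl | h
        · exact ⟨x, Finset.mem_insert_self _ _, hx1⟩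
        · obtain ⟨r, hr, hr2⟩ := hR4 t' h
          exact ⟨r, Finset.mem_insert_of_mem hr, hr2⟩
  obtain ⟨R, hR1, hR2, hR3, hR4⟩ := key T (Finset.Subset.refl T)
  refine ⟨R, ⟨?_, ?_, hR2, hR3, ?_⟩⟩
  · obtain ⟨x, hx1, hx2⟩ := hE.exists_sim_notMem_dcl (B := b) (B' := insert y₀ b) hbS hyS hw
    obtain ⟨t, ht, -⟩ := hTm x hx1 hx2
    obtain ⟨r, hr, -⟩ := hR4 t ht
    exact ⟨r, hr⟩
  · rw [← hN]
    exact hR1.trans hTc
  · intro w hw1 hw2
    obtain ⟨t, ht, ht2⟩ := hTm w hw1 hw2
    obtain ⟨r, hr, hr2⟩ := hR4 t ht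
    exact ⟨r, hr, ht2.trans hym hr2⟩

end MS216
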