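import Pool.Agent.H.MP_216555_lc.Tri
import Pool.Agent.H.MP_216555_lc.Reps
import Pool.Agent.H.MP_216555_lc.Read

/-!
# Step G: the contradiction
-/

set_option linter.unusedSectionVars false

namespace MS216

open Finset

/-- Sketch.  `reps` with `b = B₀`, `w₀ = y₀ = x₀`: `R`.  `e = x₀` (`x₀ ∉ Dcl (B₀ ∪ R)` by
`RepSet.nd`), `d = insert x₀ (B₀ ∪ R)`, `|d| ≤ |B₀| + phi K |B₀|`, `d ⊆ B₀ ∪ [x₀]`.  `x` with
`Sim (B₀ ∪ R) x₀ x`, `x ∉ Dcl d`; `X = fs (Sim d x)`, size `≥ n/K^S` (`δ = 1/K^S`); `z` with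
`Sim B₀ x₀ z`, `z ∉ Dcl (insert x₀ B₀)` (so `Ind2 B₀ x₀ z`).  `tri` for the pair `(x₀, z)`, the
bases `B₀ ⊆ d` and `X` (all in `[x₀]_{B₀}`): `a, b, c ∈ X` with `(a,b)`, `(b,c)`, `(c,a)` of the
type of `(x₀,z)` over `B₀`, `Ind3 d a b c`.  `Diag`: `Tp d [b,c] [c,a]` (`ind3_rot`, `ind2_mono`).
`lemM` for `w = a`, `(y,z) = (b,c)`, `w' = b`, `(y',z') = (c,a)` (`Tp B₀ [a,b] [b,c]`,
`Tp B₀ [a,c] [b,a]`): `Tp B₀ [a,b,c] [b,c,a]`, and `a ≠ b`: contradiction to `Env.anti`. -/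
theorem stepG (K s S : ℕ) (hS : s + phi K s + Lp K (s + phi K s) + 8 ≤ S) : ∃ n₀ : ℕ,
    ∀ (V : Type) [Fintype V] [DecidableEq V]
    (m : ℕ) (P : PI V m), P.Env K S → n₀ ≤ Fintype.card V →
    ∀ B₀ : Finset V, B₀.card ≤ s → ∀ x₀, x₀ ∉ P.Dcl B₀ → P.Diag B₀ x₀ (phi K B₀.card) →
      P.Stab B₀ x₀ x₀ → False := by
  have hδ : (0 : ℝ) < 1 / ((K : ℝ) + 1) ^ S := by positivity
  obtain ⟨n₀, htri⟩ := tri K S (1 / ((K : ℝ) + 1) ^ S) hδ
  refine ⟨n₀, ?_⟩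
  intro V _ _ m P hE hn B₀ hB x₀ hx₀ hDiag hStab
  have hK := hE.hK
  have hm := hE.hm
  -- numbers
  have hpow1 : K ^ (B₀.card + 1) ≤ K ^ (B₀.card + K + 1) :=
    Nat.pow_le_pow_right (by omega) (by omega)
  have hpow2 : K ^ (B₀.card + K + 1) ≤ K ^ (s + K + 1) :=
    Nat.pow_le_pow_right (by omega) (by omega)
  have hphi : phi K s = K + K ^ (s + K + 1) + 1 := rfl
  have hphi0 : phi K B₀.card = K + K ^ (B₀.card + K + 1) + 1 := rfl
  obtain ⟨R, hR⟩ := hE.reps (b := B₀) (by omega) hx₀ hx₀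
  have hRc := hR.card
  have hBR : (B₀ ∪ R).card ≤ B₀.card + R.card := Finset.card_union_le _ _
  obtain ⟨d, hd⟩ : ∃ d, d = insert x₀ (B₀ ∪ R) := ⟨_, rfl⟩
  have hdc : d.card ≤ (B₀ ∪ R).card + 1 := by
    rw [hd]; exact Finset.card_insert_le _ _
  have hnd := hR.nd
  have hBRd : B₀ ∪ R ⊆ d := by rw [hd]; exact Finset.subset_insert _ _
  have hBBR : B₀ ⊆ B₀ ∪ R := Finset.subset_union_left
  have hBd : B₀ ⊆ d := hBBR.trans hBRd
  obtain ⟨x, hx, hxd⟩ := hE.exists_sim_notMem_dcl (B := B₀ ∪ R) (B' := d) (by omega) (by omega) hnd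
  have hx1 : P.Sim B₀ x₀ x := hE.sim_mono hBBR (by omega) hnd hx
  have hX1 : ∀ a, P.Sim d x a → P.Sim (B₀ ∪ R) x₀ a := fun a ha =>
    PI.Sim.trans (by omega) hx (hE.sim_mono hBRd (by omega) hxd ha)
  have hX0 : ∀ a, P.Sim d x a → P.Sim B₀ x₀ a := fun a ha =>
    hE.sim_mono hBBR (by omega) hnd (hX1 a ha)
  obtain ⟨z, hz, hzd⟩ := hE.exists_sim_notMem_dcl (B := B₀) (B' := insert x₀ B₀) (by omega)
    (by have := Finset.card_insert_le x₀ B₀; omega) hx₀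
  have hcard := hE.sim_large (B := d) (by omega) hxd
  have hKR : (1 : ℝ) ≤ (K : ℝ) + 1 := by
    have : (0 : ℝ) ≤ (K : ℝ) := Nat.cast_nonneg K
    linarith
  have hXc : 1 / ((K : ℝ) + 1) ^ S * Fintype.card V ≤ ((fs (P.Sim d x)).card : ℝ) := by
    rw [one_div, inv_mul_le_iff₀ (by positivity)]
    calc (Fintype.card V : ℝ) ≤ ((K ^ d.card * (fs (P.Sim d x)).card : ℕ) : ℝ) := by
          exact_mod_cast hcard
      _ = (K : ℝ) ^ d.card * ((fs (P.Sim d x)).card : ℝ) := by push_cast; ring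
      _ ≤ ((K : ℝ) + 1) ^ S * ((fs (P.Sim d x)).card : ℝ) := by
          refine mul_le_mul_of_nonneg_right ?_ (Nat.cast_nonneg _)
          calc (K : ℝ) ^ d.card ≤ ((K : ℝ) + 1) ^ d.card :=
                pow_le_pow_left₀ (Nat.cast_nonneg K) (by linarith) _
            _ ≤ ((K : ℝ) + 1) ^ S := pow_le_pow_right₀ hKR (by omega)
  obtain ⟨a, ha, b, hb, c, hc, h1, h2, h3, hi⟩ := htri V m P hE hn B₀ d hBd (by omega) x₀ z hz
    ⟨hx₀, hzd⟩ (fs (P.Sim d x)) (fun a ha => hX0 a (mem_fs.1 ha)) hXc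
  rw [mem_fs] at ha hb hc
  have hi1 : P.Ind3 d b c a := hE.ind3_rot (by omega) hi
  have hi2 : P.Ind3 d c a b := hE.ind3_rot (by omega) hi1
  have hbc : P.Tp B₀ [b, c] [c, a] := h2.symm.trans h3
  have hab : P.Tp B₀ [a, b] [b, c] := h1.symm.trans h2
  have hca : P.Tp B₀ [c, a] [a, b] := h3.symm.trans h1
  have hac : P.Tp B₀ [a, c] [b, a] := by exact PI.Tp.mono (hca) (by simp) (by intro a b hab; simp only [mem_pr, List.zip_cons_cons, List.zip_nil_right, List.mem_cons, List.not_mem_nil, Prod.mk.injEq, Finset.mem_insert, Finset.mem_union, Finset.mem_singleton, Finset.notMem_empty, or_false, and_false, false_or] at hab ⊢; grind)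
  have hdm : ∀ y ∈ d, y ∈ B₀ ∨ P.Sim B₀ x₀ y := by
    intro y hy
    rw [hd, Finset.mem_insert, Finset.mem_union] at hy
    rcases hy with hy | hy | hy
    · right; rw [hy]; exact PI.sim_refl (by omega) x₀
    · exact Or.inl hy
    · exact Or.inr (hR.sub y hy)
  have ht := hDiag d hBd hdm (by omega) x hx1 hxd b c c a hb hc hc ha ⟨hi1.1, hi1.2.1⟩
    ⟨hi2.1, hi2.2.1⟩ hbc
  rw [hd] at ht
  have hfin := hE.lemM (b := B₀) (R := R) (by omega) hStab hx₀ hR (e := x₀)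
    (PI.sim_refl (by omega) x₀) hnd (hX1 a ha) (hX1 b hb) (hX1 b hb) (hX1 c hc) (hX1 c hc)
    (hX1 a ha) ht (PI.ind3_mono hBRd hi) (PI.ind3_mono hBRd hi1) hab hac
  refine hE.anti B₀ (by omega) a b c ?_ hfin
  rintro rfl
  exact hi.2.1 (PI.mem_dcl_self (Finset.mem_insert_self _ _))

end MS216
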