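import Pool.Agent.H.MP_216555_lc.FinF
import Pool.Agent.H.MP_216555_lc.FinG
import Pool.Agent.H.MP_216555_lc.DiagEx

/-!
# The core proposition
-/

set_option linter.unusedSectionVars false

namespace MS216

/-- The number of points that may be fixed. -/
def SS (K : ℕ) : ℕ := sq K K + phi K (sq K K) + Lp K (sq K K + phi K (sq K K)) + 8

theorem core (K : ℕ) : ∃ n₀ : ℕ, ∀ (V : Type) [Fintype V] [DecidableEq V]
    (m : ℕ) (P : PI V m), P.Env K (SS K) → n₀ ≤ Fintype.card V → False := by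
  have h : sq K K + Lp K (sq K K) + 4 ≤ SS K := by
    have : Lp K (sq K K) ≤ Lp K (sq K K + phi K (sq K K)) := by
      unfold Lp
      gcongr
      omega
    unfold SS
    omega
  obtain ⟨n₁, h₁⟩ := diag_exists K (SS K) h
  obtain ⟨n₂, h₂⟩ := stepF K (sq K K) (SS K) le_rfl
  obtain ⟨n₃, h₃⟩ := stepG K (sq K K) (SS K) le_rfl
  refine ⟨max n₁ (max n₂ n₃), fun V _ _ m P hE hn => ?_⟩
  obtain ⟨B₀, x₀, hB, hx, hD⟩ := h₁ V m P hE (le_trans (by simp) hn)
  exact h₃ V m P hE (le_trans (by simp) hn) B₀ hB x₀ hx hD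
    (h₂ V m P hE (le_trans (by simp) hn) B₀ hB x₀ hx hD)

end MS216
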