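import Pool.Agent.H.MP_216555_lc.CountA

/-!
# Consequences of `Env`, part B: `Dcl` is small
-/

set_option linter.unusedSectionVars false

namespace MS216

open Finset

variable {V : Type} [Fintype V] [DecidableEq V] {m : ℕ} {P : PI V m} {K S : ℕ}

/-- `Dcl (insert a B) ⊆ Dcl B` if `a ∈ Dcl B`. -/
private theorem CountB_idem {B : Finset V} (hm : B.card + 6 ≤ m) {a y : V} (ha : a ∈ P.Dcl B)
    (hy : y ∈ P.Dcl (insert a B)) : y ∈ P.Dcl B := by
  intro y' h
  obtain ⟨a', h'⟩ := h.ext1 (by simp only [List.length_cons, List.length_nil]; omega) a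
  have h1 : P.Tp B [a] [a'] := by exact PI.Tp.mono (h') (by simp) (by intro a b hab; simp only [mem_pr, List.zip_cons_cons, List.zip_nil_right, List.mem_cons, List.not_mem_nil, Prod.mk.injEq, Finset.mem_insert, Finset.mem_union, Finset.mem_singleton, Finset.notMem_empty, or_false, and_false, false_or] at hab ⊢; grind)
  have h2 : a' = a := ha a' h1
  subst h2
  have h3 : P.Tp (insert a' B) [y] [y'] := by exact PI.Tp.mono (h') (by simp) (by intro a b hab; simp only [mem_pr, List.zip_cons_cons, List.zip_nil_right, List.mem_cons, List.not_mem_nil, Prod.mk.injEq, Finset.mem_insert, Finset.mem_union, Finset.mem_singleton, Finset.notMem_empty, or_false, and_false, false_or] at hab ⊢; grind)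
  exact hy y' h3

/-- `|Dcl B| ≤ K^|B|`.  Sketch: induction on `B`.  `Dcl ∅ = ∅` by `hom` and `big`.  If
`y ∈ Dcl B` then `Dcl (insert y B) = Dcl B`.  If `y ∉ Dcl B`: two different points `z, z'` of
`Dcl (insert y B) \ Dcl B` are never in the same orbit over `B`: if `y ∈ Dcl (insert z B)`
then `z' ∈ Dcl (insert z B)`, contradicting `mfree`; otherwise `exch` (with `z ∉ Dcl B`,
`y ∉ Dcl (insert z B)`) gives `z ∉ Dcl (insert y B)`.  By `few` for the orbit relation there
are at most `K^|B|` such points, so `|Dcl (insert y B)| ≤ 2 K^|B| ≤ K^(|B|+1)`. -/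
theorem PI.Env.dcl_card (hE : P.Env K S) {B : Finset V} (hB : B.card ≤ S) :
    (fs (fun y => y ∈ P.Dcl B)).card ≤ K ^ B.card := by
  induction B using Finset.induction_on with
  | empty =>
    have h1 : fs (fun y => y ∈ P.Dcl ∅) = ∅ := by
      rw [Finset.eq_empty_iff_forall_notMem]
      intro y hy
      rw [mem_fs] at hy
      have h2 : ∀ z, z = y := fun z => hy z (hE.hom y z)
      have h3 : Fintype.card V ≤ 1 := Fintype.card_le_one_iff.2 fun a b => by rw [h2 a, h2 b]
      have h4 := hE.big
      have h5 : 2 ^ 1 ≤ K ^ (4 * S + 8) :=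
        (Nat.pow_le_pow_left hE.hK 1).trans
          (Nat.pow_le_pow_right (by have := hE.hK; omega) (by omega))
      omega
    rw [h1]
    simp
  | insert a B ha ih =>
    rw [Finset.card_insert_of_notMem ha] at hB ⊢
    have ih := ih (by omega)
    have hm := hE.hm
    have hK := hE.hK
    have hp : 2 * K ^ B.card ≤ K ^ (B.card + 1) := by
      rw [pow_succ, mul_comm]
      exact Nat.mul_le_mul_left _ hK
    by_cases haB : a ∈ P.Dcl B
    · have h1 : fs (fun y => y ∈ P.Dcl (insert a B)) ⊆ fs (fun y => y ∈ P.Dcl B) := by
        intro y hy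
        rw [mem_fs] at hy ⊢
        exact CountB_idem (by omega) haB hy
      have h2 := Finset.card_le_card h1
      omega
    · have hT := hE.few (B := B) (by omega) (P.invEq_orbit (B := B) (by omega))
        (fs (fun y => y ∈ P.Dcl (insert a B) ∧ y ∉ P.Dcl B))
        (by
          intro t ht
          rw [mem_fs] at ht
          exact PI.not_dcl.1 ht.2)
        (by
          intro t ht t' ht' htt
          rw [mem_fs] at ht ht'
          by_contra hne
          obtain ⟨z', hz', hz⟩ := hE.mfree B (by omega) t t' hne htt
          have h1 : t' ∉ P.Dcl (insert t B) := by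
            rw [PI.not_dcl]
            exact ⟨z', hz', by exact PI.Tp.mono (hz) (by simp) (by intro a b hab; simp only [mem_pr, List.zip_cons_cons, List.zip_nil_right, List.mem_cons, List.not_mem_nil, Prod.mk.injEq, Finset.mem_insert, Finset.mem_union, Finset.mem_singleton, Finset.notMem_empty, or_false, and_false, false_or] at hab ⊢; grind)⟩
          by_cases h2 : a ∈ P.Dcl (insert t B)
          · apply h1
            have h3 : t' ∈ P.Dcl (insert a (insert t B)) :=
              PI.dcl_mono (by
                intro x hx
                rw [Finset.mem_insert] at hx ⊢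
                rw [Finset.mem_insert]
                tauto) ht'.1
            refine CountB_idem ?_ h2 h3
            have := Finset.card_insert_le t B
            omega
          · exact hE.exch (by omega) ht.2 h2 ht.1)
      have h1 : fs (fun y => y ∈ P.Dcl (insert a B)) ⊆
          fs (fun y => y ∈ P.Dcl B) ∪ fs (fun y => y ∈ P.Dcl (insert a B) ∧ y ∉ P.Dcl B) := by
        intro y hy
        rw [mem_fs] at hy
        rw [Finset.mem_union, mem_fs, mem_fs]
        tauto
      have h2 := Finset.card_le_card h1
      have h3 := Finset.card_union_le (fs (fun y => y ∈ P.Dcl B))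
        (fs (fun y => y ∈ P.Dcl (insert a B) ∧ y ∉ P.Dcl B))
      omega

end MS216
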