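import Pool.Agent.H.MP_216555_lc.CountB

/-!
# Consequences of `Env`, part C: few pair types
-/

set_option linter.unusedSectionVars false

namespace MS216

open Finset

variable {V : Type} [Fintype V] [DecidableEq V] {m : ℕ} {P : PI V m} {K S : ℕ}

private theorem CountC_reps (hE : P.Env K S) {B : Finset V} (hB : B.card ≤ S) :
    ∃ T : Finset V, T.card ≤ 2 * K ^ B.card ∧ ∀ y, ∃ t ∈ T, P.Tp B [y] [t] := by
  classical
  have hm := hE.hm
  have hinv := PI.invEq_orbit (P := P) (B := B) (by omega)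
  obtain ⟨c, hc1, hc2⟩ : ∃ c : V → V, (∀ y, P.Tp B [y] [c y]) ∧
      ∀ y z, P.Tp B [y] [z] → c y = c z := by
    let s : Setoid V := ⟨fun y z => P.Tp B [y] [z], hinv.equiv⟩
    refine ⟨fun y => (Quotient.mk s y).out, fun y => ?_, fun y z h => ?_⟩
    · exact hinv.equiv.symm (Quotient.mk_out (s := s) y)
    · have h1 : Quotient.mk s y = Quotient.mk s z := Quotient.sound h
      show (Quotient.mk s y).out = (Quotient.mk s z).out
      rw [h1]
  refine ⟨fs (fun y => y ∈ P.Dcl B) ∪ (fs (fun y => y ∉ P.Dcl B)).image c, ?_, fun y => ?_⟩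
  · refine (card_union_le _ _).trans ?_
    have h1 := hE.dcl_card hB
    have h2 := hE.few hB hinv ((fs (fun y => y ∉ P.Dcl B)).image c) (by
      intro t ht
      obtain ⟨y, hy, rfl⟩ := mem_image.1 ht
      rw [mem_fs] at hy
      exact PI.not_dcl.1 fun h => hy ((hc1 y).dcl_iff.2 h)) (by
      intro t ht t' ht' h
      obtain ⟨y, hy, rfl⟩ := mem_image.1 ht
      obtain ⟨y', hy', rfl⟩ := mem_image.1 ht'
      exact hc2 _ _ ((hc1 y).trans (PI.Tp.trans h (hc1 y').symm)))
    omega
  · by_cases hy : y ∈ P.Dcl B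
    · refine ⟨y, mem_union_left _ (mem_fs.2 hy), PI.Tp.refl ?_⟩
      rw [List.length_singleton]
      omega
    · exact ⟨c y, mem_union_right _ (mem_image_of_mem c (mem_fs.2 hy)), hc1 y⟩

/-- Few pair types.  Sketch: a maximal set of pairwise inequivalent points over `B` has at
most `|Dcl B| + K^|B| ≤ 2 K^|B|` elements; for each of them, a maximal set of pairwise
inequivalent points over `insert y B` has at most `2 K^(|B|+1)` elements; every value of `F`
is the value at one of these pairs.  `(2 K^s)(2 K^(s+1)) ≤ K^(2s+3)`. -/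
theorem PI.Env.vals (hE : P.Env K S) {B : Finset V} (hB : B.card + 1 ≤ S) {F : V → V → ℝ}
    (hF : P.InvF B F) :
    (Set.range (fun p : V × V => F p.1 p.2)).ncard ≤ K ^ (2 * B.card + 3) := by
  classical
  have hm := hE.hm
  have hK := hE.hK
  obtain ⟨T, hT, hTr⟩ := CountC_reps hE (B := B) (by omega)
  have h1 : ∀ t, ∃ U : Finset V, U.card ≤ 2 * K ^ (B.card + 1) ∧
      ∀ y, ∃ u ∈ U, P.Tp (insert t B) [y] [u] := by
    intro t
    have hc : (insert t B).card ≤ B.card + 1 := card_insert_le _ _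
    obtain ⟨U, hU, hUr⟩ := CountC_reps hE (B := insert t B) (by omega)
    exact ⟨U, hU.trans (Nat.mul_le_mul_left 2 (Nat.pow_le_pow_right (by omega) hc)), hUr⟩
  choose U hU hUr using h1
  have hsub : Set.range (fun p : V × V => F p.1 p.2) ⊆
      (↑(T.biUnion fun t => (U t).image (F t)) : Set ℝ) := by
    rintro _ ⟨⟨y, z⟩, rfl⟩
    obtain ⟨t, ht, hyt⟩ := hTr y
    obtain ⟨z', hz'⟩ := hyt.ext1 (by rw [List.length_singleton]; omega) z
    obtain ⟨u, hu, hzu⟩ := hUr t z'
    have e1 : P.Tp B [y, z] [t, z'] := by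
      refine PI.Tp.mono hz' (by simp) ?_
      intro a b hab
      simp only [mem_pr, List.zip_cons_cons, List.zip_nil_right, List.mem_cons,
        List.not_mem_nil, Prod.mk.injEq, or_false] at hab ⊢
      tauto
    have e2 : P.Tp B [t, z'] [t, u] := by
      refine PI.Tp.mono hzu (by simp) ?_
      intro a b hab
      simp only [mem_pr, List.zip_cons_cons, List.zip_nil_right, List.mem_cons,
        List.not_mem_nil, Prod.mk.injEq, or_false, mem_insert] at hab ⊢
      rcases hab with h | ⟨h, h'⟩ | h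
      · exact Or.inl ⟨h.1, Or.inr h.2⟩
      · exact Or.inl ⟨h.trans h'.symm, Or.inl h⟩
      · exact Or.inr h
    rw [mem_coe, mem_biUnion]
    refine ⟨t, ht, mem_image.2 ⟨u, hu, ?_⟩⟩
    show F t u = F y z
    rw [hF y z t z' e1, hF t z' t u e2]
  refine (Set.ncard_le_ncard hsub (finite_toSet _)).trans ?_
  rw [Set.ncard_coe_finset]
  refine (card_biUnion_le_card_mul _ _ (2 * K ^ (B.card + 1)) fun t _ =>
    card_image_le.trans (hU t)).trans ?_
  calc T.card * (2 * K ^ (B.card + 1)) ≤ (2 * K ^ B.card) * (2 * K ^ (B.card + 1)) :=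
        Nat.mul_le_mul_right _ hT
    _ = 4 * K ^ (2 * B.card + 1) := by ring
    _ ≤ K ^ 2 * K ^ (2 * B.card + 1) := Nat.mul_le_mul_right _ (by nlinarith)
    _ = K ^ (2 * B.card + 3) := by ring

end MS216
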