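import Pool.Agent.H.MP_216555_lc.CountA
import Pool.Agent.H.MP_216555_lc.CountB
import Pool.Agent.H.MP_216555_lc.CountC
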