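import Pool.Agent.H.MP_216555_lc.BasicB

/-!
# Consequences of `Env`, part A (no further largeness needed: `Env.big : K^(4S+8) ≤ |V|`)
-/

set_option linter.unusedSectionVars false

namespace MS216

open Finset

variable {V : Type} [Fintype V] [DecidableEq V] {m : ℕ} {P : PI V m} {K S : ℕ}

private theorem CountA_big (hE : P.Env K S) {n : ℕ} (hn : n ≤ 4 * S + 7)
    (h : Fintype.card V ≤ K ^ n) : False := by
  have h1 : K ^ n < K ^ (4 * S + 8) :=
    Nat.pow_lt_pow_right (lt_of_lt_of_le one_lt_two hE.hK) (by omega)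
  exact absurd (hE.big.trans h) (not_le.2 h1)

/-- Few big classes: they are disjoint and each has at least `|V| / K^|B|` points. -/
theorem PI.Env.few (hE : P.Env K S) {B : Finset V} (hB : B.card ≤ S) {e : V → V → Prop}
    (he : P.InvEq B e) (T : Finset V) (hT : ∀ t ∈ T, ∃ z, z ≠ t ∧ e t z)
    (hd : ∀ t ∈ T, ∀ t' ∈ T, e t t' → t = t') : T.card ≤ K ^ B.card := by
  have hV : 0 < Fintype.card V :=
    lt_of_lt_of_le (pow_pos (lt_of_lt_of_le two_pos hE.hK) _) hE.big
  have h1 : ∑ t ∈ T, (fs (e t)).card ≤ Fintype.card V := by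
    rw [← Finset.card_biUnion]
    · exact Finset.card_le_univ _
    · intro t ht t' ht' hne
      refine Finset.disjoint_left.2 ?_
      intro x hx hx'
      rw [mem_fs] at hx hx'
      exact hne (hd t ht t' ht' (he.equiv.trans hx (he.equiv.symm hx')))
  have h2 : T.card * Fintype.card V ≤ ∑ t ∈ T, K ^ B.card * (fs (e t)).card := by
    rw [← smul_eq_mul]
    refine Finset.card_nsmul_le_sum _ _ _ fun t ht => ?_
    obtain ⟨z, hz, hz'⟩ := hT t ht
    exact hE.large B hB e he t z hz hz'
  rw [← Finset.mul_sum] at h2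
  exact Nat.le_of_mul_le_mul_right (h2.trans (Nat.mul_le_mul_left _ h1)) hV

/-- Pigeonhole.  Sketch: the orbit `O` of `y` over `B'` has `≥ |V|/K^|B'|` points
(`Env.large` for `invEq_orbit`), none of its points is alone in its `e`-class
(`InvEq.nonid`), so if all points of `O` were pairwise `e`-inequivalent, `few` would give
`|O| ≤ K^|B|`, contradicting `Env.big`.  So there are `x ≠ x'` in `O` with `e x x'`, hence
`x` is not alone in the `InvEq B'` relation `e ∧ Tp B'`, so `y` is not alone. -/
theorem PI.Env.pigeon (hE : P.Env K S) {B B' : Finset V} (hBB : B ⊆ B') (hB : B'.card ≤ S)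
    {e : V → V → Prop} (he : P.InvEq B e) {y z : V} (hy : y ∉ P.Dcl B') (hz : z ≠ y)
    (hez : e y z) : ∃ z', z' ≠ y ∧ e y z' ∧ P.Tp B' [y] [z'] := by
  have hm' : B'.card + 6 ≤ m := by
    have := hE.hm
    omega
  have hBS : B.card ≤ S := (Finset.card_le_card hBB).trans hB
  have hm : B.card + 6 ≤ m := by
    have := hE.hm
    omega
  have ho := PI.invEq_orbit (P := P) hm'
  obtain ⟨O, hO⟩ : ∃ O, O = fs (fun x => P.Tp B' [y] [x]) := ⟨_, rfl⟩
  have mO : ∀ x, x ∈ O ↔ P.Tp B' [y] [x] := fun x => by rw [hO, mem_fs]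
  obtain ⟨y', hy', hyy'⟩ := PI.not_dcl.1 hy
  have h1 : Fintype.card V ≤ K ^ B'.card * O.card := by
    rw [hO]
    exact hE.large B' hB _ ho y y' hy' hyy'
  have h2 : ∃ x ∈ O, ∃ x' ∈ O, x' ≠ x ∧ e x x' := by
    by_contra hc
    push Not at hc
    have h3 := hE.few hBS he O
      (fun t ht => he.nonid hm (y := y) (by
        have h4 := (mO t).1 ht
        exact h4.mono rfl fun a b hab => by
          rw [mem_pr] at hab ⊢
          rcases hab with ⟨h5, h6⟩ | h5
          · exact Or.inl ⟨h5, hBB h6⟩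
          · exact Or.inr h5) hz hez)
      (fun t ht t' ht' htt' => by
        by_contra hne
        exact hc t ht t' ht' (fun h4 => hne h4.symm) htt')
    exact CountA_big hE (show B'.card + B.card ≤ 4 * S + 7 by omega)
      (h1.trans (by rw [pow_add]; exact Nat.mul_le_mul_left _ h3))
  obtain ⟨x, hx, x', hx', hne, hxx'⟩ := h2
  have hx1 := (mO x).1 hx
  have hx2 := (mO x').1 hx'
  obtain ⟨z', h3, h4, h5⟩ := (he.and ho hBB).nonid hm' hx1.symm hne ⟨hxx', hx1.symm.trans hx2⟩
  exact ⟨z', h3, h4, h5⟩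

/-- Exchange.  Sketch: suppose `y ∈ Dcl (insert w A)`.  Count the pairs `(y', w')` with
`Tp A [y,w] [y',w']`: for every `w'` at most one `y'`, so at most `|V|` pairs; but `y'` runs
through the orbit of `y` over `A` (`≥ |V|/K^|A|` points) and for each `y'` there are as many
`w'` as for `y`, namely the orbit of `w` over `insert y A`, `≥ |V|/K^(|A|+1)`. -/
theorem PI.Env.exch (hE : P.Env K S) {A : Finset V} (hA : A.card + 1 ≤ S) {y w : V}
    (hy : y ∉ P.Dcl A) (hw : w ∉ P.Dcl (insert y A)) : y ∉ P.Dcl (insert w A) := by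
  intro hc
  have hAS : A.card ≤ S := by omega
  have hmA : A.card + 6 ≤ m := by
    have := hE.hm
    omega
  have hiA : (insert y A).card ≤ A.card + 1 := Finset.card_insert_le _ _
  have hmI : (insert y A).card + 6 ≤ m := by
    have := hE.hm
    omega
  have hV : 0 < Fintype.card V :=
    lt_of_lt_of_le (pow_pos (lt_of_lt_of_le two_pos hE.hK) _) hE.big
  obtain ⟨y₁, hy₁, hyy₁⟩ := PI.not_dcl.1 hy
  obtain ⟨w₁, hw₁, hww₁⟩ := PI.not_dcl.1 hw
  have h1 := hE.large A hAS _ (PI.invEq_orbit hmA) y y₁ hy₁ hyy₁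
  have h2 := hE.large (insert y A) (by omega) _ (PI.invEq_orbit hmI) w w₁ hw₁ hww₁
  have h3 : fs (fun x => P.Tp (insert y A) [w] [x]) = fs (fun x => P.Tp A [y, w] [y, x]) := by
    ext x
    rw [mem_fs, mem_fs]
    constructor
    · intro h
      exact PI.Tp.mono (h) (by simp) (by intro a b hab; simp only [mem_pr, List.zip_cons_cons, List.zip_nil_right, List.mem_cons, List.not_mem_nil, Prod.mk.injEq, Finset.mem_insert, Finset.mem_union, Finset.mem_singleton, Finset.notMem_empty, or_false, and_false, false_or] at hab ⊢; grind)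
    · intro h
      exact PI.Tp.mono (h) (by simp) (by intro a b hab; simp only [mem_pr, List.zip_cons_cons, List.zip_nil_right, List.mem_cons, List.not_mem_nil, Prod.mk.injEq, Finset.mem_insert, Finset.mem_union, Finset.mem_singleton, Finset.notMem_empty, or_false, and_false, false_or] at hab ⊢; grind)
  have h4 : ∀ y', P.Tp A [y] [y'] →
      (fs (fun x => P.Tp A [y, w] [y, x])).card = (fs (fun x => P.Tp A [y, w] [y', x])).card := by
    intro y' hy'
    refine hy'.card_eq (by simp only [List.length_cons, List.length_nil]; omega) _ _ ?_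
    intro z z' hz
    have hz' : P.Tp A [y, z] [y', z'] := by exact PI.Tp.mono (hz) (by simp) (by intro a b hab; simp only [mem_pr, List.zip_cons_cons, List.zip_nil_right, List.mem_cons, List.not_mem_nil, Prod.mk.injEq, Finset.mem_insert, Finset.mem_union, Finset.mem_singleton, Finset.notMem_empty, or_false, and_false, false_or] at hab ⊢; grind)
    exact ⟨fun h => h.trans hz', fun h => h.trans hz'.symm⟩
  obtain ⟨X, hX⟩ : ∃ X, X = prs (fs fun y' => P.Tp A [y] [y']) univ
      (fun y' w' => P.Tp A [y, w] [y', w']) := ⟨_, rfl⟩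
  have h5 : X.card ≤ Fintype.card V := by
    have h6 : Set.InjOn (fun p : V × V => p.2) (X : Set (V × V)) := by
      rintro ⟨a, b⟩ hp ⟨a', b'⟩ hq hpq
      rw [Finset.mem_coe, hX, mem_prs] at hp hq
      simp only at hpq
      subst hpq
      have h7 : P.Tp A [w, y] [b, a] := by
        have h8 := hp.2.2
        exact PI.Tp.mono (h8) (by simp) (by intro a b hab; simp only [mem_pr, List.zip_cons_cons, List.zip_nil_right, List.mem_cons, List.not_mem_nil, Prod.mk.injEq, Finset.mem_insert, Finset.mem_union, Finset.mem_singleton, Finset.notMem_empty, or_false, and_false, false_or] at hab ⊢; grind)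
      have h9 := (h7.dcl_insert hmA).1 hc
      have h10 : P.Tp A [a, b] [a', b] := hp.2.2.symm.trans hq.2.2
      have h11 : P.Tp (insert b A) [a] [a'] := by exact PI.Tp.mono (h10) (by simp) (by intro a b hab; simp only [mem_pr, List.zip_cons_cons, List.zip_nil_right, List.mem_cons, List.not_mem_nil, Prod.mk.injEq, Finset.mem_insert, Finset.mem_union, Finset.mem_singleton, Finset.notMem_empty, or_false, and_false, false_or] at hab ⊢; grind)
      have h12 := h9 a' h11
      rw [h12]
    calc X.card = (X.image fun p => p.2).card := (Finset.card_image_of_injOn h6).symm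
      _ ≤ Fintype.card V := Finset.card_le_univ _
  have h6 : (fs fun y' => P.Tp A [y] [y']).card * (fs (fun x => P.Tp A [y, w] [y, x])).card
      ≤ X.card := by
    have h7 : (fs fun y' => P.Tp A [y] [y']).card * (fs (fun x => P.Tp A [y, w] [y, x])).card =
        ((fs fun y' => P.Tp A [y] [y']).sigma
          (fun y' => fs (fun x => P.Tp A [y, w] [y', x]))).card := by
      rw [Finset.card_sigma, ← smul_eq_mul, ← Finset.sum_const]
      refine Finset.sum_congr rfl fun y' hy' => ?_
      rw [mem_fs] at hy'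
      exact h4 y' hy'
    rw [h7]
    refine Finset.card_le_card_of_injOn (fun p => (p.1, p.2)) ?_ ?_
    · intro p hp
      rw [Finset.mem_coe, Finset.mem_sigma, mem_fs, mem_fs] at hp
      rw [Finset.mem_coe, hX, mem_prs, mem_fs]
      exact ⟨hp.1, Finset.mem_univ _, hp.2⟩
    · rintro ⟨a, b⟩ _ ⟨a', b'⟩ _ hpq
      simp only [Prod.mk.injEq] at hpq
      rw [hpq.1, hpq.2]
  rw [h3] at h2
  have h7 : Fintype.card V * Fintype.card V ≤
      (K ^ A.card * K ^ (insert y A).card) * Fintype.card V := by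
    calc Fintype.card V * Fintype.card V
        ≤ (K ^ A.card * (fs fun y' => P.Tp A [y] [y']).card) *
          (K ^ (insert y A).card * (fs (fun x => P.Tp A [y, w] [y, x])).card) :=
          Nat.mul_le_mul h1 h2
      _ = (K ^ A.card * K ^ (insert y A).card) *
          ((fs fun y' => P.Tp A [y] [y']).card *
            (fs (fun x => P.Tp A [y, w] [y, x])).card) := by ring
      _ ≤ _ := Nat.mul_le_mul_left _ (h6.trans h5)
  have h8 := Nat.le_of_mul_le_mul_right h7 hV
  rw [← pow_add] at h8
  exact CountA_big hE (by omega) h8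

theorem PI.Env.ind2_symm (hE : P.Env K S) {B : Finset V} (hB : B.card + 1 ≤ S) {w y : V}
    (h : P.Ind2 B w y) : P.Ind2 B y w := by
  exact ⟨fun hc => h.2 (PI.dcl_mono (Finset.subset_insert _ _) hc), hE.exch hB h.1 h.2⟩

/-- `exch` over `insert w B`. -/
theorem PI.Env.ind3_swap (hE : P.Env K S) {B : Finset V} (hB : B.card + 2 ≤ S) {w y z : V}
    (h : P.Ind3 B w y z) : P.Ind3 B w z y := by
  have h1 : (insert w B).card + 1 ≤ S := by
    have := Finset.card_insert_le w B
    omega
  exact ⟨h.1, fun hc => h.2.2 (PI.dcl_mono (Finset.subset_insert _ _) hc),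
    hE.exch h1 h.2.1 h.2.2⟩

/-- `exch` over `B` and `Finset.insert_comm`. -/
theorem PI.Env.ind3_swap' (hE : P.Env K S) {B : Finset V} (hB : B.card + 2 ≤ S) {w y z : V}
    (h : P.Ind3 B w y z) : P.Ind3 B y w z := by
  have h1 := hE.ind2_symm (by omega) (⟨h.1, h.2.1⟩ : P.Ind2 B w y)
  refine ⟨h1.1, h1.2, ?_⟩
  rw [Finset.insert_comm]
  exact h.2.2

theorem PI.Env.ind3_rot (hE : P.Env K S) {B : Finset V} (hB : B.card + 2 ≤ S) {w y z : V}
    (h : P.Ind3 B w y z) : P.Ind3 B y z w := by
  exact hE.ind3_swap hB (hE.ind3_swap' hB h)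

end MS216
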