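import Mathlib

/-!
# Systems of partial isomorphisms (combinatorial core of m-schemes)

`PI V m`: a family of finite partial injections of `V` with at most `m` pairs, closed under
restriction, inverse and composition, containing the identities, with the bijective
one-point extension property.  `P.Tp B l l'` says: the partial map that is the identity on `B`
and sends the list `l` to the list `l'` (entrywise) belongs to the family.
-/

set_option linter.unusedSectionVars false

namespace MS216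

open Finset

/-- A family of partial isomorphisms with at most `m` pairs. -/
structure PI (V : Type) [Fintype V] [DecidableEq V] (m : ℕ) where
  I : Set (Finset (V × V))
  inj : ∀ f ∈ I, ∀ p ∈ f, ∀ q ∈ f, (p.1 = q.1 ↔ p.2 = q.2)
  idm : ∀ A : Finset V, A.card ≤ m → A.image (fun a => (a, a)) ∈ I
  sub : ∀ f ∈ I, ∀ g, g ⊆ f → g ∈ I
  inv : ∀ f ∈ I, f.image Prod.swap ∈ I
  comp : ∀ f ∈ I, ∀ g ∈ I, ∀ h : Finset (V × V),
    (∀ p ∈ h, ∃ b, (p.1, b) ∈ f ∧ (b, p.2) ∈ g) → h ∈ I
  ext : ∀ f ∈ I, f.card < m → ∃ β : Equiv.Perm V, ∀ w, insert (w, β w) f ∈ I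

variable {V : Type} [Fintype V] [DecidableEq V] {m : ℕ}

/-- The set of pairs: identity on `B`, and `l` to `l'` entrywise. -/
def pr (B : Finset V) (l l' : List V) : Finset (V × V) :=
  B.image (fun a => (a, a)) ∪ (l.zip l').toFinset

theorem mem_pr {B : Finset V} {l l' : List V} {a b : V} :
    (a, b) ∈ pr B l l' ↔ (a = b ∧ a ∈ B) ∨ (a, b) ∈ l.zip l' := by
  unfold pr
  simp only [Finset.mem_union, Finset.mem_image, Prod.mk.injEq, List.mem_toFinset]
  constructor
  · rintro (⟨c, hc, rfl, rfl⟩ | h)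
    · exact Or.inl ⟨rfl, hc⟩
    · exact Or.inr h
  · rintro (⟨rfl, h⟩ | h)
    · exact Or.inl ⟨a, h, rfl, rfl⟩
    · exact Or.inr h

/-- `l` and `l'` have the same type over `B`. -/
def PI.Tp (P : PI V m) (B : Finset V) (l l' : List V) : Prop :=
  l.length = l'.length ∧ pr B l l' ∈ P.I

theorem pr_card (B : Finset V) (l l' : List V) : (pr B l l').card ≤ B.card + l.length := by
  unfold pr
  refine (Finset.card_union_le _ _).trans ?_
  refine Nat.add_le_add Finset.card_image_le ?_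
  refine (List.toFinset_card_le _).trans ?_
  simp

namespace PI

variable (P : PI V m)

theorem Tp.len {P : PI V m} {B : Finset V} {l l' : List V} (h : P.Tp B l l') :
    l.length = l'.length := h.1

/-- The general monotonicity lemma. -/
theorem Tp.mono {P : PI V m} {B B' : Finset V} {l l' k k' : List V} (h : P.Tp B l l')
    (hl : k.length = k'.length)
    (hs : ∀ a b, (a, b) ∈ pr B' k k' → (a, b) ∈ pr B l l') : P.Tp B' k k' :=
  ⟨hl, P.sub _ h.2 _ (fun p hp => hs p.1 p.2 hp)⟩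

theorem Tp.refl {P : PI V m} {B : Finset V} {l : List V} (h : B.card + l.length ≤ m) :
    P.Tp B l l := by
  refine ⟨rfl, ?_⟩
  have : pr B l l = (B ∪ l.toFinset).image (fun a => (a, a)) := by
    ext ⟨a, b⟩
    rw [mem_pr]
    simp only [Finset.mem_image, Finset.mem_union, List.mem_toFinset, Prod.mk.injEq]
    constructor
    · rintro (⟨rfl, h⟩ | h)
      · exact ⟨a, Or.inl h, rfl, rfl⟩
      · have : a = b := by
          rw [List.mem_iff_getElem] at h
          obtain ⟨i, hi, hh⟩ := h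
          simp only [List.getElem_zip, Prod.mk.injEq] at hh
          rw [← hh.1, ← hh.2]
        subst this
        exact ⟨a, Or.inr (List.of_mem_zip h).1, rfl, rfl⟩
    · rintro ⟨c, h, rfl, rfl⟩
      rcases h with h | h
      · exact Or.inl ⟨rfl, h⟩
      · refine Or.inr ?_
        rw [List.mem_iff_getElem] at h ⊢
        obtain ⟨i, hi, hh⟩ := h
        exact ⟨i, by simpa using hi, by simp [hh]⟩
  rw [this]
  apply P.idm
  refine (Finset.card_union_le _ _).trans ?_
  have := List.toFinset_card_le l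
  omega

theorem Tp.symm {P : PI V m} {B : Finset V} {l l' : List V} (h : P.Tp B l l') :
    P.Tp B l' l := by
  refine ⟨h.1.symm, ?_⟩
  have := P.inv _ h.2
  refine P.sub _ this _ ?_
  rintro ⟨a, b⟩ hab
  rw [mem_pr] at hab
  simp only [Finset.mem_image, Prod.exists, Prod.swap_prod_mk, Prod.mk.injEq]
  refine ⟨b, a, ?_, rfl, rfl⟩
  rw [mem_pr]
  rcases hab with ⟨rfl, h⟩ | h
  · exact Or.inl ⟨rfl, h⟩
  · refine Or.inr ?_
    rw [List.mem_iff_getElem] at h ⊢
    obtain ⟨i, hi, hh⟩ := h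
    refine ⟨i, by simpa [and_comm] using hi, ?_⟩
    simp only [List.getElem_zip, Prod.mk.injEq] at hh ⊢
    exact ⟨hh.2, hh.1⟩

theorem Tp.trans {P : PI V m} {B : Finset V} {l l' l'' : List V} (h : P.Tp B l l')
    (h' : P.Tp B l' l'') : P.Tp B l l'' := by
  refine ⟨h.1.trans h'.1, ?_⟩
  refine P.comp _ h.2 _ h'.2 _ ?_
  rintro ⟨a, c⟩ hac
  rw [mem_pr] at hac
  rcases hac with ⟨rfl, hc⟩ | hc
  · exact ⟨a, mem_pr.2 (Or.inl ⟨rfl, hc⟩), mem_pr.2 (Or.inl ⟨rfl, hc⟩)⟩
  · rw [List.mem_iff_getElem] at hc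
    obtain ⟨i, hi, hh⟩ := hc
    simp only [List.getElem_zip, Prod.mk.injEq] at hh
    have h1 := h.1
    have hi' : i < l.length ∧ i < l''.length := by simpa using hi
    refine ⟨l'[i]'(by omega), mem_pr.2 (Or.inr ?_), mem_pr.2 (Or.inr ?_)⟩
    · rw [List.mem_iff_getElem]
      exact ⟨i, by simp; omega, by simp [hh.1]⟩
    · rw [List.mem_iff_getElem]
      exact ⟨i, by simp; omega, by simp [hh.2]⟩

/-- The bijective one-point extension. -/
theorem Tp.ext {P : PI V m} {B : Finset V} {l l' : List V} (h : P.Tp B l l')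
    (hm : B.card + l.length < m) :
    ∃ β : Equiv.Perm V, ∀ w, P.Tp B (w :: l) (β w :: l') := by
  obtain ⟨β, hβ⟩ := P.ext _ h.2 (lt_of_le_of_lt (pr_card _ _ _) hm)
  refine ⟨β, fun w => ⟨by simp [h.1], ?_⟩⟩
  refine P.sub _ (hβ w) _ ?_
  rintro ⟨a, b⟩ hab
  rw [mem_pr] at hab
  simp only [List.zip_cons_cons, List.mem_cons, Prod.mk.injEq] at hab
  rw [Finset.mem_insert, mem_pr]
  simp only [Prod.mk.injEq]
  tauto

theorem Tp.ext1 {P : PI V m} {B : Finset V} {l l' : List V} (h : P.Tp B l l')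
    (hm : B.card + l.length < m) (w : V) : ∃ w', P.Tp B (w :: l) (w' :: l') := by
  obtain ⟨β, hβ⟩ := h.ext hm
  exact ⟨β w, hβ w⟩

theorem Tp.ext2 {P : PI V m} {B : Finset V} {l l' : List V} (h : P.Tp B l l')
    (hm : B.card + l.length < m) (w' : V) : ∃ w, P.Tp B (w :: l) (w' :: l') := by
  obtain ⟨β, hβ⟩ := h.ext hm
  exact ⟨β.symm w', by simpa using hβ (β.symm w')⟩

/-- `Tp` respects equality. -/
theorem Tp.eq_iff {P : PI V m} {B : Finset V} {l l' : List V} (h : P.Tp B l l') {a b c d : V}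
    (h1 : (a, b) ∈ pr B l l') (h2 : (c, d) ∈ pr B l l') : a = c ↔ b = d :=
  P.inj _ h.2 _ h1 _ h2

end PI

/-! How to use `Tp.mono`: to get `P.Tp B' k k'` from `h : P.Tp B l l'` when every pair of the goal is
a pair of `h` (moving points between base and list, permuting, dropping, smaller base):
`h.mono rfl (by intro a b; simp [mem_pr]; grind)`. -/

/-! ## Definitions -/

open Classical in
/-- `{x | Q x}` as a finset. -/
noncomputable def fs (Q : V → Prop) : Finset V := univ.filter Q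

open Classical in
/-- pairs of `S × T` in the relation `R`. -/
noncomputable def prs (S T : Finset V) (R : V → V → Prop) : Finset (V × V) :=
  (S ×ˢ T).filter (fun p => R p.1 p.2)

open Classical in
/-- triples of `S × T × U` in the relation `R`. -/
noncomputable def trs (S T U : Finset V) (R : V → V → V → Prop) : Finset (V × V × V) :=
  (S ×ˢ T ×ˢ U).filter (fun p => R p.1 p.2.1 p.2.2)

@[simp] theorem mem_fs {Q : V → Prop} {x : V} : x ∈ fs Q ↔ Q x := by simp [fs]

@[simp] theorem mem_prs {S T : Finset V} {R : V → V → Prop} {a b : V} :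
    (a, b) ∈ prs S T R ↔ a ∈ S ∧ b ∈ T ∧ R a b := by simp [prs, and_assoc]

@[simp] theorem mem_trs {S T U : Finset V} {R : V → V → V → Prop} {a b c : V} :
    (a, b, c) ∈ trs S T U R ↔ a ∈ S ∧ b ∈ T ∧ c ∈ U ∧ R a b c := by simp [trs, and_assoc]

variable (P : PI V m)

/-- Definable closure. -/
def PI.Dcl (B : Finset V) : Set V := {y | ∀ y', P.Tp B [y] [y'] → y' = y}

/-- Invariant equivalence relations over `B` refining the orbits. -/
structure PI.InvEq (B : Finset V) (e : V → V → Prop) : Prop where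
  equiv : Equivalence e
  tp : ∀ y z, e y z → P.Tp B [y] [z]
  inv : ∀ y z y' z', P.Tp B [y, z] [y', z'] → e y z → e y' z'

/-- Strong classes: `z` is in the strong class of `y` over `B`. -/
def PI.Sim (B : Finset V) (y z : V) : Prop :=
  P.Tp B [y] [z] ∧ ∀ e, P.InvEq B e → (∃ z', z' ≠ y ∧ e y z') → e y z

/-- Independent pairs and triples over `B`. -/
def PI.Ind2 (B : Finset V) (w y : V) : Prop := w ∉ P.Dcl B ∧ y ∉ P.Dcl (insert w B)

def PI.Ind3 (B : Finset V) (w y z : V) : Prop :=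
  w ∉ P.Dcl B ∧ y ∉ P.Dcl (insert w B) ∧ z ∉ P.Dcl (insert y (insert w B))

/-- Invariant real functions of two variables. -/
def PI.InvF (B : Finset V) (F : V → V → ℝ) : Prop :=
  ∀ y z y' z', P.Tp B [y, z] [y', z'] → F y z = F y' z'

/-- There are `k` pairwise inequivalent independent colors between the strong classes of `w₀`
and `y₀` over `B`. -/
def PI.NC (B : Finset V) (w₀ y₀ : V) (k : ℕ) : Prop :=
  ∃ c : Fin k → V × V,
    (∀ i, P.Sim B w₀ (c i).1 ∧ P.Sim B y₀ (c i).2 ∧ P.Ind2 B (c i).1 (c i).2) ∧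
    ∀ i j, i ≠ j → ¬ P.Tp B [(c i).1, (c i).2] [(c j).1, (c j).2]

/-- Stable pairs of strong classes. -/
def PI.Stab (B : Finset V) (w₀ y₀ : V) : Prop :=
  ∀ v, (P.Sim B w₀ v ∨ P.Sim B y₀ v) → ∀ w w' y y', P.Sim B w₀ w → P.Sim B w₀ w' →
    P.Sim B y₀ y → P.Sim B y₀ y' → P.Sim (insert v B) w w' → P.Sim (insert v B) y y' →
    P.Tp B [w, y] [w', y'] → P.Ind2 (insert v B) w y → P.Ind2 (insert v B) w' y' →
    P.Tp (insert v B) [w, y] [w', y']

/-- Diagonal stability of the strong class of `x₀` over `B₀`, up to `t` further points. -/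
def PI.Diag (B₀ : Finset V) (x₀ : V) (t : ℕ) : Prop :=
  ∀ B, B₀ ⊆ B → (∀ x ∈ B, x ∈ B₀ ∨ P.Sim B₀ x₀ x) → B.card ≤ B₀.card + t →
    ∀ x, P.Sim B₀ x₀ x → x ∉ P.Dcl B → ∀ y z y' z', P.Sim B x y → P.Sim B x z →
      P.Sim B x y' → P.Sim B x z' → P.Ind2 B y z → P.Ind2 B y' z' →
      P.Tp B₀ [y, z] [y', z'] → P.Tp B [y, z] [y', z']

/-- A set of representatives (step 7). -/
structure PI.RepSet (K : ℕ) (b : Finset V) (w₀ y₀ : V) (R : Finset V) : Prop where
  ne : R.Nonempty
  card : R.card ≤ K ^ (b.card + 1)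
  sub : ∀ r ∈ R, P.Sim b w₀ r
  nd : y₀ ∉ P.Dcl (b ∪ R)
  rep : ∀ w, P.Sim b w₀ w → w ∉ P.Dcl (insert y₀ b) → ∃ r ∈ R, P.Sim (insert y₀ b) w r

/-- The standing hypotheses. -/
structure PI.Env (K S : ℕ) : Prop where
  hK : 2 ≤ K
  hm : S + 6 ≤ m
  hom : ∀ y z, P.Tp ∅ [y] [z]
  mfree : ∀ B : Finset V, B.card ≤ S → ∀ y z, y ≠ z → P.Tp B [y] [z] →
    ∃ z', z' ≠ z ∧ P.Tp B [y, z] [y, z']
  anti : ∀ B : Finset V, B.card ≤ S → ∀ w y z, w ≠ y → ¬ P.Tp B [w, y, z] [y, z, w]
  large : ∀ B : Finset V, B.card ≤ S → ∀ e, P.InvEq B e → ∀ y z, z ≠ y → e y z →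
    Fintype.card V ≤ K ^ B.card * (fs (e y)).card
  big : K ^ (4 * S + 8) ≤ Fintype.card V

/-- Length of the path in step 4. -/
def Lp (K s : ℕ) : ℕ := K * (K * s + 1)

/-- Budget of extra points in diagonal stability. -/
def phi (K s : ℕ) : ℕ := K + K ^ (s + K + 1) + 1

/-- Bound for the base of the diagonally stable class. -/
def sq (K : ℕ) : ℕ → ℕ
  | 0 => 0
  | j + 1 => sq K j + phi K (sq K j)

end MS216
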