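import Mathlib

/-!
# Few rows (pure linear algebra over ℝ)
-/

namespace MS216

open Matrix Finset

/-- **Few rows**: a real matrix of rank `R` with at most `ρ` different entries has at most `ρ ^ R`
different rows. -/
private theorem few_rows_aux {V : Type} [Fintype V] (E : Matrix V V ℝ) :
    (univ.image fun i => E i).card ≤
      (univ.image fun p : V × V => E p.1 p.2).card ^ E.rank := by
  classical
  obtain ⟨f, hf, hspan, -⟩ := Submodule.exists_fun_fin_finrank_span_eq ℝ (Set.range E.col)
  choose c hc using hf
  set vals := univ.image fun p : V × V => E p.1 p.2 with hvals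
  -- a row is determined by its entries in the columns `c k`
  have hdet : ∀ i i' : V, (∀ k, E i (c k) = E i' (c k)) → E i = E i' := by
    intro i i' h
    set φ : (V → ℝ) →ₗ[ℝ] ℝ :=
      (LinearMap.proj i : (V → ℝ) →ₗ[ℝ] ℝ) - (LinearMap.proj i' : (V → ℝ) →ₗ[ℝ] ℝ) with hφ
    have h1 : Submodule.span ℝ (Set.range f) ≤ LinearMap.ker φ := by
      rw [Submodule.span_le]
      rintro _ ⟨k, rfl⟩
      rw [SetLike.mem_coe, LinearMap.mem_ker, hφ, LinearMap.sub_apply, LinearMap.proj_apply,
        LinearMap.proj_apply, ← hc k, sub_eq_zero]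
      exact h k
    rw [hspan] at h1
    funext j
    have h2 : E.col j ∈ LinearMap.ker φ := h1 (Submodule.subset_span ⟨j, rfl⟩)
    rw [LinearMap.mem_ker, hφ, LinearMap.sub_apply, LinearMap.proj_apply, LinearMap.proj_apply,
      sub_eq_zero] at h2
    exact h2
  rw [E.rank_eq_finrank_span_cols]
  calc (univ.image fun i => E i).card
      ≤ (Fintype.piFinset fun _ : Fin (Module.finrank ℝ
          (Submodule.span ℝ (Set.range E.col))) => vals).card := by
        apply card_le_card_of_injOn (fun v k => v (c k))
        · intro v hv
          obtain ⟨i, -, rfl⟩ := mem_image.mp (mem_coe.mp hv)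
          rw [mem_coe, Fintype.mem_piFinset]
          intro k
          exact mem_image.mpr ⟨(i, c k), mem_univ _, rfl⟩
        · intro v hv v' hv' heq
          obtain ⟨i, -, rfl⟩ := mem_image.mp (mem_coe.mp hv)
          obtain ⟨i', -, rfl⟩ := mem_image.mp (mem_coe.mp hv')
          exact hdet i i' fun k => congrFun heq k
    _ = _ := by
        rw [Fintype.card_piFinset, prod_const, card_univ, Fintype.card_fin]

/-- A matrix of rank at most `R` with at most `ρ` different entries has at most `ρ ^ R` different
rows.  A row is determined by its entries in the columns of a basis of the column space. -/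
theorem few_rows {V : Type} [Fintype V] [DecidableEq V] (E : Matrix V V ℝ) (ρ R : ℕ)
    (hρ : 1 ≤ ρ) (hr : E.rank ≤ R)
    (hv : (Set.range (fun p : V × V => E p.1 p.2)).ncard ≤ ρ) :
    (Set.range (fun i : V => fun j : V => E i j)).ncard ≤ ρ ^ R := by
  classical
  have h1 : (univ.image fun i => E i).card = (Set.range (fun i : V => fun j : V => E i j)).ncard := by
    rw [← Set.ncard_coe_finset]
    congr 1
    ext v
    simp
  have h2 : (univ.image fun p : V × V => E p.1 p.2).card =
      (Set.range (fun p : V × V => E p.1 p.2)).ncard := by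
    rw [← Set.ncard_coe_finset]
    congr 1
    ext v
    simp
  rw [← h1]
  calc (univ.image fun i => E i).card ≤ _ := few_rows_aux E
    _ ≤ ρ ^ E.rank := Nat.pow_le_pow_left (h2 ▸ hv) _
    _ ≤ ρ ^ R := Nat.pow_le_pow_right hρ hr

end MS216
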