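import Pool.Agent.H.MP_216555_lc.PairInd

/-!
# Step F, part 2: the second type lives on the same cells
-/

set_option linter.unusedSectionVars false

namespace MS216

open Finset

/-- dropping and permuting points of the lists -/
private theorem second_sub {V : Type} [Fintype V] [DecidableEq V] {m : ℕ} {P : PI V m}
    {B : Finset V} {l l' k k' : List V} (h : P.Tp B l l') (hl : k.length = k'.length)
    (hs : ∀ p ∈ k.zip k', p ∈ l.zip l') : P.Tp B k k' :=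
  h.mono hl fun a b hab => by
    rw [mem_pr] at hab ⊢
    rcases hab with hab | hab
    · exact Or.inl hab
    · exact Or.inr (hs _ hab)

/-- moving a point from the base to the lists -/
private theorem second_out {V : Type} [Fintype V] [DecidableEq V] {m : ℕ} {P : PI V m}
    {B : Finset V} {l l' : List V} {v : V} (h : P.Tp (insert v B) l l') :
    P.Tp B (v :: l) (v :: l') :=
  h.mono (by simp [h.len]) fun a b hab => by
    rw [mem_pr] at hab ⊢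
    rw [List.zip_cons_cons, List.mem_cons, Prod.mk.injEq] at hab
    rw [mem_insert]
    rcases hab with ⟨rfl, hab⟩ | ⟨rfl, rfl⟩ | hab
    · exact Or.inl ⟨rfl, Or.inr hab⟩
    · exact Or.inl ⟨rfl, Or.inl rfl⟩
    · exact Or.inr hab

/-- `B ⊆ b ⊆ d`.  Sketch: extend `Tp B [v,w,y] [v₁,w₁,y₁]` by `w' ↦ w''`, `y' ↦ y''` (`ext1`
twice): `Sim (insert v₁ B) w₁ w''`, `Sim (insert v₁ B) y₁ y''` (`Tp.sim_insert`),
`Ind2 (insert v₁ B) w'' y''` (`dcl_insert`, `dcl_insert2`), `Tp B [v,w',y'] [v₁,w'',y'']`.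
The cells lie in the strong classes of `w''`, `y''` over `insert v₁ B` (`sim_mono` from
`insert v₁ b`; `w₁, y₁ ∉ Dcl (insert v₁ b)`).  `pair_ind` over `insert v₁ B ⊆ insert v₁ d`. -/
theorem second (K S : ℕ) (δ : ℝ) (hδ : 0 < δ) : ∃ n₀ : ℕ,
    ∀ (V : Type) [Fintype V] [DecidableEq V]
    (m : ℕ) (P : PI V m), P.Env K S → n₀ ≤ Fintype.card V →
    ∀ B b d : Finset V, B ⊆ b → b ⊆ d → d.card + 4 ≤ S →
    ∀ v w y w' y', P.Sim (insert v B) w w' → P.Sim (insert v B) y y' →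
      P.Ind2 (insert v B) w' y' → ∀ v₁ w₁ y₁, P.Tp B [v, w, y] [v₁, w₁, y₁] →
      P.Ind2 (insert v₁ d) w₁ y₁ → ∀ Y₁ Y₂ : Finset V,
      (∀ a ∈ Y₁, P.Sim (insert v₁ b) w₁ a) → (∀ a ∈ Y₂, P.Sim (insert v₁ b) y₁ a) →
      δ * Fintype.card V ≤ Y₁.card → δ * Fintype.card V ≤ Y₂.card →
      ∃ w₂ ∈ Y₁, ∃ y₂ ∈ Y₂, P.Tp B [v, w', y'] [v₁, w₂, y₂] ∧
        P.Ind2 (insert v₁ d) w₂ y₂ := by
  obtain ⟨n₀, hn₀⟩ := pair_ind K S δ hδ
  refine ⟨n₀, ?_⟩
  intro V _ _ m P hE hn B b d hBb hbd hd v w y w' y' hw hy hi v₁ w₁ y₁ hT hi₁ Y₁ Y₂ hY₁ hY₂ hc₁ hc₂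
  have hm := hE.hm
  have hBd : B.card ≤ d.card := card_le_card (hBb.trans hbd)
  have hB6 : B.card + 6 ≤ m := by omega
  have hcv : (insert v₁ d).card ≤ d.card + 1 := card_insert_le _ _
  have hcb : (insert v₁ b).card ≤ b.card + 1 := card_insert_le _ _
  have hcB : (insert v₁ B).card ≤ B.card + 1 := card_insert_le _ _
  have hbc : b.card ≤ d.card := card_le_card hbd
  have hB6' : (insert v₁ B).card + 6 ≤ m := by omega
  obtain ⟨w₂, h4⟩ := hT.ext1 (by simp; omega) w'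
  obtain ⟨y₂, h5⟩ := h4.ext1 (by simp; omega) y'
  have hw₂ : P.Sim (insert v₁ B) w₁ w₂ := by
    have h6 : P.Tp B [v, w, w'] [v₁, w₁, w₂] := second_sub h5 rfl (by simp)
    exact h6.sim_insert hB6 hw
  have hy₂ : P.Sim (insert v₁ B) y₁ y₂ := by
    have h6 : P.Tp B [v, y, y'] [v₁, y₁, y₂] := second_sub h5 rfl (by simp)
    exact h6.sim_insert hB6 hy
  have hi₂ : P.Ind2 (insert v₁ B) w₂ y₂ := by
    refine ⟨fun h => hi.1 ?_, fun h => hi.2 ?_⟩
    · have h6 : P.Tp B [v, w'] [v₁, w₂] := second_sub h5 rfl (by simp)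
      exact (h6.dcl_insert hB6).2 h
    · have h6 : P.Tp B [w', v, y'] [w₂, v₁, y₂] := second_sub h5 rfl (by simp)
      exact (h6.dcl_insert2 hB6).2 h
  have hsub : insert v₁ b ⊆ insert v₁ d := insert_subset_insert _ hbd
  have hw₁ : w₁ ∉ P.Dcl (insert v₁ b) := fun h => hi₁.1 (PI.dcl_mono hsub h)
  have hy₁ : y₁ ∉ P.Dcl (insert v₁ b) := fun h =>
    hi₁.2 (PI.dcl_mono (hsub.trans (subset_insert _ _)) h)
  have hsB : insert v₁ B ⊆ insert v₁ b := insert_subset_insert _ hBb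
  obtain ⟨a, ha, c, hc, h7, h8⟩ := hn₀ V m P hE hn (insert v₁ B) (insert v₁ d)
    (hsB.trans hsub) (by omega) w₂ y₂ hi₂ Y₁ Y₂
    (fun a ha => (hw₂.symm hB6').trans hB6' (hE.sim_mono hsB (by omega) hw₁ (hY₁ a ha)))
    (fun a ha => (hy₂.symm hB6').trans hB6' (hE.sim_mono hsB (by omega) hy₁ (hY₂ a ha)))
    hc₁ hc₂
  refine ⟨a, ha, c, hc, ?_, h8⟩
  have h9 : P.Tp B [v, w', y'] [v₁, w₂, y₂] := second_sub h5 rfl (by simp)
  have h10 : P.Tp B [v₁, w₂, y₂] [v₁, a, c] := second_out h7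
  exact h9.trans h10

end MS216
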