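import Pool.Agent.H.MP_216555_lc.NCc

/-!
# Existence of stable pairs
-/

set_option linter.unusedSectionVars false

namespace MS216

open Finset

/-- Sketch: keep a triple `(B', w₁, y₁)` with `B ⊆ B' ⊆ B ∪ [w₀]_B ∪ [y₀]_B`,
`|B'| + 1 ≤ |B| + k`, `w₁, y₁ ∉ Dcl B'`, `Sim B w₀ w₁`, `Sim B y₀ y₁`, `NC B' w₁ y₁ k`
(start: `k = 1`, `nc_one`).  By `nc_bound` (with `s + K` for `s`) `k ≤ K`.  If `Stab B' w₁ y₁` fails at
`v, w, w', y, y'`, then `nc_split` for `B' ⊆ insert v B'` gives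
`NC (insert v B') w y (k+1)`; `v` is in `[w₁]_{B'}` or `[y₁]_{B'}`, hence in `[w₀]_B` or `[y₀]_B`
(`sim_mono`).  So after at most `K` steps the pair is stable. -/
theorem stab_exists (K s S : ℕ) (hS : s + K + Lp K (s + K) + 4 ≤ S) : ∃ n₀ : ℕ,
    ∀ (V : Type) [Fintype V] [DecidableEq V]
    (m : ℕ) (P : PI V m), P.Env K S → n₀ ≤ Fintype.card V → ∀ B : Finset V,
    B.card ≤ s → ∀ w₀ y₀, w₀ ∉ P.Dcl B → y₀ ∉ P.Dcl B →
    ∃ (B' : Finset V) (w₁ y₁ : V), B ⊆ B' ∧ B'.card ≤ B.card + K ∧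
      (∀ x ∈ B', x ∈ B ∨ P.Sim B w₀ x ∨ P.Sim B y₀ x) ∧ P.Sim B w₀ w₁ ∧ P.Sim B y₀ y₁ ∧
      w₁ ∉ P.Dcl B' ∧ y₁ ∉ P.Dcl B' ∧ P.Stab B' w₁ y₁ := by
  obtain ⟨n₁, h₁⟩ := nc_bound K (s + K) S hS
  obtain ⟨n₂, h₂⟩ := nc_split K S
  refine ⟨max n₁ n₂, ?_⟩
  intro V _ _ m P hE hn B hB w₀ y₀ hw₀ hy₀
  have hmS := hE.hm
  have hBm : B.card + 6 ≤ m := by omega
  have key : ∀ k : ℕ, k ≤ K →
      (∃ (B' : Finset V) (w₁ y₁ : V), B ⊆ B' ∧ B'.card ≤ B.card + K ∧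
        (∀ x ∈ B', x ∈ B ∨ P.Sim B w₀ x ∨ P.Sim B y₀ x) ∧ P.Sim B w₀ w₁ ∧ P.Sim B y₀ y₁ ∧
        w₁ ∉ P.Dcl B' ∧ y₁ ∉ P.Dcl B' ∧ P.Stab B' w₁ y₁) ∨
      (∃ (B' : Finset V) (w₁ y₁ : V), B ⊆ B' ∧ B'.card ≤ B.card + k ∧
        (∀ x ∈ B', x ∈ B ∨ P.Sim B w₀ x ∨ P.Sim B y₀ x) ∧ P.Sim B w₀ w₁ ∧ P.Sim B y₀ y₁ ∧
        w₁ ∉ P.Dcl B' ∧ y₁ ∉ P.Dcl B' ∧ P.NC B' w₁ y₁ (k + 1)) := by
    intro k
    induction k with
    | zero =>
      intro _
      right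
      exact ⟨B, w₀, y₀, subset_rfl, by omega, fun x hx => Or.inl hx, PI.sim_refl hBm w₀,
        PI.sim_refl hBm y₀, hw₀, hy₀, hE.nc_one (by omega) hw₀ hy₀⟩
    | succ k ih =>
      intro hk
      rcases ih (by omega) with h | ⟨B', w₁, y₁, hBB, hc, hx, hw, hy, hwd, hyd, hNC⟩
      · exact Or.inl h
      by_cases hst : P.Stab B' w₁ y₁
      · exact Or.inl ⟨B', w₁, y₁, hBB, by omega, hx, hw, hy, hwd, hyd, hst⟩
      right
      unfold PI.Stab at hst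
      push Not at hst
      obtain ⟨v, hv, w, w', y, y', h3, h4, h5, h6, h7, h8, h9, h10, h11, h12⟩ := hst
      have hB'S : B'.card ≤ S := by omega
      have hcv : (insert v B').card ≤ B'.card + 1 := Finset.card_insert_le v B'
      have hvm : (insert v B').card + 6 ≤ m := by omega
      have hwv : w ∉ P.Dcl (insert v B') := h10.1
      have hyv : y ∉ P.Dcl (insert v B') := fun hh =>
        h10.2 (PI.dcl_mono (Finset.subset_insert w _) hh)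
      have hlift : ∀ {a b c : V}, P.Sim B a b → b ∉ P.Dcl B' → P.Sim B' b c → P.Sim B a c :=
        fun hab hb hbc => hab.trans hBm (hE.sim_mono hBB hB'S hb hbc)
      refine ⟨insert v B', w, y, hBB.trans (Finset.subset_insert v B'), by omega, ?_,
        hlift hw hwd h3, hlift hy hyd h5, hwv, hyv, ?_⟩
      · intro x hxv
        rcases Finset.mem_insert.1 hxv with rfl | hxB
        · rcases hv with hv | hv
          · exact Or.inr (Or.inl (hlift hw hwd hv))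
          · exact Or.inr (Or.inr (hlift hy hyd hv))
        · exact hx x hxB
      · exact h₂ V m P hE (le_trans (le_max_right _ _) hn) B' (insert v B')
          (Finset.subset_insert v B') (by omega) w₁ y₁ w y hwv hyv h3 h5 (k + 1) hNC w y w' y'
          (PI.sim_refl hvm w) h7 (PI.sim_refl hvm y) h8 h10 h11 h9 h12
  rcases key K le_rfl with h | ⟨B', w₁, y₁, hBB, hc, hx, hw, hy, hwd, hyd, hNC⟩
  · exact h
  · exact absurd hNC (h₁ V m P hE (le_trans (le_max_left _ _) hn) B' (by omega) w₁ y₁ hwd hyd)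

end MS216
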