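import Pool.Agent.H.MP_216555_lc.BasicB

/-!
# Good systems and their restrictions to classes
-/

set_option linter.unusedSectionVars false

namespace MS216

open Finset

/-- Good systems: homogeneous, without matchings (of adjacent form), without 3-cycles. -/
structure PI.Good {V : Type} [Fintype V] [DecidableEq V] {m : ℕ} (P : PI V m) : Prop where
  hom : ∀ y z, P.Tp ∅ [y] [z]
  mfree : ∀ B : Finset V, B.card + 2 ≤ m → ∀ y z, y ≠ z → P.Tp B [y] [z] →
    ∃ z', z' ≠ z ∧ P.Tp B [y, z] [y, z']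
  anti : ∀ B : Finset V, ∀ w y z, w ≠ y → ¬ P.Tp B [w, y, z] [y, z, w]
  two : 2 ≤ Fintype.card V

/-- There is a good system with parameter `m` on `n` points. -/
def HasGood (m n : ℕ) : Prop :=
  ∃ (V : Type) (_ : Fintype V) (_ : DecidableEq V) (P : PI V m), P.Good ∧ Fintype.card V = n

section restrict

variable {V : Type} [Fintype V] [DecidableEq V] {m : ℕ}

/-- identity on `B` together with the image of `f` -/
private def gdUp (B C : Finset V) (f : Finset ({x // x ∈ C} × {x // x ∈ C})) :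
    Finset (V × V) :=
  B.image (fun a => (a, a)) ∪ f.image (fun p => (p.1.val, p.2.val))

private theorem gd_mem_up {B C : Finset V} {f : Finset ({x // x ∈ C} × {x // x ∈ C})} {a b : V} :
    (a, b) ∈ gdUp B C f ↔ (a = b ∧ a ∈ B) ∨ ∃ p ∈ f, p.1.val = a ∧ p.2.val = b := by
  unfold gdUp
  simp only [Finset.mem_union, Finset.mem_image, Prod.mk.injEq]
  constructor
  · rintro (⟨c, hc, rfl, rfl⟩ | ⟨p, hp, h1, h2⟩)
    · exact Or.inl ⟨rfl, hc⟩
    · exact Or.inr ⟨p, hp, h1, h2⟩
  · rintro (⟨rfl, h⟩ | ⟨p, hp, h1, h2⟩)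
    · exact Or.inl ⟨a, h, rfl, rfl⟩
    · exact Or.inr ⟨p, hp, h1, h2⟩

private theorem gd_up_card (B C : Finset V) (f : Finset ({x // x ∈ C} × {x // x ∈ C})) :
    (gdUp B C f).card ≤ B.card + f.card := by
  unfold gdUp
  exact (Finset.card_union_le _ _).trans (Nat.add_le_add Finset.card_image_le
    Finset.card_image_le)

private theorem gd_up_mono {B C : Finset V} {f g : Finset ({x // x ∈ C} × {x // x ∈ C})}
    (h : g ⊆ f) : gdUp B C g ⊆ gdUp B C f := by
  rintro ⟨a, b⟩ hab
  rw [gd_mem_up] at hab ⊢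
  rcases hab with h1 | ⟨p, hp, h1⟩
  · exact Or.inl h1
  · exact Or.inr ⟨p, h hp, h1⟩

private theorem gd_up_idm (P : PI V m) {B C : Finset V} {A : Finset {x // x ∈ C}}
    (hA : B.card + A.card ≤ m) : gdUp B C (A.image (fun a => (a, a))) ∈ P.I := by
  refine P.sub _ (P.idm (B ∪ A.image Subtype.val) ?_) _ ?_
  · exact ((Finset.card_union_le _ _).trans (Nat.add_le_add_left Finset.card_image_le _)).trans hA
  · rintro ⟨a, b⟩ hab
    rw [gd_mem_up] at hab
    rw [Finset.mem_image]
    rcases hab with ⟨rfl, h⟩ | ⟨p, hp, h1, h2⟩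
    · exact ⟨a, Finset.mem_union_left _ h, rfl⟩
    · rw [Finset.mem_image] at hp
      obtain ⟨c, hc, rfl⟩ := hp
      refine ⟨c.val, Finset.mem_union_right _ (Finset.mem_image_of_mem _ hc), ?_⟩
      rw [← h1, ← h2]

/-- the restriction of a system to a class `C` of an invariant equivalence relation over `B` -/
private def gdSub (P : PI V m) (B : Finset V) (hm : B.card + 6 ≤ m) (e : V → V → Prop)
    (he : P.InvEq B e) (C : Finset V) (y : V) (hC : ∀ x, x ∈ C ↔ e y x) :
    PI {x // x ∈ C} (m - B.card) where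
  I := {f | gdUp B C f ∈ P.I}
  inj := by
    intro f hf p hp q hq
    have h := P.inj _ hf (p.1.val, p.2.val) (gd_mem_up.2 (Or.inr ⟨p, hp, rfl, rfl⟩))
      (q.1.val, q.2.val) (gd_mem_up.2 (Or.inr ⟨q, hq, rfl, rfl⟩))
    rw [Subtype.ext_iff, Subtype.ext_iff]
    exact h
  idm := by
    intro A hA
    exact gd_up_idm P (by omega)
  sub := by
    intro f hf g hg
    exact P.sub _ hf _ (gd_up_mono hg)
  inv := by
    intro f hf
    refine P.sub _ (P.inv _ hf) _ ?_
    rintro ⟨a, b⟩ hab
    rw [gd_mem_up] at hab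
    rw [Finset.mem_image]
    refine ⟨(b, a), gd_mem_up.2 ?_, rfl⟩
    rcases hab with ⟨rfl, h⟩ | ⟨p, hp, h1, h2⟩
    · exact Or.inl ⟨rfl, h⟩
    · rw [Finset.mem_image] at hp
      obtain ⟨q, hq, rfl⟩ := hp
      exact Or.inr ⟨q, hq, h2, h1⟩
  comp := by
    intro f hf g hg h hh
    refine P.comp _ hf _ hg _ ?_
    rintro ⟨a, b⟩ hab
    rw [gd_mem_up] at hab
    rcases hab with ⟨rfl, h1⟩ | ⟨p, hp, h1, h2⟩
    · exact ⟨a, gd_mem_up.2 (Or.inl ⟨rfl, h1⟩), gd_mem_up.2 (Or.inl ⟨rfl, h1⟩)⟩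
    · obtain ⟨c, hc1, hc2⟩ := hh p hp
      exact ⟨c.val, gd_mem_up.2 (Or.inr ⟨_, hc1, h1, rfl⟩),
        gd_mem_up.2 (Or.inr ⟨_, hc2, rfl, h2⟩)⟩
  ext := by
    intro f hf hfm
    rcases f.eq_empty_or_nonempty with rfl | ⟨⟨a, a'⟩, ha⟩
    · refine ⟨1, fun w => ?_⟩
      have h1 := gd_up_idm P (B := B) (C := C) (A := {w}) (by rw [Finset.card_singleton]; omega)
      rw [Finset.image_singleton] at h1
      exact h1
    · obtain ⟨β, hβ⟩ := P.ext _ hf (lt_of_le_of_lt (gd_up_card _ _ _) (by omega))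
      have hin : ∀ w, P.Tp B [a.val, w] [a'.val, β w] := by
        intro w
        refine ⟨rfl, P.sub _ (hβ w) _ ?_⟩
        rintro ⟨c, d⟩ hcd
        rw [mem_pr] at hcd
        rw [Finset.mem_insert, gd_mem_up]
        simp only [List.zip_cons_cons, List.zip_nil_right, List.mem_cons, List.not_mem_nil,
          Prod.mk.injEq, or_false] at hcd
        rcases hcd with h1 | ⟨rfl, rfl⟩ | ⟨rfl, rfl⟩
        · exact Or.inr (Or.inl h1)
        · exact Or.inr (Or.inr ⟨_, ha, rfl, rfl⟩)
        · exact Or.inl rfl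
      have hya : e y a.val := (hC _).1 a.2
      have hya' : e y a'.val := (hC _).1 a'.2
      have hCβ : ∀ w, w ∈ C ↔ β w ∈ C := by
        intro w
        rw [hC, hC]
        constructor
        · intro h1
          have h2 : e a.val w := he.equiv.trans (he.equiv.symm hya) h1
          exact he.equiv.trans hya' (he.inv _ _ _ _ (hin w) h2)
        · intro h1
          have h2 : e a'.val (β w) := he.equiv.trans (he.equiv.symm hya') h1
          exact he.equiv.trans hya (he.inv _ _ _ _ (hin w).symm h2)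
      refine ⟨β.subtypeEquiv hCβ, fun w => ?_⟩
      refine P.sub _ (hβ w.val) _ ?_
      rintro ⟨c, d⟩ hcd
      rw [gd_mem_up] at hcd
      rw [Finset.mem_insert, gd_mem_up]
      rcases hcd with h1 | ⟨p, hp, h1, h2⟩
      · exact Or.inr (Or.inl h1)
      · rw [Finset.mem_insert] at hp
        rcases hp with rfl | hp
        · left
          rw [← h1, ← h2]
          rfl
        · exact Or.inr (Or.inr ⟨p, hp, h1, h2⟩)

private theorem gd_tp {P : PI V m} {B : Finset V} {hm : B.card + 6 ≤ m} {e : V → V → Prop}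
    {he : P.InvEq B e} {C : Finset V} {y : V} {hC : ∀ x, x ∈ C ↔ e y x}
    {B' : Finset {x // x ∈ C}} {l l' : List {x // x ∈ C}} :
    (gdSub P B hm e he C y hC).Tp B' l l' ↔
      P.Tp (B ∪ B'.image Subtype.val) (l.map Subtype.val) (l'.map Subtype.val) := by
  have key : gdUp B C (pr B' l l') =
      pr (B ∪ B'.image Subtype.val) (l.map Subtype.val) (l'.map Subtype.val) := by
    ext ⟨a, b⟩
    rw [gd_mem_up, mem_pr, List.zip_map, List.mem_map]
    constructor
    · rintro (⟨rfl, h⟩ | ⟨⟨p, q⟩, hp, h1, h2⟩)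
      · exact Or.inl ⟨rfl, Finset.mem_union_left _ h⟩
      · rw [mem_pr] at hp
        rcases hp with ⟨rfl, h⟩ | h
        · dsimp only at h1 h2
          refine Or.inl ⟨h1.symm.trans h2, Finset.mem_union_right _ ?_⟩
          rw [← h1]
          exact Finset.mem_image_of_mem _ h
        · exact Or.inr ⟨(p, q), h, by rw [Prod.map_apply]; exact Prod.ext h1 h2⟩
    · rintro (⟨rfl, h⟩ | ⟨⟨p, q⟩, hp, h1⟩)
      · rw [Finset.mem_union, Finset.mem_image] at h
        rcases h with h | ⟨c, hc, rfl⟩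
        · exact Or.inl ⟨rfl, h⟩
        · exact Or.inr ⟨(c, c), mem_pr.2 (Or.inl ⟨rfl, hc⟩), rfl, rfl⟩
      · rw [Prod.map_apply, Prod.mk.injEq] at h1
        exact Or.inr ⟨(p, q), mem_pr.2 (Or.inr hp), h1.1, h1.2⟩
  unfold PI.Tp
  rw [← key, List.length_map, List.length_map]
  rfl

end restrict

/-- Restriction to a class.  Sketch: `C = fs (e y)`, `V' = {x // x ∈ C}`; `C` is disjoint from `B`
(a point of `B` is equivalent only to itself, `e ⊆ Tp B`, all points of `C` are in one orbit over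
`B` and `C` has two points).  `f ∈ P'.I` iff `id_B ∪ f ∈ P.I` (`f` mapped to `V × V`); so
`P'.Tp B' l l'` iff `P.Tp (B ∪ B') l l'` (after coercion).  Extension: for `f = ∅` use the
identity permutation; if `f` contains a pair `(a,a')`, the permutation `β` of `V` given by `P.ext`
satisfies `z ∈ C ↔ e a z ↔ e a' (β z) ↔ β z ∈ C`, so it restricts to `C`.
`hom`: `e y z → Tp B [y] [z]`; `mfree`: from `P.mfree` for `B ∪ B'`, and the new point `z'` is in
`C` as `e y z → e y z'` by invariance; `anti`: from `P.anti`. -/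
theorem PI.Good.sub {V : Type} [Fintype V] [DecidableEq V] {m : ℕ} {P : PI V m}
    (hP : P.Good) {B : Finset V} (hm : B.card + 6 ≤ m) {e : V → V → Prop}
    (he : P.InvEq B e) {y z : V} (hz : z ≠ y) (hez : e y z) :
    HasGood (m - B.card) (fs (e y)).card := by
  have hC : ∀ x, x ∈ fs (e y) ↔ e y x := fun x => mem_fs
  refine ⟨{x // x ∈ fs (e y)}, inferInstance, inferInstance,
    gdSub P B hm e he (fs (e y)) y hC, ⟨?_, ?_, ?_, ?_⟩, Fintype.card_coe _⟩
  · intro a b
    rw [gd_tp]
    have h1 : e a.val b.val := he.equiv.trans (he.equiv.symm ((hC _).1 a.2)) ((hC _).1 b.2)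
    have h2 := he.tp _ _ h1
    rw [Finset.image_empty, Finset.union_empty]
    exact h2
  · intro B' hB' a b hab ht
    rw [gd_tp] at ht
    have hcard : (B ∪ B'.image Subtype.val).card + 2 ≤ m := by
      have h1 := Finset.card_union_le B (B'.image Subtype.val)
      have h2 : (B'.image Subtype.val).card ≤ B'.card := Finset.card_image_le
      omega
    obtain ⟨c, hc, htc⟩ := hP.mfree _ hcard a.val b.val (fun h => hab (Subtype.ext h)) ht
    have h1 : e a.val b.val := he.equiv.trans (he.equiv.symm ((hC _).1 a.2)) ((hC _).1 b.2)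
    have h2 : P.Tp B [a.val, b.val] [a.val, c] := by
      refine htc.mono rfl ?_
      intro p q hpq
      rw [mem_pr] at hpq ⊢
      rcases hpq with ⟨h3, h4⟩ | h3
      · exact Or.inl ⟨h3, Finset.mem_union_left _ h4⟩
      · exact Or.inr h3
    have h3 : e a.val c := he.inv _ _ _ _ h2 h1
    have h4 : c ∈ fs (e y) := (hC _).2 (he.equiv.trans ((hC _).1 a.2) h3)
    refine ⟨⟨c, h4⟩, fun h => hc (congrArg Subtype.val h), ?_⟩
    rw [gd_tp]
    exact htc
  · intro B' a b c hab ht
    rw [gd_tp] at ht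
    exact hP.anti _ a.val b.val c.val (fun h => hab (Subtype.ext h)) ht
  · rw [Fintype.card_coe]
    exact Finset.one_lt_card.2 ⟨y, (hC _).2 (he.equiv.refl y), z, (hC _).2 hez, hz.symm⟩

/-- Sketch: by `hom` and `mfree` (`B = ∅`) and `Good.sub` for `B = {v}`,
`e = Tp {v} [·] [·]`: for `v ≠ y`, the class of `y` has two points and does not contain `v`. -/
theorem HasGood.pred {m n : ℕ} (hm : 7 ≤ m) (h : HasGood m n) :
    ∃ n', n' < n ∧ HasGood (m - 1) n' := by
  obtain ⟨V, i1, i2, P, hP, rfl⟩ := h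
  obtain ⟨v, y, hvy⟩ : ∃ v w : V, v ≠ w :=
    Fintype.exists_pair_of_one_lt_card (by have := hP.two; omega)
  obtain ⟨z, hz, ht⟩ := hP.mfree ∅ (by rw [Finset.card_empty]; omega) v y hvy (hP.hom v y)
  have hI : P.InvEq {v} (fun y z => P.Tp {v} [y] [z]) :=
    PI.invEq_orbit (by rw [Finset.card_singleton]; omega)
  have hyz : P.Tp {v} [y] [z] := by
    refine ht.mono rfl ?_
    intro p q hpq
    rw [mem_pr] at hpq ⊢
    rcases hpq with ⟨h3, h4⟩ | h3
    · rw [Finset.mem_singleton] at h4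
      subst h4
      subst h3
      exact Or.inr (by simp)
    · right
      simp only [List.zip_cons_cons, List.zip_nil_right, List.mem_cons, List.not_mem_nil,
        Prod.mk.injEq, or_false] at h3 ⊢
      exact Or.inr h3
  have h1 := hP.sub (B := {v}) (by rw [Finset.card_singleton]; omega) hI hz hyz
  rw [Finset.card_singleton] at h1
  refine ⟨_, ?_, h1⟩
  rw [← Finset.card_univ]
  refine Finset.card_lt_card ?_
  rw [Finset.ssubset_univ_iff]
  intro h2
  have h3 : v ∈ fs (fun z => P.Tp {v} [y] [z]) := by rw [h2]; exact Finset.mem_univ v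
  rw [mem_fs] at h3
  have h4 := h3.eq_iff (a := v) (b := v) (c := y) (d := v) (by simp [mem_pr]) (by simp [mem_pr])
  exact hvy (h4.2 rfl)

/-- Iterate `HasGood.pred`. -/
theorem HasGood.le {m n : ℕ} (h : HasGood m n) : m ≤ n + 6 := by
  induction m generalizing n with
  | zero => omega
  | succ k ih =>
    rcases Nat.lt_or_ge (k + 1) 7 with hk | hk
    · omega
    · obtain ⟨n', h1, h2⟩ := h.pred hk
      have h3 := ih (n := n') h2
      omega

end MS216
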