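import Pool.Agent.H.MP_216555_lc.BasicA

/-!
# Invariant matrices over `B` form an algebra
-/

set_option linter.unusedSectionVars false

namespace MS216

open Finset Matrix

variable {V : Type} [Fintype V] [DecidableEq V] {m : ℕ} {P : PI V m}

theorem PI.InvF.transpose {B : Finset V} {F : Matrix V V ℝ} (h : P.InvF B F) :
    P.InvF B Fᵀ := by
  intro y z y' z' ht
  rw [Matrix.transpose_apply, Matrix.transpose_apply]
  exact h z y z' y' (by exact PI.Tp.mono (ht) (by simp) (by intro a b hab; simp only [mem_pr, List.zip_cons_cons, List.zip_nil_right, List.mem_cons, List.not_mem_nil, Prod.mk.injEq, Finset.mem_insert, Finset.mem_union, Finset.mem_singleton, Finset.notMem_empty, or_false, and_false, false_or] at hab ⊢; grind))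

/-- `Tp.sum_eq` for the list `[y, z]`. -/
theorem PI.InvF.mul {B : Finset V} (hm : B.card + 6 ≤ m) {F G : Matrix V V ℝ}
    (hF : P.InvF B F) (hG : P.InvF B G) : P.InvF B (F * G) := by
  intro y z y' z' ht
  rw [Matrix.mul_apply, Matrix.mul_apply]
  refine ht.sum_eq (by simp; omega) (fun x => F y x * G x z) (fun x => F y' x * G x z') ?_
  intro x x' hx
  exact congrArg₂ (fun a b : ℝ => a * b) (hF y x y' x' (by exact PI.Tp.mono (hx) (by simp) (by intro a b hab; simp only [mem_pr, List.zip_cons_cons, List.zip_nil_right, List.mem_cons, List.not_mem_nil, Prod.mk.injEq, Finset.mem_insert, Finset.mem_union, Finset.mem_singleton, Finset.notMem_empty, or_false, and_false, false_or] at hab ⊢; grind))) (hG x z x' z' (by exact PI.Tp.mono (hx) (by simp) (by intro a b hab; simp only [mem_pr, List.zip_cons_cons, List.zip_nil_right, List.mem_cons, List.not_mem_nil, Prod.mk.injEq, Finset.mem_insert, Finset.mem_union, Finset.mem_singleton, Finset.notMem_empty, or_false, and_false, false_or] at hab ⊢; grind)))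

private theorem PI.InvF.add_aux {B : Finset V} {F G : Matrix V V ℝ}
    (hF : P.InvF B F) (hG : P.InvF B G) : P.InvF B (F + G) := by
  intro y z y' z' ht
  rw [Matrix.add_apply, Matrix.add_apply, hF y z y' z' ht, hG y z y' z' ht]

private theorem PI.invF_scalar_aux {B : Finset V} (a : ℝ) :
    P.InvF B (algebraMap ℝ (Matrix V V ℝ) a) := by
  intro y z y' z' ht
  have h := ht.eq_iff (a := y) (b := y') (c := z) (d := z')
    (mem_pr.2 (Or.inr (by simp))) (mem_pr.2 (Or.inr (by simp)))
  rw [Matrix.algebraMap_matrix_apply, Matrix.algebraMap_matrix_apply]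
  by_cases hyz : y = z
  · rw [if_pos hyz, if_pos (h.1 hyz)]
  · rw [if_neg hyz, if_neg (fun hh => hyz (h.2 hh))]

/-- Polynomial in an invariant matrix (induction on the polynomial; `1` is invariant by
`Tp.eq_iff`). -/
theorem PI.InvF.aeval {B : Finset V} (hm : B.card + 6 ≤ m) {F : Matrix V V ℝ}
    (hF : P.InvF B F) (q : Polynomial ℝ) :
    P.InvF B (Polynomial.aeval F q : Matrix V V ℝ) := by
  induction q using Polynomial.induction_on with
  | C a => rw [Polynomial.aeval_C]; exact PI.invF_scalar_aux a
  | add p q hp hq => rw [map_add]; exact PI.InvF.add_aux hp hq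
  | monomial n a h =>
    rw [pow_succ, ← mul_assoc, map_mul, Polynomial.aeval_X]
    exact PI.InvF.mul hm h hF

/-- `Tp B [y] [z]` together with equality of the rows `y`, `z` of an invariant matrix is an
`InvEq`.  (Invariance: for `Tp B [y,z] [y',z']` and `x'` choose `x` with
`Tp B [x,y,z] [x',y',z']` by `ext2`.) -/
theorem PI.InvF.rowEq {B : Finset V} (hm : B.card + 6 ≤ m) {F : Matrix V V ℝ}
    (hF : P.InvF B F) :
    P.InvEq B (fun y z => P.Tp B [y] [z] ∧ ∀ x, F y x = F z x) := by
  refine ⟨⟨fun y => ⟨PI.Tp.refl (by simp; omega), fun _ => rfl⟩,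
    fun h => ⟨h.1.symm, fun x => (h.2 x).symm⟩,
    fun h h' => ⟨h.1.trans h'.1, fun x => (h.2 x).trans (h'.2 x)⟩⟩, fun y z h => h.1, ?_⟩
  intro y z y' z' ht h
  refine ⟨?_, fun x' => ?_⟩
  · have h1 : P.Tp B [y'] [y] := by
      have := ht.symm
      exact PI.Tp.mono (this) (by simp) (by intro a b hab; simp only [mem_pr, List.zip_cons_cons, List.zip_nil_right, List.mem_cons, List.not_mem_nil, Prod.mk.injEq, Finset.mem_insert, Finset.mem_union, Finset.mem_singleton, Finset.notMem_empty, or_false, and_false, false_or] at hab ⊢; grind)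
    have h2 : P.Tp B [z] [z'] := by exact PI.Tp.mono (ht) (by simp) (by intro a b hab; simp only [mem_pr, List.zip_cons_cons, List.zip_nil_right, List.mem_cons, List.not_mem_nil, Prod.mk.injEq, Finset.mem_insert, Finset.mem_union, Finset.mem_singleton, Finset.notMem_empty, or_false, and_false, false_or] at hab ⊢; grind)
    exact (h1.trans h.1).trans h2
  · obtain ⟨x, hx⟩ := ht.ext2 (by simp; omega) x'
    rw [← hF y x y' x' (by exact PI.Tp.mono (hx) (by simp) (by intro a b hab; simp only [mem_pr, List.zip_cons_cons, List.zip_nil_right, List.mem_cons, List.not_mem_nil, Prod.mk.injEq, Finset.mem_insert, Finset.mem_union, Finset.mem_singleton, Finset.notMem_empty, or_false, and_false, false_or] at hab ⊢; grind)), ← hF z x z' x' (by exact PI.Tp.mono (hx) (by simp) (by intro a b hab; simp only [mem_pr, List.zip_cons_cons, List.zip_nil_right, List.mem_cons, List.not_mem_nil, Prod.mk.injEq, Finset.mem_insert, Finset.mem_union, Finset.mem_singleton, Finset.notMem_empty, or_false, and_false, false_or] at hab ⊢; grind))]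
    exact h.2 x

end MS216
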