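import Pool.Agent.H.MP_216555_lc.Good
import Pool.Agent.H.MP_216555_lc.Core

/-!
# Reduction to the core: the minimal counterexample
-/

set_option linter.unusedSectionVars false

namespace MS216

open Finset

/-- Sketch: `S = SS (K+1)`, `n₀` from `core (K+1)`, `M = S + 6 + n₀ + (K+1)^(4S+8) + 6`.  Strong
induction on `m ≥ M`.  Let `n₁ ≤ n` be the least number with `HasGood m n₁` (`Nat.find`), `P` on
`V` the system.  If `Env.large` holds for all `|B| ≤ S` then `P.Env (K+1) S` holds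
(`hm`, `big` and `n₀ ≤ |V|` by `HasGood.le`), contradicting `core`.  Otherwise there are
`B, e, y, z` with `(K+1)^|B| * |class| < n₁`, `j = |B| ≤ S`, and `HasGood (m-j) |class|` by `Good.sub`;
`j ≥ 1` by minimality of `n₁`.  If `m - j ≥ M`, induction gives
`(K+1)^(m-j) ≤ |class| (K+1)^M`, so `(K+1)^m ≤ (K+1)^j |class| (K+1)^M ≤ n₁ (K+1)^M`.
If `m - j < M`, `(K+1)^m ≤ (K+1)^(M+j) ≤ (K+1)^M ((K+1)^j |class|)`. -/
theorem red (K : ℕ) (hK : 1 ≤ K) : ∃ M : ℕ, ∀ m, M ≤ m → ∀ n, HasGood m n →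
    (K + 1) ^ m ≤ n * (K + 1) ^ M := by
  classical
  obtain ⟨n₀, hcore⟩ := core (K + 1)
  obtain ⟨S, hS⟩ : ∃ S, S = SS (K + 1) := ⟨_, rfl⟩
  rw [← hS] at hcore
  obtain ⟨M, hM⟩ : ∃ M, M = S + 6 + n₀ + (K + 1) ^ (4 * S + 8) + 6 := ⟨_, rfl⟩
  refine ⟨M, fun m => ?_⟩
  induction m using Nat.strong_induction_on with
  | _ m ih =>
    intro hm n hn
    have hex : ∃ k, HasGood m k := ⟨n, hn⟩
    obtain ⟨n₁, h1, hmin⟩ : ∃ n₁, HasGood m n₁ ∧ ∀ k, HasGood m k → n₁ ≤ k :=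
      ⟨Nat.find hex, Nat.find_spec hex, fun k hk => Nat.find_min' hex hk⟩
    refine le_trans ?_ (Nat.mul_le_mul_right _ (hmin n hn))
    have hle := h1.le
    obtain ⟨V, _, _, P, hP, hV⟩ := h1
    have hpos : 0 < (K + 1) ^ (4 * S + 8) := by positivity
    have hnE : ¬ P.Env (K + 1) S := fun hE => hcore V m P hE (by omega)
    have hlarge : ∃ B : Finset V, B.card ≤ S ∧ ∃ e, P.InvEq B e ∧ ∃ y z, z ≠ y ∧ e y z ∧
        (K + 1) ^ B.card * (fs (e y)).card < n₁ := by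
      by_contra hcon
      push Not at hcon
      apply hnE
      refine ⟨by omega, by omega, hP.hom, fun B hB => hP.mfree B (by omega),
        fun B _ => hP.anti B, fun B hB e he y z hz hez => ?_, by omega⟩
      rw [hV]
      exact hcon B hB e he y z hz hez
    obtain ⟨B, hB, e, he, y, z, hz, hez, hlt⟩ := hlarge
    have hgood := hP.sub (B := B) (by omega) he hz hez
    obtain ⟨c, hc⟩ : ∃ c, c = (fs (e y)).card := ⟨_, rfl⟩
    obtain ⟨j, hj⟩ : ∃ j, j = B.card := ⟨_, rfl⟩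
    rw [← hc, ← hj] at hgood hlt
    rw [← hj] at hB
    have hc1 : 1 ≤ c := by
      rw [hc, Nat.one_le_iff_ne_zero, ← Nat.pos_iff_ne_zero, Finset.card_pos]
      exact ⟨z, mem_fs.2 hez⟩
    have hj1 : 1 ≤ j := by
      by_contra h0
      have h0' : j = 0 := by omega
      subst h0'
      have := hmin c hgood
      rw [pow_zero, one_mul] at hlt
      omega
    by_cases hmj : M ≤ m - j
    · have h2 := ih (m - j) (by omega) hmj c hgood
      have h3 : m = j + (m - j) := by omega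
      calc (K + 1) ^ m = (K + 1) ^ j * (K + 1) ^ (m - j) := by rw [← pow_add, ← h3]
        _ ≤ (K + 1) ^ j * (c * (K + 1) ^ M) := Nat.mul_le_mul_left _ h2
        _ = ((K + 1) ^ j * c) * (K + 1) ^ M := by ring
        _ ≤ n₁ * (K + 1) ^ M := Nat.mul_le_mul_right _ hlt.le
    · calc (K + 1) ^ m ≤ (K + 1) ^ (j + M) := Nat.pow_le_pow_right (by omega) (by omega)
        _ = (K + 1) ^ j * 1 * (K + 1) ^ M := by rw [pow_add, mul_one]
        _ ≤ ((K + 1) ^ j * c) * (K + 1) ^ M := by gcongr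
        _ ≤ n₁ * (K + 1) ^ M := Nat.mul_le_mul_right _ hlt.le

/-- Main theorem for good systems: `((K+1)/K)^m > (K+1)^M` for large `m`. -/
theorem main_good (K : ℕ) : ∃ m₀ : ℕ, ∀ m, m₀ ≤ m → ∀ n, HasGood m n → K ^ m < n := by
  rcases Nat.eq_zero_or_pos K with rfl | hK
  · refine ⟨1, fun m hm n hn => ?_⟩
    obtain ⟨V, _, _, P, hP, hV⟩ := hn
    have := hP.two
    rw [zero_pow (by omega)]
    omega
  · obtain ⟨M, hM⟩ := red K hK
    refine ⟨M + K * (K + 1) ^ M, fun m hm n hn => ?_⟩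
    by_contra hcon
    push Not at hcon
    have h1 := hM m (by omega) n hn
    have h2 : (K + 1) ^ m ≤ K ^ m * (K + 1) ^ M := h1.trans (Nat.mul_le_mul_right _ hcon)
    have hKr : (0 : ℝ) < K := by exact_mod_cast hK
    have h3 : ((K : ℝ) + 1) ^ m ≤ (K : ℝ) ^ m * ((K : ℝ) + 1) ^ M := by exact_mod_cast h2
    have h4 : 1 + (m : ℝ) * (1 / (K : ℝ)) ≤ (1 + 1 / (K : ℝ)) ^ m :=
      one_add_mul_le_pow (by
        have : 0 < 1 / (K : ℝ) := by positivity
        linarith) m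
    have h5 : ((K : ℝ) + 1) ^ m = (K : ℝ) ^ m * (1 + 1 / (K : ℝ)) ^ m := by
      rw [← mul_pow]
      congr 1
      field_simp
    rw [h5] at h3
    have h6 : (1 + 1 / (K : ℝ)) ^ m ≤ ((K : ℝ) + 1) ^ M :=
      le_of_mul_le_mul_left h3 (by positivity)
    have h7 : ((M + K * (K + 1) ^ M : ℕ) : ℝ) ≤ (m : ℝ) := by exact_mod_cast hm
    have h8 : (K : ℝ) * ((K : ℝ) + 1) ^ M ≤ (m : ℝ) := by
      push_cast at h7
      have : (0 : ℝ) ≤ (M : ℝ) := by positivity
      linarith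
    have h9 : ((K : ℝ) + 1) ^ M ≤ (m : ℝ) * (1 / (K : ℝ)) := by
      rw [mul_one_div, le_div_iff₀ hKr]
      linarith
    linarith

end MS216
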