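import Pool.Agent.H.MP_216555_lc.SGood
import Pool.Agent.H.MP_216555_lc.Red

/-!
# The main theorem
-/

namespace MS216

open Finset

/-- `K = ⌈exp (1/ε)⌉`: `ε log n ≤ m` gives `n ≤ K^m`. -/
theorem main (ε : ℝ) (hε : 0 < ε) :
    ∃ n₀ : ℕ, ∀ (V : Type) [Fintype V] (m : ℕ) (X : MScheme V m),
      n₀ ≤ Fintype.card V → ε * Real.log (Fintype.card V) ≤ m →
      X.Homogeneous → X.NoThreeCycle → X.HasMatching := by
  classical
  obtain ⟨m₀, hm₀⟩ := main_good ⌈Real.exp (1 / ε)⌉₊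
  refine ⟨max 2 ⌈Real.exp (((m₀ : ℝ) + 1) / ε)⌉₊, ?_⟩
  intro V _ m X hn hm h1 h2
  have hn2 : 2 ≤ Fintype.card V := le_trans (le_max_left _ _) hn
  have hn3 : Real.exp (((m₀ : ℝ) + 1) / ε) ≤ Fintype.card V := by
    refine le_trans (Nat.le_ceil _) ?_
    exact_mod_cast le_trans (le_max_right _ _) hn
  have hpos : (0 : ℝ) < Fintype.card V := by
    have : 0 < Fintype.card V := by omega
    exact_mod_cast this
  have hlog : ((m₀ : ℝ) + 1) / ε ≤ Real.log (Fintype.card V) := by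
    rw [Real.le_log_iff_exp_le hpos]
    exact hn3
  have hm1 : (m₀ : ℝ) + 1 ≤ m := by
    rw [div_le_iff₀ hε] at hlog
    linarith
  have hm2 : m₀ + 1 ≤ m := by exact_mod_cast hm1
  by_contra h3
  have hg := X.good (by omega) hn2 h1 h2 h3
  have := hm₀ m (by omega) (Fintype.card V) ⟨V, _, _, X.toPI, hg, rfl⟩
  have h4 : (Fintype.card V : ℝ) ≤ (⌈Real.exp (1 / ε)⌉₊ : ℝ) ^ m := by
    calc (Fintype.card V : ℝ) = Real.exp (Real.log (Fintype.card V)) := (Real.exp_log hpos).symm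
      _ ≤ Real.exp ((m : ℝ) * (1 / ε)) := by
          apply Real.exp_le_exp.2
          rw [mul_one_div, le_div_iff₀ hε]
          linarith
      _ = (Real.exp (1 / ε)) ^ m := by rw [← Real.exp_nat_mul]
      _ ≤ _ := by
          gcongr
          exact Nat.le_ceil _
  have h5 : Fintype.card V ≤ ⌈Real.exp (1 / ε)⌉₊ ^ m := by exact_mod_cast h4
  omega

/-- Antisymmetric schemes have no color fixed by a 3-cycle. -/
theorem MScheme.Antisymmetric.noThreeCycle {V : Type*} {m : ℕ} {X : MScheme V m}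
    (h : X.Antisymmetric) : X.NoThreeCycle := by
  intro s hs x σ hσ
  have h1 : σ ≠ 1 := by
    rintro rfl
    have := card_support_eq_three_iff.2 hσ
    simp at this
  refine h s ?_ hs x σ h1
  by_contra h2
  have : Subsingleton (Fin s) := Fin.subsingleton_iff_le_one.2 (by omega)
  exact h1 (Subsingleton.elim _ _)

end MS216
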