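import Pool.Agent.H.MP_216555_lc.Defs

/-!
# Moving points between the base and the lists, without automation
-/

set_option linter.unusedSectionVars false

namespace MS216

open Finset

/-- The general rule: every pair of the new partial map is a pair of the old one. -/
theorem PI.Tp.mv {V : Type} [Fintype V] [DecidableEq V] {m : ℕ} {P : PI V m}
    {B B' : Finset V} {l l' k k' : List V} (h : P.Tp B l l') (hl : k.length = k'.length)
    (hB : ∀ a ∈ B', a ∈ B ∨ (a, a) ∈ l.zip l')
    (hk : ∀ p ∈ k.zip k', p ∈ l.zip l' ∨ (p.1 = p.2 ∧ p.1 ∈ B)) : P.Tp B' k k' :=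
  h.mono hl fun a b hab => by
    rw [mem_pr] at hab ⊢
    rcases hab with ⟨rfl, hab⟩ | hab
    · rcases hB a hab with h1 | h1
      · exact Or.inl ⟨rfl, h1⟩
      · exact Or.inr h1
    · rcases hk _ hab with h1 | ⟨h1, h2⟩
      · exact Or.inr h1
      · exact Or.inl ⟨h1, h2⟩

/-- Dropping and permuting points of the lists. -/
theorem PI.Tp.sub {V : Type} [Fintype V] [DecidableEq V] {m : ℕ} {P : PI V m}
    {B : Finset V} {l l' k k' : List V} (h : P.Tp B l l') (hl : k.length = k'.length)
    (hs : ∀ p ∈ k.zip k', p ∈ l.zip l') : P.Tp B k k' :=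
  h.mv hl (fun _ ha => Or.inl ha) fun p hp => Or.inl (hs p hp)

end MS216
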