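import Pool.Agent.H.MP_216555_lc.PairInd

/-!
# Number of colors: monotonicity and splitting
-/

set_option linter.unusedSectionVars false

namespace MS216

open Finset

private theorem NCa_mono {V : Type} [Fintype V] [DecidableEq V] {m : ℕ} {P : PI V m}
    {B B' : Finset V} (h : B ⊆ B') {l l' : List V} (ht : P.Tp B' l l') : P.Tp B l l' := by
  refine ht.mono ht.len fun a b hab => ?_
  rw [mem_pr] at hab ⊢
  rcases hab with ⟨h1, h2⟩ | h1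
  · exact Or.inl ⟨h1, h h2⟩
  · exact Or.inr h1

private theorem NCa_ne {V : Type} [Fintype V] [DecidableEq V] {m : ℕ} {P : PI V m}
    {B B' : Finset V} (h : B ⊆ B') {k : ℕ} {c c' : Fin k → V × V}
    (hd : ∀ i j, i ≠ j → ¬ P.Tp B [(c i).1, (c i).2] [(c j).1, (c j).2])
    (ht : ∀ i, P.Tp B [(c i).1, (c i).2] [(c' i).1, (c' i).2]) :
    ∀ i j, i ≠ j → ¬ P.Tp B' [(c' i).1, (c' i).2] [(c' j).1, (c' j).2] := fun i j hij hh =>
  hd i j hij (((ht i).trans (NCa_mono h hh)).trans (ht j).symm)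

private theorem NCa_cons {V : Type} [Fintype V] [DecidableEq V] {m : ℕ} {P : PI V m}
    {B : Finset V} {w₁ y₁ : V} {k : ℕ} (c : Fin k → V × V) (a : V × V)
    (hc : ∀ i, P.Sim B w₁ (c i).1 ∧ P.Sim B y₁ (c i).2 ∧ P.Ind2 B (c i).1 (c i).2)
    (ha : P.Sim B w₁ a.1 ∧ P.Sim B y₁ a.2 ∧ P.Ind2 B a.1 a.2)
    (hd : ∀ i j, i ≠ j → ¬ P.Tp B [(c i).1, (c i).2] [(c j).1, (c j).2])
    (hn : ∀ i, ¬ P.Tp B [a.1, a.2] [(c i).1, (c i).2]) : P.NC B w₁ y₁ (k + 1) := by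
  refine ⟨Fin.cons a c, fun i => ?_, fun i j hij => ?_⟩
  · refine Fin.cases ?_ (fun i => ?_) i
    · simpa using ha
    · simpa using hc i
  · rcases Fin.eq_zero_or_eq_succ i with rfl | ⟨i, rfl⟩
    · rcases Fin.eq_zero_or_eq_succ j with rfl | ⟨j, rfl⟩
      · exact absurd rfl hij
      · simpa using hn j
    · rcases Fin.eq_zero_or_eq_succ j with rfl | ⟨j, rfl⟩
      · intro hh
        refine hn i ?_
        simpa using hh.symm
      · have h1 : i ≠ j := fun h => hij (by rw [h])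
        simpa using hd i j h1

/-- One color always exists: `y ∈ fs (Sim B y₀)` outside `Dcl (insert w₀ B)`. -/
theorem PI.Env.nc_one {V : Type} [Fintype V] [DecidableEq V] {m : ℕ} {P : PI V m} {K S : ℕ}
    (hE : P.Env K S) {B : Finset V} (hB : B.card + 1 ≤ S) {w₀ y₀ : V} (hw : w₀ ∉ P.Dcl B)
    (hy : y₀ ∉ P.Dcl B) : P.NC B w₀ y₀ 1 := by
  have hB' : (insert w₀ B).card ≤ S := (Finset.card_insert_le _ _).trans hB
  obtain ⟨x, hx, hxd⟩ := hE.exists_sim_notMem_dcl (B := B) (B' := insert w₀ B) (by omega) hB' hy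
  have hm : B.card + 6 ≤ m := by have := hE.hm; omega
  refine ⟨fun _ => (w₀, x), fun _ => ⟨PI.sim_refl hm w₀, hx, hw, hxd⟩, fun i j hij => ?_⟩
  exact absurd (Subsingleton.elim i j) hij

/-- `lift` for each color (the lifted pairs are inequivalent over `B`, so over `B'`). -/
theorem nc_mono (K S : ℕ) : ∃ n₀ : ℕ, ∀ (V : Type) [Fintype V] [DecidableEq V]
    (m : ℕ) (P : PI V m), P.Env K S → n₀ ≤ Fintype.card V → ∀ B B' : Finset V, B ⊆ B' →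
    B'.card + 2 ≤ S → ∀ w₀ y₀ w₁ y₁, w₁ ∉ P.Dcl B' → y₁ ∉ P.Dcl B' →
      P.Sim B w₀ w₁ → P.Sim B y₀ y₁ → ∀ k, P.NC B w₀ y₀ k → P.NC B' w₁ y₁ k := by
  obtain ⟨n₀, hn₀⟩ := lift K S
  refine ⟨n₀, fun V _ _ m P hE hn B B' hBB hB w₀ y₀ w₁ y₁ hw hy hsw hsy k hk => ?_⟩
  obtain ⟨c, hc, hd⟩ := hk
  have hcard := Finset.card_le_card hBB
  have hm : B.card + 6 ≤ m := by have := hE.hm; omega
  have hex : ∀ i, ∃ q : V × V, P.Sim B' w₁ q.1 ∧ P.Sim B' y₁ q.2 ∧ P.Ind2 B' q.1 q.2 ∧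
      P.Tp B [(c i).1, (c i).2] [q.1, q.2] := by
    intro i
    obtain ⟨h1, h2, h3⟩ := hc i
    obtain ⟨w', y', k1, k2, k3, k4⟩ := hn₀ V m P hE hn B B' hBB hB _ _ w₁ y₁ h3 hw hy
      ((h1.symm hm).trans hm hsw) ((h2.symm hm).trans hm hsy)
    exact ⟨(w', y'), k1, k2, k3, k4⟩
  choose c' h1 h2 h3 h4 using hex
  exact ⟨c', fun i => ⟨h1 i, h2 i, h3 i⟩, NCa_ne hBB hd h4⟩

/-- Splitting.  Sketch: lift the `k` colors `c i` to `c' i` as in `nc_mono`.  If the `B`-type of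
`(w,y)` is not among the `c i`, add the pair `(w,y)`; if it is the type of `c j`, replace `c' j` by
`(w,y)` and add `(w',y')`. -/
theorem nc_split (K S : ℕ) : ∃ n₀ : ℕ, ∀ (V : Type) [Fintype V] [DecidableEq V]
    (m : ℕ) (P : PI V m), P.Env K S → n₀ ≤ Fintype.card V → ∀ B B' : Finset V, B ⊆ B' →
    B'.card + 2 ≤ S → ∀ w₀ y₀ w₁ y₁, w₁ ∉ P.Dcl B' → y₁ ∉ P.Dcl B' →
      P.Sim B w₀ w₁ → P.Sim B y₀ y₁ → ∀ k, P.NC B w₀ y₀ k →
      ∀ w y w' y', P.Sim B' w₁ w → P.Sim B' w₁ w' → P.Sim B' y₁ y → P.Sim B' y₁ y' →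
        P.Ind2 B' w y → P.Ind2 B' w' y' → P.Tp B [w, y] [w', y'] → ¬ P.Tp B' [w, y] [w', y'] →
        P.NC B' w₁ y₁ (k + 1) := by
  obtain ⟨n₀, hn₀⟩ := lift K S
  refine ⟨n₀, fun V _ _ m P hE hn B B' hBB hB w₀ y₀ w₁ y₁ hw hy hsw hsy k hk w y w' y'
    sw sw' sy sy' hi hi' ht hnt => ?_⟩
  obtain ⟨c, hc, hd⟩ := hk
  have hcard := Finset.card_le_card hBB
  have hm : B.card + 6 ≤ m := by have := hE.hm; omega
  have hex : ∀ i, ∃ q : V × V, P.Sim B' w₁ q.1 ∧ P.Sim B' y₁ q.2 ∧ P.Ind2 B' q.1 q.2 ∧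
      P.Tp B [(c i).1, (c i).2] [q.1, q.2] := by
    intro i
    obtain ⟨h1, h2, h3⟩ := hc i
    obtain ⟨w', y', k1, k2, k3, k4⟩ := hn₀ V m P hE hn B B' hBB hB _ _ w₁ y₁ h3 hw hy
      ((h1.symm hm).trans hm hsw) ((h2.symm hm).trans hm hsy)
    exact ⟨(w', y'), k1, k2, k3, k4⟩
  choose c' h1 h2 h3 h4 using hex
  by_cases hj : ∃ j, P.Tp B [(c j).1, (c j).2] [w, y]
  · obtain ⟨j, hj⟩ := hj
    have hex2 : ∀ i, ∃ q : V × V, (P.Sim B' w₁ q.1 ∧ P.Sim B' y₁ q.2 ∧ P.Ind2 B' q.1 q.2) ∧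
        P.Tp B [(c i).1, (c i).2] [q.1, q.2] ∧ (i = j → q = (w, y)) := by
      intro i
      by_cases hij : i = j
      · subst hij
        exact ⟨(w, y), ⟨sw, sy, hi⟩, hj, fun _ => rfl⟩
      · exact ⟨c' i, ⟨h1 i, h2 i, h3 i⟩, h4 i, fun h => absurd h hij⟩
    choose c₂ g1 g2 g3 using hex2
    refine NCa_cons c₂ (w', y') g1 ⟨sw', sy', hi'⟩ (NCa_ne hBB hd g2) fun i hti => ?_
    by_cases hij : i = j
    · rw [g3 i hij] at hti
      exact hnt hti.symm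
    · have k1 : P.Tp B [w', y'] [(c₂ i).1, (c₂ i).2] := NCa_mono hBB hti
      exact hd j i (fun h => hij h.symm) (((hj.trans ht).trans k1).trans (g2 i).symm)
  · refine NCa_cons c' (w, y) (fun i => ⟨h1 i, h2 i, h3 i⟩) ⟨sw, sy, hi⟩ (NCa_ne hBB hd h4)
      fun i hti => hj ⟨i, ?_⟩
    have k1 : P.Tp B [w, y] [(c' i).1, (c' i).2] := NCa_mono hBB hti
    exact (h4 i).trans k1.symm

end MS216
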