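import Pool.Agent.H.MP_216555_lc.NCa

/-!
# At most `K` colors between strong classes
-/

set_option linter.unusedSectionVars false

namespace MS216

open Finset

open Classical in
/-- the points `x` of `X` without a partner of the color -/
private theorem ncb_bad (K S : ℕ) (hK : 2 ≤ K) (n₁ : ℕ)
    (hp : ∀ (V : Type) [Fintype V] [DecidableEq V]
      (m : ℕ) (P : PI V m), P.Env K S → n₁ ≤ Fintype.card V → ∀ B : Finset V, B.card + 2 ≤ S →
      ∀ y t, P.Ind2 B y t → ∀ S₁ T₁ : Finset V,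
      (∀ a ∈ S₁, P.Sim B y a) → (∀ b ∈ T₁, P.Sim B t b) →
      (1 / (((K : ℝ) + 2) * (K : ℝ) ^ S)) * Fintype.card V ≤ S₁.card →
      (1 / (((K : ℝ) + 2) * (K : ℝ) ^ S)) * Fintype.card V ≤ T₁.card →
      (1 / (((K : ℝ) + 2) * (K : ℝ) ^ S)) ^ 2 / (2 * (K : ℝ) ^ (2 * S)) *
        (Fintype.card V : ℝ) ^ 2 ≤
        (prs S₁ T₁ (fun a b => P.Tp B [y, t] [a, b])).card)
    (V : Type) [Fintype V] [DecidableEq V] (m : ℕ) (P : PI V m) (hE : P.Env K S)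
    (hn : n₁ ≤ Fintype.card V) (B : Finset V) (hB : B.card + 3 ≤ S) (w₀ y₀ : V)
    (hw : w₀ ∉ P.Dcl B) (c : V × V) (hc1 : P.Sim B w₀ c.1) (hc2 : P.Sim B y₀ c.2)
    (hc3 : P.Ind2 B c.1 c.2) :
    (((fs (P.Sim B y₀)).filter fun x => ∀ w, P.Sim B w₀ w → ¬ P.Tp B [c.1, c.2] [w, x]).card : ℝ)
      < (1 / (((K : ℝ) + 2) * (K : ℝ) ^ S)) * Fintype.card V := by
  by_contra hcon
  rw [not_lt] at hcon
  have hm6 : B.card + 6 ≤ m := by have := hE.hm; omega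
  have hK0 : (0 : ℝ) < (K : ℝ) := by exact_mod_cast (by omega : 0 < K)
  have hn0 : (0 : ℝ) < (Fintype.card V : ℝ) := by
    exact_mod_cast Fintype.card_pos_iff.2 ⟨w₀⟩
  have hEl : (1 / (((K : ℝ) + 2) * (K : ℝ) ^ S)) * Fintype.card V
      ≤ ((fs (P.Sim B w₀)).card : ℝ) := by
    have h1 := hE.sim_large (by omega : B.card ≤ S) hw
    have h2 : Fintype.card V ≤ K ^ S * (fs (P.Sim B w₀)).card :=
      le_trans h1 (Nat.mul_le_mul_right _ (Nat.pow_le_pow_right (by omega) (by omega)))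
    have h3 : (Fintype.card V : ℝ) ≤ (K : ℝ) ^ S * ((fs (P.Sim B w₀)).card : ℝ) := by
      exact_mod_cast h2
    rw [one_div, inv_mul_le_iff₀ (by positivity)]
    have h4 : (0 : ℝ) ≤ (K : ℝ) ^ S * ((fs (P.Sim B w₀)).card : ℝ) := by positivity
    nlinarith
  have key := hp V m P hE hn B (by omega) c.1 c.2 hc3 (fs (P.Sim B w₀))
    ((fs (P.Sim B y₀)).filter fun x => ∀ w, P.Sim B w₀ w → ¬ P.Tp B [c.1, c.2] [w, x])
    (fun a ha => PI.Sim.trans hm6 (PI.Sim.symm hm6 hc1) (mem_fs.1 ha))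
    (fun b hb => PI.Sim.trans hm6 (PI.Sim.symm hm6 hc2) (mem_fs.1 (Finset.mem_filter.1 hb).1))
    hEl hcon
  have hpos : (0 : ℝ) < (1 / (((K : ℝ) + 2) * (K : ℝ) ^ S)) ^ 2 / (2 * (K : ℝ) ^ (2 * S)) *
        (Fintype.card V : ℝ) ^ 2 := by positivity
  have hc := lt_of_lt_of_le hpos key
  have hc' : 0 < (prs (fs (P.Sim B w₀))
    ((fs (P.Sim B y₀)).filter fun x => ∀ w, P.Sim B w₀ w → ¬ P.Tp B [c.1, c.2] [w, x])
    (fun a b => P.Tp B [c.1, c.2] [a, b])).card := by exact_mod_cast hc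
  obtain ⟨⟨a, b⟩, hab⟩ := Finset.card_pos.1 hc'
  obtain ⟨ha, hb, ht⟩ := mem_prs.1 hab
  exact (Finset.mem_filter.1 hb).2 a (mem_fs.1 ha) ht

/-- One step of the path.  Sketch: `E = fs (Sim B w₀)`, `X = fs (Sim B y₀)`, colors `c i`,
`i : Fin (K+1)`.  For each `i` the set `T_i` of those `x ∈ X` for which no `w ∈ E` has
`Tp B [(c i).1,(c i).2] [w,x]` has less than `δ n` points, `δ = 1/((K+2) K^S)`: otherwise `pair`
gives a pair in `E × T_i` (note `Sim B w₀ (c i).1` etc., and `1/K^S ≥ δ` for `E`).  As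
`(K+1) δ n < n/K^S ≤ |X|` there is `x ∈ X` outside all `T_i`.  The `K+1` sets
`W_i = {w ∈ E : Tp B [(c i).1,(c i).2] [w,x]}` are nonempty and pairwise disjoint, so some `i` has
`(K+1) |W_i| ≤ |E|`; take `w₁ ∈ W_i`, so `w₁ ∉ Dcl (insert x B)` (`Ind2 B w₁ x`, `ind2_symm`), and
`y₁ ∈ X` outside `Dcl (insert x B)`.  `fs (Sim (insert x B) w₁) ⊆ W_i` by `sim_mono`.  `NC` by
`nc_mono`. -/
theorem nc_step (K S : ℕ) : ∃ n₀ : ℕ, ∀ (V : Type) [Fintype V] [DecidableEq V]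
    (m : ℕ) (P : PI V m), P.Env K S → n₀ ≤ Fintype.card V → ∀ B : Finset V,
    B.card + 3 ≤ S → ∀ w₀ y₀, w₀ ∉ P.Dcl B → y₀ ∉ P.Dcl B → P.NC B w₀ y₀ (K + 1) →
      ∃ x w₁ y₁, w₁ ∉ P.Dcl (insert x B) ∧ y₁ ∉ P.Dcl (insert x B) ∧
        P.NC (insert x B) w₁ y₁ (K + 1) ∧
        (K + 1) * (fs (P.Sim (insert x B) w₁)).card ≤ (fs (P.Sim B w₀)).card := by
  classical
  by_cases hK : 2 ≤ K
  swap
  · exact ⟨0, fun V _ _ m P hE => absurd hE.hK hK⟩
  have hK0 : (0 : ℝ) < (K : ℝ) := by exact_mod_cast (by omega : 0 < K)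
  have hδ : (0 : ℝ) < 1 / (((K : ℝ) + 2) * (K : ℝ) ^ S) := by positivity
  obtain ⟨n₁, hn₁⟩ := pair K S (1 / (((K : ℝ) + 2) * (K : ℝ) ^ S)) hδ
  obtain ⟨n₂, hn₂⟩ := nc_mono K S
  refine ⟨max n₁ n₂, ?_⟩
  intro V _ _ m P hE hn B hB w₀ y₀ hw hy hNC
  obtain ⟨c, hc, hne⟩ := hNC
  have hm6 : B.card + 6 ≤ m := by have := hE.hm; omega
  have hn0 : (0 : ℝ) < (Fintype.card V : ℝ) := by
    exact_mod_cast Fintype.card_pos_iff.2 ⟨w₀⟩
  -- the bad sets
  have hbad : ∀ i : Fin (K + 1), (((fs (P.Sim B y₀)).filter fun x =>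
      ∀ w, P.Sim B w₀ w → ¬ P.Tp B [(c i).1, (c i).2] [w, x]).card : ℝ)
      < (1 / (((K : ℝ) + 2) * (K : ℝ) ^ S)) * Fintype.card V := fun i =>
    ncb_bad K S hK n₁ hn₁ V m P hE (le_trans (le_max_left _ _) hn) B hB w₀ y₀ hw (c i)
      (hc i).1 (hc i).2.1 (hc i).2.2
  have hXl : (Fintype.card V : ℝ) ≤ (K : ℝ) ^ S * ((fs (P.Sim B y₀)).card : ℝ) := by
    have h1 := hE.sim_large (by omega : B.card ≤ S) hy
    have h2 : Fintype.card V ≤ K ^ S * (fs (P.Sim B y₀)).card :=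
      le_trans h1 (Nat.mul_le_mul_right _ (Nat.pow_le_pow_right (by omega) (by omega)))
    exact_mod_cast h2
  have hun : ((univ.biUnion fun i : Fin (K + 1) => (fs (P.Sim B y₀)).filter fun x =>
      ∀ w, P.Sim B w₀ w → ¬ P.Tp B [(c i).1, (c i).2] [w, x]).card : ℝ)
      < ((fs (P.Sim B y₀)).card : ℝ) := by
    have h1 : ((univ.biUnion fun i : Fin (K + 1) => (fs (P.Sim B y₀)).filter fun x =>
      ∀ w, P.Sim B w₀ w → ¬ P.Tp B [(c i).1, (c i).2] [w, x]).card : ℝ) ≤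
      ∑ i : Fin (K + 1), (((fs (P.Sim B y₀)).filter fun x =>
      ∀ w, P.Sim B w₀ w → ¬ P.Tp B [(c i).1, (c i).2] [w, x]).card : ℝ) := by
      exact_mod_cast Finset.card_biUnion_le
    have h2 : ∑ i : Fin (K + 1), (((fs (P.Sim B y₀)).filter fun x =>
      ∀ w, P.Sim B w₀ w → ¬ P.Tp B [(c i).1, (c i).2] [w, x]).card : ℝ) ≤
      ∑ i : Fin (K + 1), (1 / (((K : ℝ) + 2) * (K : ℝ) ^ S)) * Fintype.card V :=
      Finset.sum_le_sum (fun i _ => (hbad i).le)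
    rw [Finset.sum_const, Finset.card_univ, Fintype.card_fin, nsmul_eq_mul] at h2
    push_cast at h2
    have h3 : ((K : ℝ) + 1) * ((1 / (((K : ℝ) + 2) * (K : ℝ) ^ S)) * Fintype.card V)
        < ((fs (P.Sim B y₀)).card : ℝ) := by
      have h5 : ((K : ℝ) + 1) * ((1 / (((K : ℝ) + 2) * (K : ℝ) ^ S)) * Fintype.card V)
          = (((K : ℝ) + 1) * Fintype.card V) / (((K : ℝ) + 2) * (K : ℝ) ^ S) := by
        field_simp
      rw [h5, div_lt_iff₀ (by positivity)]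
      nlinarith
    linarith
  have hun' : (univ.biUnion fun i : Fin (K + 1) => (fs (P.Sim B y₀)).filter fun x =>
      ∀ w, P.Sim B w₀ w → ¬ P.Tp B [(c i).1, (c i).2] [w, x]).card
      < (fs (P.Sim B y₀)).card := by exact_mod_cast hun
  obtain ⟨x, hxX, hx⟩ := Finset.exists_mem_notMem_of_card_lt_card hun'
  have hx2 : ∀ i : Fin (K + 1), ∃ w, P.Sim B w₀ w ∧ P.Tp B [(c i).1, (c i).2] [w, x] := by
    intro i
    by_contra hcon
    push Not at hcon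
    apply hx
    rw [Finset.mem_biUnion]
    exact ⟨i, Finset.mem_univ _, Finset.mem_filter.2 ⟨hxX, hcon⟩⟩
  -- the sets W i
  have hdisj : ∀ i ∈ (univ : Finset (Fin (K + 1))), ∀ j ∈ (univ : Finset (Fin (K + 1))), i ≠ j →
      Disjoint ((fs (P.Sim B w₀)).filter fun w => P.Tp B [(c i).1, (c i).2] [w, x])
        ((fs (P.Sim B w₀)).filter fun w => P.Tp B [(c j).1, (c j).2] [w, x]) := by
    intro i _ j _ hij
    rw [Finset.disjoint_left]
    intro w hwi hwj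
    exact hne i j hij ((Finset.mem_filter.1 hwi).2.trans (Finset.mem_filter.1 hwj).2.symm)
  have hsum : ∑ i : Fin (K + 1),
      ((fs (P.Sim B w₀)).filter fun w => P.Tp B [(c i).1, (c i).2] [w, x]).card
      ≤ (fs (P.Sim B w₀)).card := by
    rw [← Finset.card_biUnion hdisj]
    apply Finset.card_le_card
    intro w hw'
    obtain ⟨i, -, hi⟩ := Finset.mem_biUnion.1 hw'
    exact (Finset.mem_filter.1 hi).1
  obtain ⟨i, hi⟩ : ∃ i : Fin (K + 1), (K + 1) *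
      ((fs (P.Sim B w₀)).filter fun w => P.Tp B [(c i).1, (c i).2] [w, x]).card
      ≤ (fs (P.Sim B w₀)).card := by
    by_contra hcon
    push Not at hcon
    have h1 : ∑ i : Fin (K + 1), (fs (P.Sim B w₀)).card < ∑ i : Fin (K + 1), (K + 1) *
        ((fs (P.Sim B w₀)).filter fun w => P.Tp B [(c i).1, (c i).2] [w, x]).card :=
      Finset.sum_lt_sum_of_nonempty ⟨0, Finset.mem_univ _⟩ (fun i _ => hcon i)
    rw [Finset.sum_const, Finset.card_univ, Fintype.card_fin, smul_eq_mul, ← Finset.mul_sum] at h1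
    exact absurd (Nat.mul_le_mul_left (K + 1) hsum) (not_le.2 h1)
  obtain ⟨w₁, hw₁s, hw₁t⟩ := hx2 i
  have hind : P.Ind2 B w₁ x := PI.Tp.ind2 hm6 hw₁t (hc i).2.2
  have hind' : P.Ind2 B x w₁ := hE.ind2_symm (by omega) hind
  have hcard : (insert x B).card ≤ B.card + 1 := Finset.card_insert_le _ _
  obtain ⟨y₁, hy₁s, hy₁d⟩ := hE.exists_sim_notMem_dcl (by omega : B.card ≤ S)
    (by omega : (insert x B).card ≤ S) hy
  refine ⟨x, w₁, y₁, hind'.2, hy₁d, ?_, ?_⟩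
  · exact hn₂ V m P hE (le_trans (le_max_right _ _) hn) B (insert x B) (Finset.subset_insert _ _)
      (by omega) w₀ y₀ w₁ y₁ hind'.2 hy₁d hw₁s hy₁s (K + 1) ⟨c, hc, hne⟩
  · refine le_trans (Nat.mul_le_mul_left _ (Finset.card_le_card ?_)) hi
    intro w hw'
    have hsim : P.Sim (insert x B) w₁ w := mem_fs.1 hw'
    have hsim' : P.Sim B w₁ w := hE.sim_mono (Finset.subset_insert _ _)
      (by omega : (insert x B).card ≤ S) hind'.2 hsim
    refine Finset.mem_filter.2 ⟨mem_fs.2 (PI.Sim.trans hm6 hw₁s hsim'), ?_⟩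
    have ht : P.Tp B [w₁, x] [w, x] := by
      refine hsim.tp.mono rfl ?_
      intro a b
      simp only [mem_pr, List.zip_cons_cons, List.zip_nil_right, List.mem_cons, Prod.mk.injEq,
        List.not_mem_nil, or_false, Finset.mem_insert]
      grind
    exact hw₁t.trans ht

end MS216
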