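import Pool.Agent.H.MP_216555_lc.NCb

/-!
# At most `K` colors between strong classes: the bound
-/

set_option linter.unusedSectionVars false

namespace MS216

open Finset

private theorem NCc_bern (K n : ℕ) : K ^ n * (K + n) ≤ K * (K + 1) ^ n := by
  induction n with
  | zero => simp
  | succ n ih =>
    have h1 := Nat.mul_le_mul_right (K + 1) ih
    have h2 : K ^ n * K ≤ K ^ n * (K + n) := Nat.mul_le_mul_left _ (Nat.le_add_right K n)
    calc K ^ (n + 1) * (K + (n + 1)) = K ^ n * (K + n) * K + K ^ n * K := by ring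
      _ ≤ K ^ n * (K + n) * K + K ^ n * (K + n) := Nat.add_le_add_left h2 _
      _ = K ^ n * (K + n) * (K + 1) := by ring
      _ ≤ K * (K + 1) ^ n * (K + 1) := h1
      _ = K * (K + 1) ^ (n + 1) := by ring

private theorem NCc_num {K : ℕ} (hK : 2 ≤ K) (s : ℕ) :
    K ^ (s + Lp K s) < (K + 1) ^ Lp K s := by
  have h1 : 2 * K ^ K ≤ (K + 1) ^ K := by
    have h2 := NCc_bern K K
    have h3 : K * (2 * K ^ K) ≤ K * (K + 1) ^ K := by
      calc K * (2 * K ^ K) = K ^ K * (K + K) := by ring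
        _ ≤ K * (K + 1) ^ K := h2
    exact Nat.le_of_mul_le_mul_left h3 (by omega)
  have h4 : 2 ^ (K * s + 1) * K ^ Lp K s ≤ (K + 1) ^ Lp K s := by
    unfold Lp
    calc 2 ^ (K * s + 1) * K ^ (K * (K * s + 1)) = (2 * K ^ K) ^ (K * s + 1) := by
          rw [mul_pow, ← pow_mul]
      _ ≤ ((K + 1) ^ K) ^ (K * s + 1) := Nat.pow_le_pow_left h1 _
      _ = (K + 1) ^ (K * (K * s + 1)) := by rw [← pow_mul]
  have h5 : K ^ s < 2 ^ (K * s + 1) := by
    have h6 : K ^ s ≤ (2 ^ K) ^ s := Nat.pow_le_pow_left Nat.lt_two_pow_self.le s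
    rw [← pow_mul] at h6
    have h7 : 0 < 2 ^ (K * s) := by positivity
    rw [pow_succ]
    omega
  have h8 : 0 < K ^ Lp K s := Nat.pow_pos (by omega)
  rw [pow_add]
  exact (Nat.mul_lt_mul_of_pos_right h5 h8).trans_le h4

/-- Sketch: iterate `nc_step` `L = Lp K s` times: `(K+1)^L |E_L| ≤ |E_0| ≤ n ≤ K^(s+L) |E_L|`
(`sim_large`), so `(K+1)^L ≤ K^(s+L)`.  But `L = K (K s + 1)` and `(K+1)^K ≥ 2 K^K` (Bernoulli), so
`(K+1)^L ≥ 2^(Ks+1) K^L > K^s K^L` (`2^K > K`). -/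
theorem nc_bound (K s S : ℕ) (hS : s + Lp K s + 4 ≤ S) : ∃ n₀ : ℕ,
    ∀ (V : Type) [Fintype V] [DecidableEq V]
    (m : ℕ) (P : PI V m), P.Env K S → n₀ ≤ Fintype.card V → ∀ B : Finset V,
    B.card ≤ s → ∀ w₀ y₀, w₀ ∉ P.Dcl B → y₀ ∉ P.Dcl B → ¬ P.NC B w₀ y₀ (K + 1) := by
  obtain ⟨n₀, h⟩ := nc_step K S
  refine ⟨n₀, fun V _ _ m P hE hn B hB w₀ y₀ hw hy hNC => ?_⟩
  have key : ∀ j, j ≤ Lp K s → ∃ (B' : Finset V) (w y : V), B'.card ≤ s + j ∧ w ∉ P.Dcl B' ∧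
      y ∉ P.Dcl B' ∧ P.NC B' w y (K + 1) ∧
      (K + 1) ^ j * (fs (P.Sim B' w)).card ≤ Fintype.card V := by
    intro j
    induction j with
    | zero =>
      intro _
      refine ⟨B, w₀, y₀, hB, hw, hy, hNC, ?_⟩
      rw [pow_zero, one_mul]
      exact Finset.card_le_univ _
    | succ j ih =>
      intro hj
      obtain ⟨B', w, y, h1, h2, h3, h4, h5⟩ := ih (by omega)
      obtain ⟨x, w₁, y₁, g1, g2, g3, g4⟩ := h V m P hE hn B' (by omega) w y h2 h3 h4
      refine ⟨insert x B', w₁, y₁, (Finset.card_insert_le _ _).trans (by omega), g1, g2, g3, ?_⟩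
      calc (K + 1) ^ (j + 1) * (fs (P.Sim (insert x B') w₁)).card
          = (K + 1) ^ j * ((K + 1) * (fs (P.Sim (insert x B') w₁)).card) := by ring
        _ ≤ (K + 1) ^ j * (fs (P.Sim B' w)).card := Nat.mul_le_mul_left _ g4
        _ ≤ Fintype.card V := h5
  obtain ⟨B', w, y, h1, h2, h3, h4, h5⟩ := key (Lp K s) le_rfl
  have h6 := hE.sim_large (B := B') (by omega) h2
  have hV : 0 < Fintype.card V := Fintype.card_pos_iff.2 ⟨w⟩
  have hK := hE.hK
  have h7 : Fintype.card V ≤ K ^ (s + Lp K s) * (fs (P.Sim B' w)).card :=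
    h6.trans (Nat.mul_le_mul_right _ (Nat.pow_le_pow_right (by omega) h1))
  have h8 : 0 < (fs (P.Sim B' w)).card := by
    rcases Nat.eq_zero_or_pos (fs (P.Sim B' w)).card with h0 | h0
    · rw [h0, mul_zero] at h7
      omega
    · exact h0
  have h9 := Nat.mul_lt_mul_of_pos_right (NCc_num hK s) h8
  omega

end MS216
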