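import Pool.Agent.H.MP_216555_lc.QR

/-!
# Many pairs of a given independent color
-/

set_option linter.unusedSectionVars false

namespace MS216

open Finset Matrix

open Classical in
private theorem Pair_card {V : Type} [Fintype V] [DecidableEq V] (S T : Finset V)
    (R : V → V → Prop) :
    (prs S T R).card = ∑ a ∈ S, ∑ b ∈ T, if R a b then 1 else 0 := by
  unfold prs
  rw [Finset.card_filter, Finset.sum_product]

/-- the full classes contain many pairs of the color -/
private theorem Pair_full {K S : ℕ} {V : Type} [Fintype V] [DecidableEq V]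
    {m : ℕ} {P : PI V m} (hE : P.Env K S) {B : Finset V} (hB : B.card + 2 ≤ S)
    {y t : V} (hi : P.Ind2 B y t) :
    Fintype.card V * Fintype.card V ≤ K ^ S * K ^ S *
      (prs (fs (P.Sim B y)) (fs (P.Sim B t)) (fun a b => P.Tp B [y, t] [a, b])).card := by
  classical
  have hm : B.card + 6 ≤ m := by have := hE.hm; omega
  have hK1 : 0 < K := by have := hE.hK; omega
  have hins : ∀ v : V, (insert v B).card ≤ S := fun v =>
    (Finset.card_insert_le v B).trans (by omega)
  have hpow : ∀ v : V, K ^ (insert v B).card ≤ K ^ S := fun v =>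
    Nat.pow_le_pow_right hK1 (hins v)
  -- the second coordinates
  set T' : Finset V := fs (fun z => P.Sim B t z ∧ P.Tp (insert y B) [t] [z]) with hT'
  have h1 : Fintype.card V ≤ K ^ S * T'.card :=
    (hE.sim_tp_large (Finset.subset_insert y B) (hins y) hi.2).trans
      (Nat.mul_le_mul_right _ (hpow y))
  have h2 : ∀ b ∈ T', Fintype.card V ≤ K ^ S *
      ∑ a ∈ fs (P.Sim B y), (if P.Tp B [y, t] [a, b] then 1 else 0) := by
    intro b hb
    rw [hT', mem_fs] at hb
    have h3 : P.Tp B [y, t] [y, b] := by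
      have h := hb.2
      exact PI.Tp.mono (h) (by simp) (by intro a b hab; simp only [mem_pr, List.zip_cons_cons, List.zip_nil_right, List.mem_cons, List.not_mem_nil, Prod.mk.injEq, Finset.mem_insert, Finset.mem_union, Finset.mem_singleton, Finset.notMem_empty, or_false, and_false, false_or] at hab ⊢; grind)
    have h4 := hE.ind2_symm (by omega) (h3.ind2 hm hi)
    have h5 := hE.sim_tp_large (Finset.subset_insert b B) (hins b) h4.2
    refine h5.trans (Nat.mul_le_mul (hpow b) ?_)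
    rw [← Finset.card_filter]
    apply Finset.card_le_card
    intro z hz
    rw [mem_fs] at hz
    rw [Finset.mem_filter, mem_fs]
    refine ⟨hz.1, ?_⟩
    have h6 : P.Tp B [y, b] [z, b] := by
      have h := hz.2
      exact PI.Tp.mono (h) (by simp) (by intro a b hab; simp only [mem_pr, List.zip_cons_cons, List.zip_nil_right, List.mem_cons, List.not_mem_nil, Prod.mk.injEq, Finset.mem_insert, Finset.mem_union, Finset.mem_singleton, Finset.notMem_empty, or_false, and_false, false_or] at hab ⊢; grind)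
    exact h3.trans h6
  have h3 : Fintype.card V * T'.card ≤ K ^ S *
      (prs (fs (P.Sim B y)) (fs (P.Sim B t)) (fun a b => P.Tp B [y, t] [a, b])).card := by
    rw [Pair_card, Finset.sum_comm]
    have hsub : T' ⊆ fs (P.Sim B t) := by
      intro z hz
      rw [hT', mem_fs] at hz
      rw [mem_fs]
      exact hz.1
    calc Fintype.card V * T'.card = ∑ _b ∈ T', Fintype.card V := by
          rw [Finset.sum_const, smul_eq_mul, mul_comm]
      _ ≤ ∑ b ∈ T', K ^ S * ∑ a ∈ fs (P.Sim B y), (if P.Tp B [y, t] [a, b] then 1 else 0) :=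
          Finset.sum_le_sum h2
      _ = K ^ S * ∑ b ∈ T', ∑ a ∈ fs (P.Sim B y),
            (if P.Tp B [y, t] [a, b] then 1 else 0) := by rw [Finset.mul_sum]
      _ ≤ K ^ S * ∑ b ∈ fs (P.Sim B t), ∑ a ∈ fs (P.Sim B y),
            (if P.Tp B [y, t] [a, b] then 1 else 0) := by
          apply Nat.mul_le_mul_left
          exact Finset.sum_le_sum_of_subset hsub
  calc Fintype.card V * Fintype.card V ≤ Fintype.card V * (K ^ S * T'.card) :=
        Nat.mul_le_mul_left _ h1
    _ = K ^ S * (Fintype.card V * T'.card) := by ring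
    _ ≤ K ^ S * (K ^ S *
      (prs (fs (P.Sim B y)) (fs (P.Sim B t)) (fun a b => P.Tp B [y, t] [a, b])).card) :=
        Nat.mul_le_mul_left _ h3
    _ = _ := by ring

/-- Sketch: (`δ ≤ 1`, otherwise there is no such `S₁`, as `n > 0`.)  `F` = indicator of
`Tp B [y,t] [a,b]`; apply `qr` with `ε = δ²/(4 K^(2S))`: a number `p`.  For the full classes
`S = fs (Sim B y)`, `T = fs (Sim B t)`: `{t' ∈ T : Tp B [y,t] [y,t']}` has at least
`n/K^(|B|+1) ≥ n/K^S` elements (`sim_tp_large` for `B ⊆ insert y B`, `t ∉ Dcl (insert y B)`), and for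
each such `t'`, `{y' ∈ S : Tp B [y,t] [y',t']}` also has at least `n/K^S` elements
(`Ind2 B y t'`, `ind2_symm`, `sim_tp_large` for `B ⊆ insert t' B`).  So
`n²/K^(2S) ≤ p |S| |T| + ε n²`, whence `p ≥ K^(-2S) - ε > 0`, and for `S₁, T₁`:
`p |S₁| |T₁| - ε n² ≥ (K^(-2S) - ε) δ² n² - ε n² ≥ δ²/(2K^(2S)) n²`. -/
theorem pair (K S : ℕ) (δ : ℝ) (hδ : 0 < δ) : ∃ n₀ : ℕ, ∀ (V : Type) [Fintype V] [DecidableEq V]
    (m : ℕ) (P : PI V m), P.Env K S → n₀ ≤ Fintype.card V → ∀ B : Finset V, B.card + 2 ≤ S →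
    ∀ y t, P.Ind2 B y t → ∀ S₁ T₁ : Finset V,
      (∀ a ∈ S₁, P.Sim B y a) → (∀ b ∈ T₁, P.Sim B t b) →
      δ * Fintype.card V ≤ S₁.card → δ * Fintype.card V ≤ T₁.card →
      δ ^ 2 / (2 * (K : ℝ) ^ (2 * S)) * (Fintype.card V : ℝ) ^ 2 ≤
        (prs S₁ T₁ (fun a b => P.Tp B [y, t] [a, b])).card := by
  classical
  by_cases hK : 2 ≤ K
  swap
  · exact ⟨0, fun V _ _ m P hE => absurd hE.hK hK⟩
  have hK0 : (0 : ℝ) < K := by
    have : 0 < K := by omega
    exact_mod_cast this
  set Q : ℝ := (K : ℝ) ^ (2 * S) with hQ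
  have hQ0 : 0 < Q := by positivity
  set ε : ℝ := δ ^ 2 / (4 * Q) with hε
  have hε0 : 0 < ε := by positivity
  obtain ⟨n₀, hn⟩ := qr K S ε hε0
  refine ⟨n₀, ?_⟩
  intro V _ _ m P hE hcard B hB y t hi S₁ T₁ hS hT hS1 hT1
  set n : ℝ := (Fintype.card V : ℝ) with hnn
  have hn0 : 0 < n := by
    have h1 := hE.big
    have h2 : 0 < K ^ (4 * S + 8) := Nat.pow_pos (by omega)
    have h3 : 0 < Fintype.card V := by omega
    rw [hnn]
    exact_mod_cast h3
  have hcl : ∀ A : Finset V, (A.card : ℝ) ≤ n := by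
    intro A
    rw [hnn]
    exact_mod_cast Finset.card_le_univ A
  have hδ1 : δ ≤ 1 := by
    have h1 : δ * n ≤ 1 * n := by rw [one_mul]; exact hS1.trans (hcl S₁)
    exact le_of_mul_le_mul_right h1 hn0
  -- the function
  set F : V → V → ℝ := fun a b => if P.Tp B [y, t] [a, b] then 1 else 0 with hF
  have hinv : P.InvF B F := by
    intro a b a' b' hab
    have h1 : P.Tp B [y, t] [a, b] ↔ P.Tp B [y, t] [a', b'] :=
      ⟨fun h => h.trans hab, fun h => h.trans hab.symm⟩
    simp only [hF, h1]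
  have hF1 : ∀ a b, |F a b| ≤ 1 := by
    intro a b
    simp only [hF]
    split_ifs <;> simp
  have htd : t ∉ P.Dcl B := fun h => hi.2 (PI.dcl_mono (Finset.subset_insert y B) h)
  obtain ⟨p, hp⟩ := hn V m P hE hcard B (by omega) F hinv hF1 y t hi.1 htd
  have hsum : ∀ A C : Finset V, ∑ a ∈ A, ∑ b ∈ C, F a b =
      ((prs A C (fun a b => P.Tp B [y, t] [a, b])).card : ℝ) := by
    intro A C
    rw [Pair_card]
    push_cast
    rfl
  -- the full classes
  have h1 := hp (fs (P.Sim B y)) (fs (P.Sim B t)) (fun a ha => mem_fs.1 ha)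
    (fun b hb => mem_fs.1 hb)
  rw [hsum] at h1
  have h2 : n ^ 2 ≤ Q *
      ((prs (fs (P.Sim B y)) (fs (P.Sim B t)) (fun a b => P.Tp B [y, t] [a, b])).card : ℝ) := by
    have h3 := Pair_full hE hB hi
    have h4 : (Fintype.card V : ℝ) * (Fintype.card V : ℝ) ≤ (K : ℝ) ^ S * (K : ℝ) ^ S *
        ((prs (fs (P.Sim B y)) (fs (P.Sim B t)) (fun a b => P.Tp B [y, t] [a, b])).card : ℝ) := by
      exact_mod_cast h3
    rw [hQ, hnn, pow_two, two_mul, pow_add]
    exact h4
  have h3 := (abs_le.1 h1).2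
  set s : ℝ := ((fs (P.Sim B y)).card : ℝ) with hs
  set u : ℝ := ((fs (P.Sim B t)).card : ℝ) with hu
  have hs0 : 0 ≤ s := by positivity
  have hu0 : 0 ≤ u := by positivity
  have hsn : s ≤ n := hcl _
  have hun : u ≤ n := hcl _
  have hεQ : ε * Q = δ ^ 2 / 4 := by
    rw [hε]
    field_simp
  have hεQ1 : ε * Q < 1 := by
    rw [hεQ]
    nlinarith
  have h4 : n ^ 2 * (1 - ε * Q) ≤ Q * (p * s * u) := by
    nlinarith [mul_le_mul_of_nonneg_left h3 hQ0.le]
  have hsu : s * u ≤ n ^ 2 := by nlinarith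
  have hp1 : (1 - ε * Q) ≤ Q * p := by
    by_contra hcon
    push Not at hcon
    rcases le_or_gt (Q * p) 0 with hneg | hpos
    · have h5 : Q * (p * s * u) ≤ 0 := by
        have : Q * (p * s * u) = Q * p * (s * u) := by ring
        rw [this]
        exact mul_nonpos_of_nonpos_of_nonneg hneg (mul_nonneg hs0 hu0)
      have h6 : 0 < n ^ 2 * (1 - ε * Q) := mul_pos (by positivity) (by linarith)
      linarith
    · have h5 : Q * (p * s * u) ≤ Q * p * n ^ 2 := by
        have : Q * (p * s * u) = Q * p * (s * u) := by ring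
        rw [this]
        exact mul_le_mul_of_nonneg_left hsu hpos.le
      have h6 : Q * p * n ^ 2 < (1 - ε * Q) * n ^ 2 :=
        mul_lt_mul_of_pos_right hcon (by positivity)
      linarith
  -- the small sets
  have h5 := hp S₁ T₁ hS hT
  rw [hsum] at h5
  have h6 := (abs_le.1 h5).1
  set c : ℝ := ((prs S₁ T₁ (fun a b => P.Tp B [y, t] [a, b])).card : ℝ) with hc
  set a : ℝ := (S₁.card : ℝ) with ha
  set b : ℝ := (T₁.card : ℝ) with hb
  have hab : δ ^ 2 * n ^ 2 ≤ a * b := by
    have : δ ^ 2 * n ^ 2 = (δ * n) * (δ * n) := by ring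
    rw [this]
    exact mul_le_mul hS1 hT1 (by positivity) (by positivity)
  have hQp : 0 ≤ 1 - ε * Q := by linarith
  have h7 : (1 - ε * Q) * (δ ^ 2 * n ^ 2) ≤ Q * p * (a * b) :=
    mul_le_mul hp1 hab (by positivity) (hQp.trans hp1)
  have h8 : Q * p * (a * b) ≤ Q * (c + ε * n ^ 2) := by
    have : Q * p * (a * b) = Q * (p * a * b) := by ring
    rw [this]
    apply mul_le_mul_of_nonneg_left _ hQ0.le
    linarith
  have h9 : δ ^ 2 / 2 * n ^ 2 ≤ Q * c := by
    have e1 : Q * (c + ε * n ^ 2) = Q * c + δ ^ 2 / 4 * n ^ 2 := by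
      rw [← hεQ]
      ring
    rw [e1] at h8
    rw [hεQ] at h7
    have e2 : (1 - δ ^ 2 / 4) * (δ ^ 2 * n ^ 2) ≤ Q * c + δ ^ 2 / 4 * n ^ 2 := h7.trans h8
    have e3 : δ ^ 2 ≤ 1 := by nlinarith
    have e4 : 0 ≤ δ ^ 2 * n ^ 2 := by positivity
    nlinarith
  calc δ ^ 2 / (2 * Q) * n ^ 2 = (δ ^ 2 / 2 * n ^ 2) / Q := by field_simp
    _ ≤ (Q * c) / Q := by gcongr
    _ = c := by field_simp

end MS216
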