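import Pool.Agent.H.MP_216555_lc.Count

/-!
# Strong classes are big
-/

set_option linter.unusedSectionVars false

namespace MS216

open Finset

variable {V : Type} [Fintype V] [DecidableEq V] {m : ℕ} {P : PI V m} {K S : ℕ}

/-- A set with at least `|V| / K^s` points (`s ≤ S`) has more than `K^s'` points (`s' ≤ S`). -/
private theorem PI.Env.not_small (hE : P.Env K S) {s s' t : ℕ} (hs : s ≤ S) (hs' : s' ≤ S)
    (h : Fintype.card V ≤ K ^ s * t) (ht : t ≤ K ^ s') : False := by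
  have hK := hE.hK
  have h1 : K ^ (4 * S + 8) ≤ K ^ (s + s') := by
    calc K ^ (4 * S + 8) ≤ Fintype.card V := hE.big
      _ ≤ K ^ s * t := h
      _ ≤ K ^ s * K ^ s' := Nat.mul_le_mul_left _ ht
      _ = K ^ (s + s') := (pow_add _ _ _).symm
  have h2 : 4 * S + 8 ≤ s + s' := (Nat.pow_le_pow_iff_right (by omega)).1 h1
  omega

/-- Sketch: among all `InvEq B e` in which `y` is not alone (the orbit relation is one) take
`e₀` with `(fs (e₀ y)).card` minimal.  For any other such `e`, `e₀ ∧ e` is again one: the class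
`fs (e₀ y)` has `≥ |V|/K^|B| > K^|B|` points, none of them alone in its `e`-class
(`InvEq.nonid`; all are in the orbit of `y`), so by `few` two of them, `x ≠ x'`, have
`e x x'`; transfer from `x` to `y` by `InvEq.nonid` for `e₀ ∧ e`.  By minimality the class of `y`
in `e₀ ∧ e` is all of `fs (e₀ y)`.  So any `z ≠ y` with `e₀ y z` works. -/
theorem PI.Env.sim_nontriv (hE : P.Env K S) {B : Finset V} (hB : B.card ≤ S) {y : V}
    (hy : y ∉ P.Dcl B) : ∃ z, z ≠ y ∧ P.Sim B y z := by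
  classical
  have hm : B.card + 6 ≤ m := by have := hE.hm; omega
  -- the set of sizes
  have hne : ∃ n : ℕ, ∃ e : V → V → Prop, P.InvEq B e ∧ (∃ z, z ≠ y ∧ e y z) ∧
      (fs (e y)).card = n := by
    obtain ⟨y', hy', ht⟩ := PI.not_dcl.1 hy
    exact ⟨_, _, PI.invEq_orbit hm, ⟨y', hy', ht⟩, rfl⟩
  obtain ⟨e₀, he₀, ⟨z₀, hz₀, hez₀⟩, hcard⟩ := Nat.find_spec hne
  have hmin : ∀ e : V → V → Prop, P.InvEq B e → (∃ z, z ≠ y ∧ e y z) →
      (fs (e₀ y)).card ≤ (fs (e y)).card := by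
    intro e he hz
    rw [hcard]
    exact Nat.find_min' hne ⟨e, he, hz, rfl⟩
  refine ⟨z₀, hz₀, he₀.tp _ _ hez₀, ?_⟩
  rintro e he ⟨z', hz', hez'⟩
  -- two e-equivalent points in the e₀-class
  have hlarge : Fintype.card V ≤ K ^ B.card * (fs (e₀ y)).card :=
    hE.large B hB e₀ he₀ y z₀ hz₀ hez₀
  have hnt : ∀ t ∈ fs (e₀ y), ∃ z, z ≠ t ∧ e t z := by
    intro t ht
    rw [mem_fs] at ht
    exact he.nonid hm (he₀.tp _ _ ht) hz' hez'
  have hex : ∃ x ∈ fs (e₀ y), ∃ x' ∈ fs (e₀ y), e x x' ∧ x ≠ x' := by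
    by_contra hcon
    push Not at hcon
    exact hE.not_small hB hB hlarge (hE.few hB he (fs (e₀ y)) hnt hcon)
  obtain ⟨x, hx, x', hx', hexx, hxx⟩ := hex
  rw [mem_fs] at hx hx'
  have hand : P.InvEq B (fun a b => e₀ a b ∧ e a b) := he₀.and he (Finset.Subset.refl _)
  have hxy : P.Tp B [x] [y] := (he₀.tp _ _ hx).symm
  have hand' : ∃ z, z ≠ y ∧ (e₀ y z ∧ e y z) :=
    hand.nonid hm hxy (Ne.symm hxx) ⟨he₀.equiv.trans (he₀.equiv.symm hx) hx', hexx⟩
  have hle := hmin _ hand hand'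
  have hsub : fs (fun b => e₀ y b ∧ e y b) ⊆ fs (e₀ y) := by
    intro b hb
    rw [mem_fs] at hb ⊢
    exact hb.1
  have heq := Finset.eq_of_subset_of_card_le hsub hle
  have hz₀' : z₀ ∈ fs (fun b => e₀ y b ∧ e y b) := by
    rw [heq, mem_fs]
    exact hez₀
  rw [mem_fs] at hz₀'
  exact hz₀'.2

theorem PI.Env.sim_large (hE : P.Env K S) {B : Finset V} (hB : B.card ≤ S) {y : V}
    (hy : y ∉ P.Dcl B) : Fintype.card V ≤ K ^ B.card * (fs (P.Sim B y)).card := by
  have hm : B.card + 6 ≤ m := by have := hE.hm; omega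
  obtain ⟨z, hz, hs⟩ := hE.sim_nontriv hB hy
  exact hE.large B hB _ (PI.sim_invEq hm) y z hz hs

/-- `pigeon`. -/
theorem PI.Env.sim_mono (hE : P.Env K S) {B B' : Finset V} (hBB : B ⊆ B') (hB : B'.card ≤ S)
    {y z : V} (hy : y ∉ P.Dcl B') (h : P.Sim B' y z) : P.Sim B y z := by
  have hm : B'.card + 6 ≤ m := by have := hE.hm; omega
  refine ⟨?_, ?_⟩
  · refine PI.Tp.mono h.1 rfl ?_
    intro a b hab
    rw [mem_pr] at hab ⊢
    rcases hab with ⟨rfl, h⟩ | h
    · exact Or.inl ⟨rfl, hBB h⟩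
    · exact Or.inr h
  · rintro e he ⟨z', hz', hez'⟩
    obtain ⟨z'', hz'', hez'', ht⟩ := hE.pigeon hBB hB he hy hz' hez'
    exact (h.2 _ (he.and (PI.invEq_orbit hm) hBB) ⟨z'', hz'', hez'', ht⟩).1

/-- The intersection of a strong class over `B` with an orbit over `B' ⊇ B` is big
(`pigeon` for `e = Sim B`, `InvEq.and`, `Env.large`). -/
theorem PI.Env.sim_tp_large (hE : P.Env K S) {B B' : Finset V} (hBB : B ⊆ B')
    (hB : B'.card ≤ S) {y : V} (hy : y ∉ P.Dcl B') :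
    Fintype.card V ≤ K ^ B'.card * (fs (fun z => P.Sim B y z ∧ P.Tp B' [y] [z])).card := by
  have hm : B'.card + 6 ≤ m := by have := hE.hm; omega
  have hc : B.card ≤ B'.card := Finset.card_le_card hBB
  have hyB : y ∉ P.Dcl B := fun h => hy (PI.dcl_mono hBB h)
  have hs : P.InvEq B (P.Sim B) := PI.sim_invEq (by omega)
  obtain ⟨z, hz, hyz⟩ := hE.sim_nontriv (B := B) (by omega) hyB
  obtain ⟨z', hz', hs', ht'⟩ := hE.pigeon hBB hB hs hy hz hyz
  exact hE.large B' hB _ (hs.and (PI.invEq_orbit hm) hBB) y z' hz' ⟨hs', ht'⟩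

/-- A set with more than `K^S` points (here: at least `|V| / K^S`) contains a point outside
`Dcl B`. -/
theorem PI.Env.exists_notMem_dcl (hE : P.Env K S) {B : Finset V} (hB : B.card ≤ S)
    (T : Finset V) (hT : Fintype.card V ≤ K ^ S * T.card) : ∃ x ∈ T, x ∉ P.Dcl B := by
  by_contra hcon
  push Not at hcon
  have hsub : T ⊆ fs (fun y => y ∈ P.Dcl B) := by
    intro t ht
    rw [mem_fs]
    exact hcon t ht
  exact hE.not_small le_rfl hB hT ((Finset.card_le_card hsub).trans (hE.dcl_card hB))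

/-- Every strong class (of a point outside `Dcl B`, `|B| ≤ S`) has points outside `Dcl B'`,
`|B'| ≤ S`. -/
theorem PI.Env.exists_sim_notMem_dcl (hE : P.Env K S) {B B' : Finset V} (hB : B.card ≤ S)
    (hB' : B'.card ≤ S) {y : V} (hy : y ∉ P.Dcl B) : ∃ x, P.Sim B y x ∧ x ∉ P.Dcl B' := by
  have hK := hE.hK
  have h := hE.sim_large hB hy
  have h2 : Fintype.card V ≤ K ^ S * (fs (P.Sim B y)).card :=
    h.trans (Nat.mul_le_mul_right _ (Nat.pow_le_pow_right (by omega) hB))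
  obtain ⟨x, hx, hx'⟩ := hE.exists_notMem_dcl hB' (fs (P.Sim B y)) h2
  exact ⟨x, mem_fs.1 hx, hx'⟩

end MS216
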