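import Pool.Agent.H.MP_216555_lc.Pair
import Pool.Agent.H.MP_216555_lc.SimM

/-!
# Independent pairs of a given color; lifting colors to larger bases
-/

set_option linter.unusedSectionVars false

namespace MS216

open Finset Matrix

private theorem pairInd_count {K S : ℕ} {V : Type} [Fintype V] [DecidableEq V]
    {m : ℕ} {P : PI V m} (hE : P.Env K S) {B' : Finset V} (hB : B'.card + 2 ≤ S)
    (Q : Finset (V × V)) (hQ : ∀ a b, (a, b) ∈ Q → ¬ P.Ind2 B' a b) :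
    Q.card ≤ 2 * K ^ S * Fintype.card V := by
  classical
  have hK : 1 ≤ K := by have := hE.hK; omega
  have h1 : Q ⊆ (fs (fun y => y ∈ P.Dcl B')) ×ˢ (univ : Finset V) ∪
      (univ : Finset V).biUnion (fun a =>
        (fs (fun y => y ∈ P.Dcl (insert a B'))).image fun b => (a, b)) := by
    rintro ⟨a, b⟩ hab
    rw [Finset.mem_union]
    have h2 := hQ a b hab
    by_cases h3 : a ∈ P.Dcl B'
    · left
      simp [h3]
    · right
      have h4 : b ∈ P.Dcl (insert a B') := by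
        by_contra h5
        exact h2 ⟨h3, h5⟩
      simp [h4]
  have h2 : (fs (fun y => y ∈ P.Dcl B')).card ≤ K ^ S :=
    (hE.dcl_card (by omega)).trans (Nat.pow_le_pow_right hK (by omega))
  have h3 : ∀ a : V, ((fs (fun y => y ∈ P.Dcl (insert a B'))).image fun b => (a, b)).card
      ≤ K ^ S := by
    intro a
    have h4 : (insert a B').card ≤ S := (Finset.card_insert_le _ _).trans (by omega)
    exact Finset.card_image_le.trans
      ((hE.dcl_card h4).trans (Nat.pow_le_pow_right hK h4))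
  calc Q.card ≤ _ := Finset.card_le_card h1
    _ ≤ _ := Finset.card_union_le _ _
    _ ≤ K ^ S * Fintype.card V + Fintype.card V * K ^ S := by
      refine Nat.add_le_add ?_ ?_
      · rw [Finset.card_product, Finset.card_univ]
        exact Nat.mul_le_mul_right _ h2
      · refine Finset.card_biUnion_le.trans ((Finset.sum_le_card_nsmul _ _ _ fun a _ => h3 a).trans ?_)
        rw [Finset.card_univ, smul_eq_mul]
    _ = 2 * K ^ S * Fintype.card V := by ring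

/-- `pair` gives `≥ c n²` pairs; at most `2 K^S n` pairs `(a,b)` are not `Ind2 B'`
(`dcl_card`: `|Dcl B'| ≤ K^S`, `|Dcl (insert a B')| ≤ K^S`). -/
theorem pair_ind (K S : ℕ) (δ : ℝ) (hδ : 0 < δ) : ∃ n₀ : ℕ,
    ∀ (V : Type) [Fintype V] [DecidableEq V]
    (m : ℕ) (P : PI V m), P.Env K S → n₀ ≤ Fintype.card V → ∀ B B' : Finset V, B ⊆ B' →
    B'.card + 2 ≤ S →
    ∀ y t, P.Ind2 B y t → ∀ S₁ T₁ : Finset V,
      (∀ a ∈ S₁, P.Sim B y a) → (∀ b ∈ T₁, P.Sim B t b) →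
      δ * Fintype.card V ≤ S₁.card → δ * Fintype.card V ≤ T₁.card →
      ∃ a ∈ S₁, ∃ b ∈ T₁, P.Tp B [y, t] [a, b] ∧ P.Ind2 B' a b := by
  obtain ⟨n₁, hn₁⟩ := pair K S δ hδ
  refine ⟨max n₁ (⌈2 * (K : ℝ) ^ S / (δ ^ 2 / (2 * (K : ℝ) ^ (2 * S)))⌉₊ + 1), ?_⟩
  intro V _ _ m P hE hn B B' hBB hB y t hyt S₁ T₁ hS hT hS1 hT1
  have hcard := Finset.card_le_card hBB
  have h1 := hn₁ V m P hE ((le_max_left _ _).trans hn) B (by omega) y t hyt S₁ T₁ hS hT hS1 hT1
  by_contra hcon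
  push Not at hcon
  have h2 := pairInd_count hE hB (prs S₁ T₁ (fun a b => P.Tp B [y, t] [a, b])) (by
    intro a b hab
    rw [mem_prs] at hab
    exact hcon a hab.1 b hab.2.1 hab.2.2)
  have hK : (2 : ℝ) ≤ K := by exact_mod_cast hE.hK
  obtain ⟨c, hc⟩ : ∃ c : ℝ, c = δ ^ 2 / (2 * (K : ℝ) ^ (2 * S)) := ⟨_, rfl⟩
  have hc0 : 0 < c := by rw [hc]; positivity
  rw [← hc] at h1 hn
  have h3 : 2 * (K : ℝ) ^ S / c < Fintype.card V := by
    have h4 : ⌈2 * (K : ℝ) ^ S / c⌉₊ + 1 ≤ Fintype.card V := (le_max_right _ _).trans hn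
    have h5 := Nat.le_ceil (2 * (K : ℝ) ^ S / c)
    have h6 : ((⌈2 * (K : ℝ) ^ S / c⌉₊ + 1 : ℕ) : ℝ) ≤ Fintype.card V := by exact_mod_cast h4
    push_cast at h6
    linarith
  have h4 : ((prs S₁ T₁ (fun a b => P.Tp B [y, t] [a, b])).card : ℝ) ≤
      2 * (K : ℝ) ^ S * Fintype.card V := by exact_mod_cast h2
  have hn0 : (0 : ℝ) < Fintype.card V := lt_of_le_of_lt (by positivity) h3
  rw [div_lt_iff₀ hc0] at h3
  have h5 := h1.trans h4
  have h6 : 2 * (K : ℝ) ^ S * Fintype.card V < Fintype.card V * c * Fintype.card V :=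
    mul_lt_mul_of_pos_right h3 hn0
  nlinarith

/-- `pair_ind` with `δ = 1/K^S`, `S₁ = fs (Sim B' w₁)`, `T₁ = fs (Sim B' y₁)` (`sim_large`,
`sim_mono`). -/
theorem lift (K S : ℕ) : ∃ n₀ : ℕ, ∀ (V : Type) [Fintype V] [DecidableEq V]
    (m : ℕ) (P : PI V m), P.Env K S → n₀ ≤ Fintype.card V → ∀ B B' : Finset V, B ⊆ B' →
    B'.card + 2 ≤ S → ∀ w y w₁ y₁, P.Ind2 B w y → w₁ ∉ P.Dcl B' → y₁ ∉ P.Dcl B' →
      P.Sim B w w₁ → P.Sim B y y₁ →
      ∃ w' y', P.Sim B' w₁ w' ∧ P.Sim B' y₁ y' ∧ P.Ind2 B' w' y' ∧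
        P.Tp B [w, y] [w', y'] := by
  by_cases hK : 2 ≤ K
  swap
  · exact ⟨0, fun V _ _ m P hE => absurd hE.hK hK⟩
  have hK0 : (0 : ℝ) < (K : ℝ) := by
    have : (2 : ℝ) ≤ K := by exact_mod_cast hK
    linarith
  obtain ⟨n₀, hn₀⟩ := pair_ind K S (1 / (K : ℝ) ^ S) (by positivity)
  refine ⟨n₀, ?_⟩
  intro V _ _ m P hE hn B B' hBB hB w y w₁ y₁ hwy hw₁ hy₁ hsw hsy
  have hcard := Finset.card_le_card hBB
  have hm := hE.hm
  have key : ∀ x : V, x ∉ P.Dcl B' →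
      1 / (K : ℝ) ^ S * Fintype.card V ≤ (fs (P.Sim B' x)).card := by
    intro x hx
    have h1 := hE.sim_large (by omega : B'.card ≤ S) hx
    have h2 : Fintype.card V ≤ K ^ S * (fs (P.Sim B' x)).card :=
      h1.trans (Nat.mul_le_mul_right _ (Nat.pow_le_pow_right (by omega) (by omega)))
    have h3 : (Fintype.card V : ℝ) ≤ (K : ℝ) ^ S * (fs (P.Sim B' x)).card := by
      exact_mod_cast h2
    rw [one_div, inv_mul_le_iff₀ (by positivity)]
    exact h3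
  obtain ⟨a, ha, b, hb, h1, h2⟩ := hn₀ V m P hE hn B B' hBB hB w y hwy (fs (P.Sim B' w₁))
    (fs (P.Sim B' y₁)) (by
      intro a ha
      rw [mem_fs] at ha
      exact hsw.trans (by omega) (hE.sim_mono hBB (by omega) hw₁ ha)) (by
      intro b hb
      rw [mem_fs] at hb
      exact hsy.trans (by omega) (hE.sim_mono hBB (by omega) hy₁ hb)) (key _ hw₁) (key _ hy₁)
  rw [mem_fs] at ha hb
  exact ⟨a, b, ha, hb, h2, h1⟩

end MS216
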