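import Mathlib

/-!
# Spectral lemma (no schemes here; pure linear algebra over ℝ)
-/

namespace MS216

open Matrix Finset Polynomial

/-- The value of a polynomial at a matrix conjugate to a diagonal matrix. -/
private theorem aeval_conj {V : Type} [Fintype V] [DecidableEq V] {U W : Matrix V V ℝ} (hWU : W * U = 1) (hUW : U * W = 1) (d : V → ℝ)
    (p : ℝ[X]) :
    aeval (U * diagonal d * W) p = U * diagonal (fun i => p.eval (d i)) * W := by
  have hpow : ∀ k : ℕ, (U * diagonal d * W) ^ k = U * diagonal (fun i => d i ^ k) * W := by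
    intro k
    induction k with
    | zero => simp [hUW]
    | succ k ih =>
      rw [pow_succ, ih]
      calc U * diagonal (fun i => d i ^ k) * W * (U * diagonal d * W)
          = U * diagonal (fun i => d i ^ k) * (W * U) * diagonal d * W := by
            simp only [Matrix.mul_assoc]
        _ = U * (diagonal (fun i => d i ^ k) * diagonal d) * W := by
            rw [hWU, Matrix.mul_one]
            simp only [Matrix.mul_assoc]
        _ = U * diagonal (fun i => d i ^ (k + 1)) * W := by
            rw [diagonal_mul_diagonal]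
            simp only [pow_succ]
  induction p using Polynomial.induction_on' with
  | add p q hp hq =>
    rw [map_add, hp, hq]
    have : (diagonal fun i => (p + q).eval (d i)) =
        (diagonal fun i => p.eval (d i)) + diagonal fun i => q.eval (d i) := by
      rw [diagonal_add]
      simp
    rw [this, Matrix.mul_add, Matrix.add_mul]
  | monomial k a =>
    rw [aeval_monomial, hpow, Algebra.algebraMap_eq_smul_one, smul_one_mul]
    have : (diagonal fun i => (monomial k a).eval (d i)) = a • diagonal fun i => d i ^ k := by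
      rw [← diagonal_smul]
      congr 1
      funext i
      simp [eval_monomial]
    rw [this, Matrix.mul_smul, Matrix.smul_mul]

/-- Spectral projection.  `M = A * Aᵀ` is symmetric and positive semidefinite; `n = |V|`,
`θ = ε² n²`; `q` is a polynomial with `q λ = 1` for the eigenvalues `λ ≥ θ` and `q λ = 0` for
the others (Lagrange interpolation).  `E = q(M)` is `U diag(0/1) Uᵀ`: symmetric, idempotent,
`rank E · θ ≤ trace M = ∑ A i j ^ 2 ≤ n²`, and
`|Aᵀ(x - Ex)|² = (x-Ex)ᵀ M (x-Ex) ≤ θ |x|²`. -/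
theorem spec {V : Type} [Fintype V] [DecidableEq V] (A : Matrix V V ℝ)
    (hA : ∀ i j, |A i j| ≤ 1) (ε : ℝ) (hε : 0 < ε) :
    ∃ q : Polynomial ℝ, ∃ E : Matrix V V ℝ, E = Polynomial.aeval (A * Aᵀ) q ∧
      Eᵀ = E ∧ E * E = E ∧ (E.rank : ℝ) ≤ 1 / ε ^ 2 ∧
      ∀ x : V → ℝ, (Aᵀ *ᵥ (x - E *ᵥ x)) ⬝ᵥ (Aᵀ *ᵥ (x - E *ᵥ x)) ≤
        (ε * Fintype.card V) ^ 2 * (x ⬝ᵥ x) := by
  classical
  set n : ℝ := (Fintype.card V : ℝ) with hn
  have hH : (A * Aᵀ).IsHermitian := by
    have := isHermitian_mul_conjTranspose_self A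
    rwa [conjTranspose_eq_transpose_of_trivial] at this
  set U : Matrix V V ℝ := (hH.eigenvectorUnitary : Matrix V V ℝ) with hU
  set d : V → ℝ := hH.eigenvalues with hd
  have hUW : U * Uᵀ = 1 := by
    have := (Matrix.mem_unitaryGroup_iff).mp hH.eigenvectorUnitary.2
    rwa [star_eq_conjTranspose, conjTranspose_eq_transpose_of_trivial] at this
  have hWU : Uᵀ * U = 1 := by
    have := (Matrix.mem_unitaryGroup_iff').mp hH.eigenvectorUnitary.2
    rwa [star_eq_conjTranspose, conjTranspose_eq_transpose_of_trivial] at this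
  have hdec : A * Aᵀ = U * diagonal d * Uᵀ := by
    have := hH.spectral_theorem
    rw [Unitary.conjStarAlgAut_apply] at this
    rw [this]
    simp [hU, hd, star_eq_conjTranspose, conjTranspose_eq_transpose_of_trivial]
  set θ : ℝ := (ε * n) ^ 2 with hθ
  set q : ℝ[X] := Lagrange.interpolate (univ.image d) id (fun t => if θ ≤ t then 1 else 0) with hq
  have hqe : ∀ i, q.eval (d i) = if θ ≤ d i then 1 else 0 := by
    intro i
    rw [hq]
    have := Lagrange.eval_interpolate_at_node (s := univ.image d) (v := id)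
      (fun t : ℝ => if θ ≤ t then (1 : ℝ) else 0) (Function.injective_id.injOn)
      (mem_image_of_mem d (mem_univ i))
    simpa using this
  set E : Matrix V V ℝ := aeval (A * Aᵀ) q with hE
  refine ⟨q, E, hE, ?_⟩
  set χ : V → ℝ := fun i => if θ ≤ d i then 1 else 0 with hχ
  have hEd : E = U * diagonal χ * Uᵀ := by
    rw [hE, hdec, aeval_conj hWU hUW]
    simp only [hqe]
    rfl
  have hd0 : ∀ i, 0 ≤ d i := by
    intro i
    have : (A * Aᵀ).PosSemidef := by
      have := posSemidef_self_mul_conjTranspose A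
      rwa [conjTranspose_eq_transpose_of_trivial] at this
    exact this.eigenvalues_nonneg i
  refine ⟨?_, ?_, ?_, ?_⟩
  · rw [hEd, transpose_mul, transpose_mul, transpose_transpose, diagonal_transpose,
      Matrix.mul_assoc]
  · rw [hEd]
    calc U * diagonal χ * Uᵀ * (U * diagonal χ * Uᵀ)
        = U * diagonal χ * (Uᵀ * U) * diagonal χ * Uᵀ := by simp only [Matrix.mul_assoc]
      _ = U * (diagonal χ * diagonal χ) * Uᵀ := by
          rw [hWU, Matrix.mul_one]
          simp only [Matrix.mul_assoc]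
      _ = U * diagonal χ * Uᵀ := by
          rw [diagonal_mul_diagonal]
          congr 3
          funext i
          simp only [hχ]
          split_ifs <;> norm_num
  · -- the rank
    have h1 : E.rank ≤ (univ.filter fun i => θ ≤ d i).card := by
      rw [hEd]
      calc (U * diagonal χ * Uᵀ).rank ≤ (U * diagonal χ).rank := rank_mul_le_left _ _
        _ ≤ (diagonal χ).rank := rank_mul_le_right _ _
        _ = Fintype.card {i // χ i ≠ 0} := rank_diagonal _
        _ ≤ _ := by
          rw [Fintype.card_subtype]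
          apply card_le_card
          intro i hi
          rw [mem_filter] at hi ⊢
          refine ⟨mem_univ _, ?_⟩
          by_contra h
          apply hi.2
          simp only [hχ, if_neg h]
    have h2 : ∑ i, d i = ∑ i, ∑ j, A i j ^ 2 := by
      have h3 := hH.trace_eq_sum_eigenvalues
      have h4 : (A * Aᵀ).trace = ∑ i, ∑ j, A i j ^ 2 := by
        simp only [Matrix.trace, diag_apply, mul_apply, transpose_apply]
        simp only [← sq]
      rw [← h4, h3]
      simp [hd]
    have h3 : ∑ i, ∑ j, A i j ^ 2 ≤ n ^ 2 := by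
      calc ∑ i, ∑ j, A i j ^ 2 ≤ ∑ _i : V, ∑ _j : V, (1 : ℝ) := by
            apply sum_le_sum
            intro i _
            apply sum_le_sum
            intro j _
            rw [sq_le_one_iff_abs_le_one]
            exact hA i j
        _ = n ^ 2 := by
            simp [hn, sq]
    have h4 : θ * (univ.filter fun i => θ ≤ d i).card ≤ n ^ 2 := by
      calc θ * (univ.filter fun i => θ ≤ d i).card = ∑ i ∈ univ.filter (fun i => θ ≤ d i), θ := by
            rw [sum_const, nsmul_eq_mul, mul_comm]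
        _ ≤ ∑ i ∈ univ.filter (fun i => θ ≤ d i), d i := by
            apply sum_le_sum
            intro i hi
            exact (mem_filter.mp hi).2
        _ ≤ ∑ i, d i := sum_le_sum_of_subset_of_nonneg (filter_subset _ _) fun i _ _ => hd0 i
        _ ≤ n ^ 2 := h2 ▸ h3
    have h5 : (E.rank : ℝ) ≤ (univ.filter fun i => θ ≤ d i).card := by exact_mod_cast h1
    refine h5.trans ?_
    rcases isEmpty_or_nonempty V with he | he
    · have : (univ.filter fun i => θ ≤ d i) = ∅ := by
        apply Finset.eq_empty_of_forall_notMem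
        intro i
        exact (he.false i).elim
      rw [this, card_empty, Nat.cast_zero]
      positivity
    · have hn0 : 0 < n := by
        rw [hn]
        exact_mod_cast Fintype.card_pos
      rw [le_div_iff₀ (by positivity)]
      have h6 : θ = ε ^ 2 * n ^ 2 := by rw [hθ, mul_pow]
      rw [h6] at h4 ⊢
      have h7 : 0 < n ^ 2 := by positivity
      have h8 : ((univ.filter fun i => ε ^ 2 * n ^ 2 ≤ d i).card : ℝ) * ε ^ 2 * n ^ 2
          ≤ 1 * n ^ 2 := by nlinarith
      exact le_of_mul_le_mul_right h8 h7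
  · intro x
    have hsq : ∀ y : V → ℝ, y ⬝ᵥ y = ∑ i, y i ^ 2 := by
      intro y
      simp only [dotProduct, sq]
    rw [hsq, hsq]
    -- the quadratic form
    have hq1 : ∀ y : V → ℝ, ∑ i, ((Aᵀ *ᵥ y) i) ^ 2 = ∑ i, d i * ((Uᵀ *ᵥ y) i) ^ 2 := by
      intro y
      have h1 : ∑ i, ((Aᵀ *ᵥ y) i) ^ 2 = y ⬝ᵥ ((A * Aᵀ) *ᵥ y) := by
        have : ∑ i, ((Aᵀ *ᵥ y) i) ^ 2 = (Aᵀ *ᵥ y) ⬝ᵥ (Aᵀ *ᵥ y) := by
          simp only [dotProduct, sq]
        rw [this, ← mulVec_mulVec, dotProduct_mulVec y, ← mulVec_transpose]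
      have h2 : y ⬝ᵥ ((A * Aᵀ) *ᵥ y) = ∑ i, d i * ((Uᵀ *ᵥ y) i) ^ 2 := by
        rw [hdec, Matrix.mul_assoc, ← mulVec_mulVec, dotProduct_mulVec, ← mulVec_transpose,
          ← mulVec_mulVec]
        simp only [dotProduct, mulVec_diagonal]
        apply sum_congr rfl
        intro i _
        ring
      rw [h1, h2]
    have hq2 : ∀ y : V → ℝ, ∑ i, ((Uᵀ *ᵥ y) i) ^ 2 = ∑ i, y i ^ 2 := by
      intro y
      have h1 : ∑ i, ((Uᵀ *ᵥ y) i) ^ 2 = (Uᵀ *ᵥ y) ⬝ᵥ (Uᵀ *ᵥ y) := by
        simp only [dotProduct, sq]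
      have h2 : ∑ i, y i ^ 2 = y ⬝ᵥ y := by
        simp only [dotProduct, sq]
      rw [h1, h2, dotProduct_mulVec, ← mulVec_transpose, transpose_transpose, mulVec_mulVec,
        hUW, one_mulVec]
    have h3 : ∀ i, (Uᵀ *ᵥ (x - E *ᵥ x)) i = (1 - χ i) * (Uᵀ *ᵥ x) i := by
      intro i
      have : Uᵀ *ᵥ (x - E *ᵥ x) = Uᵀ *ᵥ x - diagonal χ *ᵥ (Uᵀ *ᵥ x) := by
        rw [mulVec_sub, hEd, mulVec_mulVec, ← Matrix.mul_assoc, ← Matrix.mul_assoc, hWU,
          Matrix.one_mul, ← mulVec_mulVec]
      rw [this, Pi.sub_apply, mulVec_diagonal]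
      ring
    rw [hq1, ← hq2 x, mul_sum]
    apply sum_le_sum
    intro i _
    rw [h3 i]
    by_cases h : θ ≤ d i
    · have : χ i = 1 := by simp only [hχ, if_pos h]
      rw [this, sub_self, zero_mul]
      have : 0 ≤ θ * ((Uᵀ *ᵥ x) i) ^ 2 := by positivity
      simpa using this
    · have h4 : χ i = 0 := by simp only [hχ, if_neg h]
      rw [h4, sub_zero, one_mul]
      exact mul_le_mul_of_nonneg_right (le_of_lt (not_le.mp h)) (sq_nonneg _)

end MS216
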