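import Pool.Agent.H.MP_216555_lc.Rows
import Pool.Agent.H.MP_216555_lc.Spec

/-!
# Quasirandomness between strong classes
-/

set_option linter.unusedSectionVars false

namespace MS216

open Finset Matrix Polynomial

/-- The error term of the spectral truncation on rectangles. -/
private theorem rect {V : Type} [Fintype V] [DecidableEq V] (F : Matrix V V ℝ) (hF : ∀ i j, |F i j| ≤ 1) (ε : ℝ) (hε : 0 < ε) :
    ∃ q q' : ℝ[X],
      ((aeval (F * Fᵀ) q).rank : ℝ) ≤ 1 / ε ^ 2 ∧ ((aeval (Fᵀ * F) q').rank : ℝ) ≤ 1 / ε ^ 2 ∧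
      ∀ Y Z : Finset V, (∀ a ∈ Y, ∀ b ∈ Y, aeval (F * Fᵀ) q a = aeval (F * Fᵀ) q b) →
        (∀ a ∈ Z, ∀ b ∈ Z, aeval (Fᵀ * F) q' a = aeval (Fᵀ * F) q' b) →
        ∃ p : ℝ, ∀ S ⊆ Y, ∀ T ⊆ Z, |∑ a ∈ S, ∑ b ∈ T, F a b - p * S.card * T.card| ≤
          2 * ε * (Fintype.card V : ℝ) ^ 2 := by
  classical
  obtain ⟨q, E, hE, hqs, hqi, hqr, hqn₀⟩ := spec F hF ε hε
  obtain ⟨q', E', hE', hqs', hqi', hqr', hqn₀'⟩ := spec Fᵀ (fun i j => hF j i) ε hε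
  rw [transpose_transpose] at hE'
  simp only [transpose_transpose] at hqn₀'
  have hsq : ∀ y : V → ℝ, y ⬝ᵥ y = ∑ i, y i ^ 2 := by
    intro y
    simp only [dotProduct, _root_.sq]
  have hqn : ∀ x : V → ℝ, ∑ i, ((Fᵀ *ᵥ (x - E *ᵥ x)) i) ^ 2 ≤
      (ε * Fintype.card V) ^ 2 * ∑ i, x i ^ 2 := by
    intro x
    rw [← hsq, ← hsq]
    exact hqn₀ x
  have hqn' : ∀ x : V → ℝ, ∑ i, ((F *ᵥ (x - E' *ᵥ x)) i) ^ 2 ≤
      (ε * Fintype.card V) ^ 2 * ∑ i, x i ^ 2 := by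
    intro x
    rw [← hsq, ← hsq]
    exact hqn₀' x
  rw [hE] at hqr
  rw [hE'] at hqr'
  refine ⟨q, q', hqr, hqr', ?_⟩
  rw [← hE, ← hE']
  intro Y Z hY hZ
  set n : ℝ := (Fintype.card V : ℝ) with hn
  have hn0 : 0 ≤ n := Nat.cast_nonneg _
  -- the constant
  have hconst : ∃ p : ℝ, ∀ a ∈ Y, ∀ b ∈ Z, (E * F * E') a b = p := by
    rcases Y.eq_empty_or_nonempty with rfl | ⟨a₀, ha₀⟩
    · exact ⟨0, by simp⟩
    rcases Z.eq_empty_or_nonempty with rfl | ⟨b₀, hb₀⟩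
    · exact ⟨0, by simp⟩
    refine ⟨(E * F * E') a₀ b₀, ?_⟩
    intro a ha b hb
    have h1 : ∀ c, (E * F) a c = (E * F) a₀ c := by
      intro c
      simp only [mul_apply]
      rw [hY a ha a₀ ha₀]
    have h2 : ∀ c, E' c b = E' c b₀ := by
      intro c
      have e1 : E' c b = E' b c := by
        conv_lhs => rw [← hqs']
        rfl
      have e2 : E' c b₀ = E' b₀ c := by
        conv_lhs => rw [← hqs']
        rfl
      rw [e1, e2, hZ b hb b₀ hb₀]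
    rw [mul_apply, mul_apply]
    apply sum_congr rfl
    intro c _
    rw [h1, h2]
  obtain ⟨p, hp⟩ := hconst
  refine ⟨p, ?_⟩
  intro S hS T hT
  set x : V → ℝ := fun a => if a ∈ S then 1 else 0 with hx
  set y : V → ℝ := fun a => if a ∈ T then 1 else 0 with hy
  have hind : ∀ M : Matrix V V ℝ, ∑ a ∈ S, ∑ b ∈ T, M a b = x ⬝ᵥ (M *ᵥ y) := by
    intro M
    simp only [dotProduct, mulVec, hx, hy, ite_mul, one_mul, zero_mul, mul_ite, mul_one, mul_zero,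
      sum_ite_mem, univ_inter]
  have hxx : ∑ i, x i ^ 2 ≤ n := by
    calc ∑ i, x i ^ 2 ≤ ∑ _i : V, (1 : ℝ) := by
          apply sum_le_sum
          intro i _
          simp only [hx]
          split_ifs <;> norm_num
      _ = n := by simp [hn]
  have hyy : ∑ i, y i ^ 2 ≤ n := by
    calc ∑ i, y i ^ 2 ≤ ∑ _i : V, (1 : ℝ) := by
          apply sum_le_sum
          intro i _
          simp only [hy]
          split_ifs <;> norm_num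
      _ = n := by simp [hn]
  -- Cauchy-Schwarz
  have hCS : ∀ u v : V → ℝ, ∑ i, u i ^ 2 ≤ (ε * n) ^ 2 * n → ∑ i, v i ^ 2 ≤ n →
      |u ⬝ᵥ v| ≤ ε * n ^ 2 := by
    intro u v hu hv
    have h1 : (u ⬝ᵥ v) ^ 2 ≤ (∑ i, u i ^ 2) * ∑ i, v i ^ 2 := sum_mul_sq_le_sq_mul_sq _ _ _
    have h2 : (∑ i, u i ^ 2) * ∑ i, v i ^ 2 ≤ ((ε * n) ^ 2 * n) * n := by
      apply mul_le_mul hu hv (sum_nonneg fun i _ => sq_nonneg _) (by positivity)
    apply abs_le_of_sq_le_sq _ (by positivity)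
    calc (u ⬝ᵥ v) ^ 2 ≤ ((ε * n) ^ 2 * n) * n := h1.trans h2
      _ = (ε * n ^ 2) ^ 2 := by ring
  have hEE : ∑ i, ((E *ᵥ x) i) ^ 2 ≤ n := by
    have h1 : ∑ i, ((E *ᵥ x) i) ^ 2 = x ⬝ᵥ (E *ᵥ x) := by
      have h2 : ∑ i, ((E *ᵥ x) i) ^ 2 = (E *ᵥ x) ⬝ᵥ (E *ᵥ x) := by
        simp only [dotProduct, _root_.sq]
      rw [h2, dotProduct_mulVec, ← mulVec_transpose, hqs, mulVec_mulVec, hqi, dotProduct_comm]
    have h2 : (x ⬝ᵥ (E *ᵥ x)) ^ 2 ≤ (∑ i, x i ^ 2) * ∑ i, ((E *ᵥ x) i) ^ 2 :=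
      sum_mul_sq_le_sq_mul_sq _ _ _
    rw [← h1] at h2
    set t := ∑ i, ((E *ᵥ x) i) ^ 2 with ht
    have ht0 : 0 ≤ t := sum_nonneg fun i _ => sq_nonneg _
    rcases eq_or_lt_of_le ht0 with h | h
    · rw [← h]
      exact hn0
    · have h3 : t * t ≤ n * t := by
        calc t * t = t ^ 2 := (_root_.sq t).symm
          _ ≤ (∑ i, x i ^ 2) * t := h2
          _ ≤ n * t := mul_le_mul_of_nonneg_right hxx ht0
      exact le_of_mul_le_mul_right h3 h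
  -- the decomposition
  have hdec : F = E * F * E' + (F - E * F) + (E * F - E * F * E') := by abel
  have hmain : ∑ a ∈ S, ∑ b ∈ T, (E * F * E') a b = p * S.card * T.card := by
    calc ∑ a ∈ S, ∑ b ∈ T, (E * F * E') a b = ∑ _a ∈ S, ∑ _b ∈ T, p := by
          apply sum_congr rfl
          intro a ha
          apply sum_congr rfl
          intro b hb
          exact hp a (hS ha) b (hT hb)
      _ = p * S.card * T.card := by
          simp only [sum_const, nsmul_eq_mul]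
          ring
  have herr1 : |x ⬝ᵥ ((F - E * F) *ᵥ y)| ≤ ε * n ^ 2 := by
    have h1 : x ⬝ᵥ ((F - E * F) *ᵥ y) = (Fᵀ *ᵥ (x - E *ᵥ x)) ⬝ᵥ y := by
      rw [dotProduct_mulVec, ← mulVec_transpose, transpose_sub, transpose_mul, hqs, sub_mulVec,
        mulVec_sub, mulVec_mulVec]
    rw [h1]
    apply hCS _ _ _ hyy
    exact (hqn x).trans (mul_le_mul_of_nonneg_left hxx (by positivity))
  have herr2 : |x ⬝ᵥ ((E * F - E * F * E') *ᵥ y)| ≤ ε * n ^ 2 := by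
    have h1 : x ⬝ᵥ ((E * F - E * F * E') *ᵥ y) = (F *ᵥ (y - E' *ᵥ y)) ⬝ᵥ (E *ᵥ x) := by
      have e1 : (E * F - E * F * E') *ᵥ y = E *ᵥ (F *ᵥ (y - E' *ᵥ y)) := by
        rw [sub_mulVec, mulVec_sub, mulVec_sub, mulVec_mulVec, mulVec_mulVec, mulVec_mulVec]
      rw [e1, dotProduct_mulVec, ← mulVec_transpose, hqs, dotProduct_comm]
    rw [h1]
    apply hCS _ _ _ hEE
    exact (hqn' y).trans (mul_le_mul_of_nonneg_left hyy (by positivity))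
  have hsum : ∑ a ∈ S, ∑ b ∈ T, F a b - p * S.card * T.card =
      x ⬝ᵥ ((F - E * F) *ᵥ y) + x ⬝ᵥ ((E * F - E * F * E') *ᵥ y) := by
    have h1 : ∑ a ∈ S, ∑ b ∈ T, F a b = ∑ a ∈ S, ∑ b ∈ T, (E * F * E') a b +
        ∑ a ∈ S, ∑ b ∈ T, (F - E * F) a b + ∑ a ∈ S, ∑ b ∈ T, (E * F - E * F * E') a b := by
      rw [← sum_add_distrib, ← sum_add_distrib]
      apply sum_congr rfl
      intro a _
      rw [← sum_add_distrib, ← sum_add_distrib]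
      apply sum_congr rfl
      intro b _
      simp only [Matrix.sub_apply]
      ring
    rw [h1, hmain, hind, hind]
    ring
  rw [hsum]
  calc |x ⬝ᵥ ((F - E * F) *ᵥ y) + x ⬝ᵥ ((E * F - E * F * E') *ᵥ y)|
      ≤ |x ⬝ᵥ ((F - E * F) *ᵥ y)| + |x ⬝ᵥ ((E * F - E * F * E') *ᵥ y)| := abs_add_le _ _
    _ ≤ ε * n ^ 2 + ε * n ^ 2 := add_le_add herr1 herr2
    _ = 2 * ε * n ^ 2 := by ring

/-- Quasirandomness: `rect` with `ε/2`; `E = q(F Fᵀ)`, `E' = q'(Fᵀ F)` are invariant of rank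
`≤ R := ⌊4/ε²⌋`; by `rows_const` their rows are constant on strong classes. -/
theorem qr (K S : ℕ) (ε : ℝ) (hε : 0 < ε) : ∃ n₀ : ℕ, ∀ (V : Type) [Fintype V] [DecidableEq V]
    (m : ℕ) (P : PI V m), P.Env K S → n₀ ≤ Fintype.card V → ∀ B : Finset V, B.card + 1 ≤ S →
    ∀ F : V → V → ℝ, P.InvF B F → (∀ y t, |F y t| ≤ 1) →
    ∀ y₀ t₀, y₀ ∉ P.Dcl B → t₀ ∉ P.Dcl B → ∃ p : ℝ, ∀ S₁ T₁ : Finset V,
      (∀ y ∈ S₁, P.Sim B y₀ y) → (∀ t ∈ T₁, P.Sim B t₀ t) →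
      |∑ y ∈ S₁, ∑ t ∈ T₁, F y t - p * S₁.card * T₁.card| ≤ ε * (Fintype.card V : ℝ) ^ 2 := by
  obtain ⟨n₀, hn₀⟩ := rows_const K S ⌊1 / (ε / 2) ^ 2⌋₊
  refine ⟨n₀, ?_⟩
  intro V _ _ m P hE hn B hB F
  change Matrix V V ℝ at F
  intro hF hF1 y₀ t₀ hy₀ ht₀
  have hBm : B.card + 6 ≤ m := by
    have := hE.hm
    omega
  have hF' : P.InvF B F := hF
  obtain ⟨q, q', hr, hr', hrect⟩ := rect F hF1 (ε / 2) (by positivity)
  have hI : P.InvF B (aeval (F * Fᵀ) q : Matrix V V ℝ) :=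
    (hF'.mul hBm hF'.transpose).aeval hBm q
  have hI' : P.InvF B (aeval (Fᵀ * F) q' : Matrix V V ℝ) :=
    (hF'.transpose.mul hBm hF').aeval hBm q'
  have h1 := hn₀ V m P hE hn B hB _ hI (Nat.le_floor hr)
  have h2 := hn₀ V m P hE hn B hB _ hI' (Nat.le_floor hr')
  obtain ⟨p, hp⟩ := hrect (fs (P.Sim B y₀)) (fs (P.Sim B t₀)) (by
    intro a ha b hb
    rw [mem_fs] at ha hb
    funext x
    rw [← h1 y₀ a hy₀ ha x, ← h1 y₀ b hy₀ hb x]) (by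
    intro a ha b hb
    rw [mem_fs] at ha hb
    funext x
    rw [← h2 t₀ a ht₀ ha x, ← h2 t₀ b ht₀ hb x])
  refine ⟨p, ?_⟩
  intro S₁ T₁ hS₁ hT₁
  have h3 := hp S₁ (fun y hy => mem_fs.mpr (hS₁ y hy)) T₁ (fun t ht => mem_fs.mpr (hT₁ t ht))
  calc _ ≤ 2 * (ε / 2) * (Fintype.card V : ℝ) ^ 2 := h3
    _ = ε * (Fintype.card V : ℝ) ^ 2 := by ring

end MS216
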