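import Mathlib

/-!
# m-schemes (Ivanyos, Karpinski, Saxena)
-/

namespace MS216

/-- Omit the `i`-th coordinate of an injective tuple (the projection `π_i`). -/
def del {V : Type*} {s : ℕ} (i : Fin (s + 1)) (x : Fin (s + 1) ↪ V) : Fin s ↪ V :=
  (Fin.succAboveEmb i).trans x

/-- Permute the coordinates of an injective tuple. -/
def perm {V : Type*} {s : ℕ} (σ : Equiv.Perm (Fin s)) (x : Fin s ↪ V) : Fin s ↪ V :=
  σ.toEmbedding.trans x

/-- An `m`-scheme on `V`: partitions (given as equivalence relations) of the sets of injective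
`s`-tuples, `s ≤ m`, which are compatible, regular and invariant.  The relations `rel s` for
`s > m` play no role (and neither does `s = 0`). -/
structure MScheme (V : Type*) (m : ℕ) where
  rel : (s : ℕ) → Setoid (Fin s ↪ V)
  /-- compatibility: tuples of the same color have projections of the same color -/
  compatible : ∀ s, s + 1 ≤ m → ∀ x y : Fin (s + 1) ↪ V, (rel (s + 1)) x y → ∀ i,
    (rel s) (del i x) (del i y)
  /-- regularity: for tuples `x, y` of the same color, every color `Q` of level `s + 1` (the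
  color of `z`) contains the same number of tuples projecting to `x` and to `y` -/
  regular : ∀ s, s + 1 ≤ m → ∀ i : Fin (s + 1), ∀ x y : Fin s ↪ V, (rel s) x y →
    ∀ z : Fin (s + 1) ↪ V,
      Nat.card {x' : Fin (s + 1) ↪ V // del i x' = x ∧ (rel (s + 1)) z x'} =
        Nat.card {y' : Fin (s + 1) ↪ V // del i y' = y ∧ (rel (s + 1)) z y'}
  /-- invariance: the symmetric group permutes the colors -/
  invariant : ∀ s, s ≤ m → ∀ σ : Equiv.Perm (Fin s), ∀ x y : Fin s ↪ V, (rel s) x y →
    (rel s) (perm σ x) (perm σ y)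

namespace MScheme

variable {V : Type*} {m : ℕ} (X : MScheme V m)

/-- The color of the tuple `x`. -/
def color {s : ℕ} (x : Fin s ↪ V) : Set (Fin s ↪ V) := {y | (X.rel s) x y}

/-- Homogeneous: there is only one color at level 1. -/
def Homogeneous : Prop := ∀ x y : Fin 1 ↪ V, (X.rel 1) x y

/-- Antisymmetric: `P^σ ≠ P` for every color `P` of a level `1 < s ≤ m` and every permutation
`σ ≠ 1`. -/
def Antisymmetric : Prop :=
  ∀ s, 1 < s → s ≤ m → ∀ x : Fin s ↪ V, ∀ σ : Equiv.Perm (Fin s), σ ≠ 1 →
    perm σ '' X.color x ≠ X.color x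

/-- No color (of a level `s ≤ m`) is mapped to itself by a 3-cycle of the coordinates: a weak form
of antisymmetry. -/
def NoThreeCycle : Prop :=
  ∀ s, s ≤ m → ∀ x : Fin s ↪ V, ∀ σ : Equiv.Perm (Fin s), σ.IsThreeCycle →
    perm σ '' X.color x ≠ X.color x

/-- The color of `x` (of level `s + 1`) is a matching: `π_i(P) = π_j(P)` and `|π_i(P)| = |P|` for
some `i < j`. -/
def IsMatching {s : ℕ} (x : Fin (s + 1) ↪ V) : Prop :=
  ∃ i j : Fin (s + 1), i < j ∧ del i '' X.color x = del j '' X.color x ∧
    (del i '' X.color x).ncard = (X.color x).ncard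

/-- The scheme contains a matching (at a level `1 < s + 1 ≤ m`). -/
def HasMatching : Prop := ∃ s, 1 < s + 1 ∧ s + 1 ≤ m ∧ ∃ x : Fin (s + 1) ↪ V, X.IsMatching x

end MScheme

end MS216
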