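import Pool.Agent.H.MP_216555_lc.SToPI
import Pool.Agent.H.MP_216555_lc.Good

/-!
# A homogeneous antisymmetric m-scheme without matchings gives a good system
-/

set_option linter.unusedSectionVars false

namespace MS216

open Finset

variable {V : Type} [Fintype V] [DecidableEq V] {m : ℕ}

private theorem sg_mem_graph {s : ℕ} {x y : Fin s ↪ V} {a b : V} :
    (a, b) ∈ graph x y ↔ ∃ i, x i = a ∧ y i = b := by
  simp [graph]

/-- put a point in front -/
private def sgc {s : ℕ} (a : V) (x : Fin s ↪ V) (h : a ∉ Set.range x) : Fin (s + 1) ↪ V :=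
  ⟨Fin.cons a x, Fin.cons_injective_iff.2 ⟨h, x.injective⟩⟩

private theorem sgc_zero {s : ℕ} (a : V) (x : Fin s ↪ V) (h : a ∉ Set.range x) :
    sgc a x h 0 = a := rfl

private theorem sgc_succ {s : ℕ} (a : V) (x : Fin s ↪ V) (h : a ∉ Set.range x) (i : Fin s) :
    sgc a x h i.succ = x i := rfl

theorem MScheme.hom_toPI (X : MScheme V m) (hm : 1 ≤ m) (h : X.Homogeneous) (y z : V) :
    X.toPI.Tp ∅ [y] [z] := by
  refine ⟨rfl, 1, hm, ⟨fun _ => y, fun i j _ => Subsingleton.elim i j⟩,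
    ⟨fun _ => z, fun i j _ => Subsingleton.elim i j⟩, h _ _, ?_⟩
  ext ⟨a, b⟩
  rw [mem_pr, sg_mem_graph]
  simp only [Finset.notMem_empty, and_false, false_or, List.zip_cons_cons, List.zip_nil_right,
    List.mem_singleton, Prod.mk.injEq, Function.Embedding.coeFn_mk]
  constructor
  · rintro ⟨rfl, rfl⟩
    exact ⟨0, rfl, rfl⟩
  · rintro ⟨_, rfl, rfl⟩
    exact ⟨rfl, rfl⟩

private theorem sg_perm_perm {s : ℕ} (σ τ : Equiv.Perm (Fin s)) (x : Fin s ↪ V) (i : Fin s) :
    perm σ (perm τ x) i = x (τ (σ i)) := rfl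

/-- Sketch: if `Tp B [w,y,z] [y,z,w]` with `w ≠ y`, the given map is a nontrivial permutation of
the finite set `B ∪ {w,y,z}` (`w, y, z` are distinct and not in `B`, by `inj`): for an enumeration
`x` of that set the map is `graph x (perm σ x)` with `σ ≠ 1`, so `perm σ x` has the color of `x`
(`isos_iff`), so `perm σ '' color x = color x` by invariance; contradiction.  (At least 2 points.) -/
theorem MScheme.anti_toPI (X : MScheme V m) (h : X.NoThreeCycle) (B : Finset V) (w y z : V)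
    (hw : w ≠ y) : ¬ X.toPI.Tp B [w, y, z] [y, z, w] := by
  intro ht
  have hf : pr B [w, y, z] [y, z, w] ∈ X.isos := ht.2
  have hinj := X.isos_inj hf
  have m1 : (w, y) ∈ pr B [w, y, z] [y, z, w] := mem_pr.2 (Or.inr (by simp))
  have m2 : (y, z) ∈ pr B [w, y, z] [y, z, w] := mem_pr.2 (Or.inr (by simp))
  have m3 : (z, w) ∈ pr B [w, y, z] [y, z, w] := mem_pr.2 (Or.inr (by simp))
  have mb : ∀ b ∈ B, (b, b) ∈ pr B [w, y, z] [y, z, w] := fun b hb => mem_pr.2 (Or.inl ⟨rfl, hb⟩)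
  have hyz : y ≠ z := fun h0 => hw ((hinj _ m1 _ m2).2 h0)
  have hzw : z ≠ w := fun h0 => hyz ((hinj _ m2 _ m3).2 h0)
  have hyB : y ∉ B := fun hb => hw ((hinj _ m1 _ (mb y hb)).2 rfl)
  have hzB : z ∉ B := fun hb => hyz ((hinj _ m2 _ (mb z hb)).2 rfl)
  have hwB : w ∉ B := fun hb => hzw ((hinj _ m3 _ (mb w hb)).2 rfl)
  -- the cycle
  obtain ⟨p, hp⟩ : ∃ p : Equiv.Perm V, p = Equiv.swap w y * Equiv.swap y z := ⟨_, rfl⟩
  have pw : p w = y := by
    rw [hp, Equiv.Perm.mul_apply, Equiv.swap_apply_of_ne_of_ne hw hzw.symm,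
      Equiv.swap_apply_left]
  have py : p y = z := by
    rw [hp, Equiv.Perm.mul_apply, Equiv.swap_apply_left,
      Equiv.swap_apply_of_ne_of_ne hzw hyz.symm]
  have pz : p z = w := by
    rw [hp, Equiv.Perm.mul_apply, Equiv.swap_apply_right, Equiv.swap_apply_right]
  have pb : ∀ b ∈ B, p b = b := by
    intro b hb
    have h1 : b ≠ w := fun h0 => hwB (h0 ▸ hb)
    have h2 : b ≠ y := fun h0 => hyB (h0 ▸ hb)
    have h3 : b ≠ z := fun h0 => hzB (h0 ▸ hb)
    rw [hp, Equiv.Perm.mul_apply, Equiv.swap_apply_of_ne_of_ne h2 h3,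
      Equiv.swap_apply_of_ne_of_ne h1 h2]
  obtain ⟨D, hD⟩ : ∃ D : Finset V, D = insert w (insert y (insert z B)) := ⟨_, rfl⟩
  have hDm : ∀ v, v ∈ D ↔ v = w ∨ v = y ∨ v = z ∨ v ∈ B := by
    intro v
    rw [hD]
    simp
  have hpD : ∀ v, p v ∈ D ↔ v ∈ D := by
    have h1 : ∀ v ∈ D, p v ∈ D := by
      intro v hv
      rcases (hDm v).1 hv with rfl | rfl | rfl | hb
      · rw [pw]; exact (hDm _).2 (Or.inr (Or.inl rfl))
      · rw [py]; exact (hDm _).2 (Or.inr (Or.inr (Or.inl rfl)))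
      · rw [pz]; exact (hDm _).2 (Or.inl rfl)
      · rw [pb v hb]; exact hv
    have h2 : D.image p = D := by
      apply Finset.eq_of_subset_of_card_le
      · intro v hv
        obtain ⟨u, hu, rfl⟩ := Finset.mem_image.1 hv
        exact h1 u hu
      · rw [Finset.card_image_of_injective _ p.injective]
    intro v
    refine ⟨fun hv => ?_, h1 v⟩
    rw [← h2] at hv
    obtain ⟨u, hu, hu'⟩ := Finset.mem_image.1 hv
    rwa [p.injective hu'] at hu
  obtain ⟨e⟩ : Nonempty (Fin D.card ≃ {v // v ∈ D}) := ⟨D.equivFin.symm⟩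
  obtain ⟨x, hx⟩ : ∃ x : Fin D.card ↪ V, x = e.toEmbedding.trans (Function.Embedding.subtype _) :=
    ⟨_, rfl⟩
  have hxi : ∀ i, x i = (e i : V) := by intro i; rw [hx]; rfl
  obtain ⟨σ, hσ⟩ : ∃ σ : Equiv.Perm (Fin D.card), ∀ i, x (σ i) = p (x i) := by
    refine ⟨(e.trans (p.subtypePerm hpD)).trans e.symm, fun i => ?_⟩
    rw [hxi, hxi]
    simp
  have hgr : graph x (perm σ x) = pr B [w, y, z] [y, z, w] := by
    ext ⟨a, b⟩
    rw [sg_mem_graph, mem_pr]
    have h1 : (∃ i, x i = a ∧ perm σ x i = b) ↔ a ∈ D ∧ b = p a := by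
      constructor
      · rintro ⟨i, rfl, rfl⟩
        refine ⟨?_, hσ i⟩
        rw [hxi]; exact (e i).2
      · rintro ⟨ha, rfl⟩
        refine ⟨e.symm ⟨a, ha⟩, ?_, ?_⟩
        · rw [hxi]; simp
        · have h2 : perm σ x (e.symm ⟨a, ha⟩) = p (x (e.symm ⟨a, ha⟩)) := hσ _
          rw [h2, hxi]; simp
    rw [h1, hDm]
    simp only [List.zip_cons_cons, List.zip_nil_right, List.mem_cons, List.not_mem_nil,
      Prod.mk.injEq, or_false]
    constructor
    · rintro ⟨rfl | rfl | rfl | hb, rfl⟩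
      · right; left; exact ⟨rfl, pw⟩
      · right; right; left; exact ⟨rfl, py⟩
      · right; right; right; exact ⟨rfl, pz⟩
      · left; exact ⟨(pb a hb).symm, hb⟩
    · rintro (⟨rfl, hb⟩ | ⟨rfl, rfl⟩ | ⟨rfl, rfl⟩ | ⟨rfl, rfl⟩)
      · exact ⟨Or.inr (Or.inr (Or.inr hb)), (pb a hb).symm⟩
      · exact ⟨Or.inl rfl, pw.symm⟩
      · exact ⟨Or.inr (Or.inl rfl), py.symm⟩
      · exact ⟨Or.inr (Or.inr (Or.inl rfl)), pz.symm⟩
  have hcard : (graph x (perm σ x)).card = D.card := by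
    unfold graph
    rw [Finset.card_image_of_injective, Finset.card_univ, Fintype.card_fin]
    intro i j hij
    exact x.injective (Prod.ext_iff.1 hij).1
  have hs : D.card ≤ m := by
    rw [← hcard, hgr]
    exact X.isos_card hf
  have hrel : (X.rel D.card) x (perm σ x) := by
    rw [← X.isos_iff hs, hgr]
    exact hf
  have hσ3 : σ.IsThreeCycle := by
    have hw' := (hDm w).2 (Or.inl rfl)
    have hy' := (hDm y).2 (Or.inr (Or.inl rfl))
    have hz' := (hDm z).2 (Or.inr (Or.inr (Or.inl rfl)))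
    have e1 : σ (e.symm ⟨w, hw'⟩) = e.symm ⟨y, hy'⟩ := by
      apply x.injective
      rw [hσ, hxi, hxi]
      simp [pw]
    have e2 : σ (e.symm ⟨y, hy'⟩) = e.symm ⟨z, hz'⟩ := by
      apply x.injective
      rw [hσ, hxi, hxi]
      simp [py]
    have e3 : σ (e.symm ⟨z, hz'⟩) = e.symm ⟨w, hw'⟩ := by
      apply x.injective
      rw [hσ, hxi, hxi]
      simp [pz]
    have n1 : e.symm ⟨w, hw'⟩ ≠ e.symm ⟨y, hy'⟩ := fun h0 =>
      hw (by simpa using e.symm.injective h0)
    have n2 : e.symm ⟨y, hy'⟩ ≠ e.symm ⟨z, hz'⟩ := fun h0 =>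
      hyz (by simpa using e.symm.injective h0)
    have n3 : e.symm ⟨z, hz'⟩ ≠ e.symm ⟨w, hw'⟩ := fun h0 =>
      hzw (by simpa using e.symm.injective h0)
    have e4 : ∀ i, i ≠ e.symm ⟨w, hw'⟩ → i ≠ e.symm ⟨y, hy'⟩ → i ≠ e.symm ⟨z, hz'⟩ →
        σ i = i := by
      intro i i1 i2 i3
      apply x.injective
      rw [hσ, hxi]
      have hmem := (hDm _).1 (e i).2
      have k1 : (e i : V) ≠ w := fun h0 => i1 (by rw [← e.symm_apply_apply i]; congr 1; exact Subtype.ext h0)
      have k2 : (e i : V) ≠ y := fun h0 => i2 (by rw [← e.symm_apply_apply i]; congr 1; exact Subtype.ext h0)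
      have k3 : (e i : V) ≠ z := fun h0 => i3 (by rw [← e.symm_apply_apply i]; congr 1; exact Subtype.ext h0)
      rcases hmem with h0 | h0 | h0 | h0
      · exact absurd h0 k1
      · exact absurd h0 k2
      · exact absurd h0 k3
      · exact pb _ h0
    have hσe : σ = Equiv.swap (e.symm ⟨w, hw'⟩) (e.symm ⟨z, hz'⟩) *
        Equiv.swap (e.symm ⟨w, hw'⟩) (e.symm ⟨y, hy'⟩) := by
      ext1 i
      rw [Equiv.Perm.mul_apply]
      by_cases i1 : i = e.symm ⟨w, hw'⟩
      · rw [i1, e1, Equiv.swap_apply_left, Equiv.swap_apply_of_ne_of_ne n1.symm n2]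
      · by_cases i2 : i = e.symm ⟨y, hy'⟩
        · rw [i2, e2, Equiv.swap_apply_right, Equiv.swap_apply_left]
        · by_cases i3 : i = e.symm ⟨z, hz'⟩
          · rw [i3, e3, Equiv.swap_apply_of_ne_of_ne n3 n2.symm, Equiv.swap_apply_right]
          · rw [e4 i i1 i2 i3, Equiv.swap_apply_of_ne_of_ne i1 i2,
              Equiv.swap_apply_of_ne_of_ne i1 i3]
    rw [hσe]
    exact Equiv.Perm.isThreeCycle_swap_mul_swap_same n3.symm n1 n2.symm
  refine h D.card hs x σ hσ3 ?_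
  apply Set.Subset.antisymm
  · rintro _ ⟨u, hu, rfl⟩
    exact (X.rel D.card).trans hrel (X.invariant _ hs σ _ _ hu)
  · intro u hu
    refine ⟨perm σ⁻¹ u, ?_, ?_⟩
    · have h2 := X.invariant _ hs σ⁻¹ _ _ hrel
      have h3 : perm σ⁻¹ (perm σ x) = x := by
        ext i
        rw [sg_perm_perm]
        simp
      rw [h3] at h2
      exact (X.rel D.card).trans ((X.rel D.card).symm h2) (X.invariant _ hs σ⁻¹ _ _ hu)
    · ext i
      rw [sg_perm_perm]
      simp

private theorem sg_proj (X : MScheme V m) {s : ℕ} (hs : s + 1 ≤ m) (i : Fin (s + 1))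
    (x : Fin (s + 1) ↪ V) : del i '' X.color x = X.color (del i x) := by
  apply Set.Subset.antisymm
  · rintro _ ⟨u, hu, rfl⟩
    exact X.compatible s hs x u hu i
  · intro u hu
    have h1 := X.regular s hs i _ _ hu x
    have h2 : 0 < Nat.card {x' : Fin (s + 1) ↪ V // del i x' = del i x ∧ (X.rel (s + 1)) x x'} := by
      rw [Nat.card_pos_iff]
      exact ⟨⟨⟨x, rfl, (X.rel (s + 1)).refl x⟩⟩, inferInstance⟩
    rw [h1, Nat.card_pos_iff] at h2
    obtain ⟨⟨v, hv, hv'⟩⟩ := h2.1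
    exact ⟨v, hv', hv⟩

/-- Sketch: suppose every `z'` with `Tp B [y,z] [y,z']` is `z`.  Then `y, z ∉ B` (`inj`); let `b` be
an enumeration of `B`, `k = |B|`, `x = (y, z, b)` of level `k + 2`.  `i = 0`, `j = 1` (the first
two): `del 1 x = (y,b)`, `del 0 x = (z,b)`; same color as `Tp B [y] [z]`; the projections of a
color are colors (`compatible`, `regular`, `invariant`), so `π_i(P) = π_j(P)`, and `π_j` is
injective on `P` because of the assumption and `regular` (all fibres of `π_j : P → π_j(P)` have the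
same size, the one over `(y,b)` has size 1).  So `P` is a matching. -/
theorem MScheme.mfree_toPI (X : MScheme V m) (h : ¬ X.HasMatching) (B : Finset V)
    (hB : B.card + 2 ≤ m) (y z : V) (hyz : y ≠ z) (ht : X.toPI.Tp B [y] [z]) :
    ∃ z', z' ≠ z ∧ X.toPI.Tp B [y, z] [y, z'] := by
  by_contra hcon
  push Not at hcon
  apply h
  have hf : pr B [y] [z] ∈ X.isos := ht.2
  have hinj := X.isos_inj hf
  have m1 : (y, z) ∈ pr B [y] [z] := mem_pr.2 (Or.inr (by simp))
  have mb : ∀ b ∈ B, (b, b) ∈ pr B [y] [z] := fun b hb => mem_pr.2 (Or.inl ⟨rfl, hb⟩)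
  have hyB : y ∉ B := fun hb => hyz ((hinj _ m1 _ (mb y hb)).1 rfl).symm
  have hzB : z ∉ B := fun hb => hyz ((hinj _ m1 _ (mb z hb)).2 rfl)
  obtain ⟨b, hb⟩ : ∃ b : Fin B.card ↪ V, ∀ v, v ∈ Set.range b ↔ v ∈ B := by
    refine ⟨B.equivFin.symm.toEmbedding.trans (Function.Embedding.subtype _), fun v => ?_⟩
    constructor
    · rintro ⟨i, rfl⟩
      exact (B.equivFin.symm i).2
    · intro hv
      exact ⟨B.equivFin ⟨v, hv⟩, by simp⟩
  have hyb : y ∉ Set.range b := fun h0 => hyB ((hb y).1 h0)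
  have hzb : z ∉ Set.range b := fun h0 => hzB ((hb z).1 h0)
  have hyzb : y ∉ Set.range (sgc z b hzb) := by
    rintro ⟨i, hi⟩
    revert hi
    refine Fin.cases ?_ (fun j => ?_) i
    · rw [sgc_zero]; exact fun h0 => hyz h0.symm
    · rw [sgc_succ]; exact fun h0 => hyb ⟨j, h0⟩
  obtain ⟨x, hx⟩ : ∃ x : Fin (B.card + 1 + 1) ↪ V, x = sgc y (sgc z b hzb) hyzb := ⟨_, rfl⟩
  have d0 : del 0 x = sgc z b hzb := by
    ext i
    rw [hx]
    rfl
  have d1 : del 1 x = sgc y b hyb := by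
    ext i
    rw [hx]
    refine Fin.cases ?_ (fun j => ?_) i
    · rfl
    · rfl
  have hg1 : graph (sgc y b hyb) (sgc z b hzb) = pr B [y] [z] := by
    ext ⟨a, c⟩
    rw [sg_mem_graph, mem_pr]
    simp only [List.zip_cons_cons, List.zip_nil_right, List.mem_cons, List.not_mem_nil,
      Prod.mk.injEq, or_false]
    constructor
    · rintro ⟨i, hi1, hi2⟩
      revert hi1 hi2
      refine Fin.cases ?_ (fun j => ?_) i
      · rw [sgc_zero, sgc_zero]
        exact fun h1 h2 => Or.inr ⟨h1.symm, h2.symm⟩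
      · rw [sgc_succ, sgc_succ]
        exact fun h1 h2 => Or.inl ⟨h1.symm.trans h2, (hb a).1 ⟨j, h1⟩⟩
    · rintro (⟨rfl, ha⟩ | ⟨rfl, rfl⟩)
      · obtain ⟨j, hj⟩ := (hb a).2 ha
        exact ⟨j.succ, hj, hj⟩
      · exact ⟨0, rfl, rfl⟩
  have hrel : (X.rel (B.card + 1)) (sgc y b hyb) (sgc z b hzb) := by
    rw [← X.isos_iff (by omega), hg1]
    exact hf
  have hs : B.card + 1 + 1 ≤ m := by omega
  have hcol : del 0 '' X.color x = del 1 '' X.color x := by
    rw [sg_proj X hs, sg_proj X hs, d0, d1]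
    ext u
    constructor
    · intro hu
      exact (X.rel _).trans hrel hu
    · intro hu
      exact (X.rel _).trans ((X.rel _).symm hrel) hu
  refine ⟨B.card + 1, by omega, hs, x, 0, 1, by simp, hcol, ?_⟩
  rw [hcol]
  apply Set.InjOn.ncard_image
  -- the fibre of `(y, b)` has one element
  have hfib : ∀ x', del 1 x' = del 1 x → (X.rel (B.card + 1 + 1)) x x' → x' = x := by
    intro x' h1 h2
    have h3 : ∀ i : Fin (B.card + 1), x' ((1 : Fin (B.card + 2)).succAbove i) =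
        x ((1 : Fin (B.card + 2)).succAbove i) := by
      intro i
      exact DFunLike.congr_fun h1 i
    have hx0 : x' 0 = y := by
      have := h3 0
      rw [hx] at this
      exact this
    have hxs : ∀ j : Fin B.card, x' j.succ.succ = b j := by
      intro j
      have := h3 j.succ
      rw [hx] at this
      exact this
    have hg : graph x x' = pr B [y, z] [y, x' 1] := by
      ext ⟨a, c⟩
      rw [sg_mem_graph, mem_pr]
      simp only [List.zip_cons_cons, List.zip_nil_right, List.mem_cons, List.not_mem_nil,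
        Prod.mk.injEq, or_false]
      constructor
      · rintro ⟨i, hi1, hi2⟩
        revert hi1 hi2
        refine Fin.cases ?_ (fun i' => ?_) i
        · rw [hx0, hx]
          exact fun h1 h2 => Or.inr (Or.inl ⟨h1.symm, h2.symm⟩)
        · refine Fin.cases ?_ (fun j => ?_) i'
          · intro h1 h2
            refine Or.inr (Or.inr ⟨?_, h2.symm⟩)
            rw [← h1, hx]
            rfl
          · rw [hxs, hx]
            intro h1 h2
            have h4 : b j = a := h1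
            exact Or.inl ⟨h4.symm.trans h2, (hb a).1 ⟨j, h4⟩⟩
      · rintro (⟨rfl, ha⟩ | ⟨rfl, rfl⟩ | ⟨rfl, rfl⟩)
        · obtain ⟨j, hj⟩ := (hb a).2 ha
          refine ⟨j.succ.succ, ?_, ?_⟩
          · rw [hx]; exact hj
          · rw [hxs]; exact hj
        · exact ⟨0, by rw [hx]; rfl, hx0⟩
        · exact ⟨1, by rw [hx]; rfl, rfl⟩
    have htp : X.toPI.Tp B [y, z] [y, x' 1] := by
      refine ⟨rfl, ?_⟩
      rw [← hg]
      exact (X.isos_iff hs x x').2 h2
    have hz : x' 1 = z := by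
      by_contra hne
      exact hcon _ hne htp
    ext i
    refine Fin.cases ?_ (fun i' => ?_) i
    · rw [hx0, hx]; rfl
    · refine Fin.cases ?_ (fun j => ?_) i'
      · rw [show x' (Fin.succ 0) = x' 1 from rfl, hz, hx]; rfl
      · rw [hxs, hx]; rfl
  intro u hu v hv huv
  have hru : (X.rel (B.card + 1)) (del 1 x) (del 1 u) := X.compatible _ hs _ _ hu 1
  have h1 := X.regular _ hs 1 _ _ hru x
  have h2 : Nat.card {x' : Fin (B.card + 1 + 1) ↪ V // del 1 x' = del 1 x ∧
      (X.rel (B.card + 1 + 1)) x x'} = 1 := by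
    rw [Nat.card_eq_one_iff_unique]
    refine ⟨⟨fun p q => Subtype.ext ?_⟩, ⟨⟨x, rfl, (X.rel _).refl x⟩⟩⟩
    rw [hfib p.1 p.2.1 p.2.2, hfib q.1 q.2.1 q.2.2]
  rw [h2] at h1
  have h3 := (Nat.card_eq_one_iff_unique.1 h1.symm).1
  have h4 := h3.elim ⟨u, rfl, hu⟩ ⟨v, huv.symm, hv⟩
  exact congrArg Subtype.val h4

theorem MScheme.good (X : MScheme V m) (hm : 1 ≤ m) (hn : 2 ≤ Fintype.card V)
    (h1 : X.Homogeneous) (h2 : X.NoThreeCycle) (h3 : ¬ X.HasMatching) :
    X.toPI.Good :=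
  ⟨X.hom_toPI hm h1, X.mfree_toPI h3, X.anti_toPI h2, hn⟩

end MS216
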