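import Pool.Agent.H.MP_216555_lc.SDef
import Pool.Agent.H.MP_216555_lc.Defs

/-!
# Partial isomorphisms of an m-scheme, part A
-/

set_option linter.unusedSectionVars false

namespace MS216

open Finset

variable {V : Type} [Fintype V] [DecidableEq V] {m : ℕ}

/-- The graph of the finite map `x i ↦ y i`. -/
def graph {s : ℕ} (x y : Fin s ↪ V) : Finset (V × V) := univ.image (fun i => (x i, y i))

/-- The isomorphisms between small subsets given by the scheme: graphs of pairs of tuples of the same color. -/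
def MScheme.isos (X : MScheme V m) : Set (Finset (V × V)) :=
  {f | ∃ s, s ≤ m ∧ ∃ x y : Fin s ↪ V, (X.rel s) x y ∧ f = graph x y}

private theorem card_graph {s : ℕ} (x y : Fin s ↪ V) : (graph x y).card = s := by
  unfold graph
  rw [Finset.card_image_of_injective _ (fun i j hij => x.injective (Prod.ext_iff.1 hij).1),
    Finset.card_univ, Fintype.card_fin]

private theorem mem_graph {s : ℕ} {x y : Fin s ↪ V} {p : V × V} :
    p ∈ graph x y ↔ ∃ i, (x i, y i) = p := by
  unfold graph
  simp only [Finset.mem_image, Finset.mem_univ, true_and]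

/-- Reordering of the tuples does not matter.  (Two enumerations of the same finite graph of an
injection differ by a permutation; use `invariant`.)  The `s` is the number of pairs. -/
theorem MScheme.isos_iff (X : MScheme V m) {s : ℕ} (hs : s ≤ m) (x y : Fin s ↪ V) :
    graph x y ∈ X.isos ↔ (X.rel s) x y := by
  constructor
  · rintro ⟨s', hs', x', y', hr, he⟩
    have hss : s = s' := by
      rw [← card_graph x y, he, card_graph x' y']
    subst hss
    have hex : ∀ i, ∃ j, (x' j, y' j) = (x i, y i) := fun i =>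
      mem_graph.1 (he ▸ mem_graph.2 ⟨i, rfl⟩)
    choose σ hσ using hex
    have hσx : ∀ i, x' (σ i) = x i := fun i => (Prod.ext_iff.1 (hσ i)).1
    have hσy : ∀ i, y' (σ i) = y i := fun i => (Prod.ext_iff.1 (hσ i)).2
    have hinj : Function.Injective σ := by
      intro i j hij
      apply x.injective
      rw [← hσx, ← hσx, hij]
    have h1 := X.invariant s hs (Equiv.ofBijective σ (Finite.injective_iff_bijective.1 hinj))
      x' y' hr
    have h2 : perm (Equiv.ofBijective σ (Finite.injective_iff_bijective.1 hinj)) x' = x :=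
      Function.Embedding.ext fun i => hσx i
    have h3 : perm (Equiv.ofBijective σ (Finite.injective_iff_bijective.1 hinj)) y' = y :=
      Function.Embedding.ext fun i => hσy i
    rwa [h2, h3] at h1
  · intro h
    exact ⟨s, hs, x, y, h, rfl⟩

theorem MScheme.isos_card (X : MScheme V m) {f : Finset (V × V)} (hf : f ∈ X.isos) :
    f.card ≤ m := by
  obtain ⟨s, hs, x, y, -, rfl⟩ := hf
  rw [card_graph]
  exact hs

theorem MScheme.isos_inj (X : MScheme V m) {f : Finset (V × V)} (hf : f ∈ X.isos) :
    ∀ p ∈ f, ∀ q ∈ f, (p.1 = q.1 ↔ p.2 = q.2) := by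
  obtain ⟨s, hs, x, y, -, rfl⟩ := hf
  intro p hp q hq
  obtain ⟨i, rfl⟩ := mem_graph.1 hp
  obtain ⟨j, rfl⟩ := mem_graph.1 hq
  exact x.injective.eq_iff.trans y.injective.eq_iff.symm

theorem MScheme.isos_idm (X : MScheme V m) (A : Finset V) (hA : A.card ≤ m) :
    A.image (fun a => (a, a)) ∈ X.isos := by
  refine ⟨A.card, hA, A.equivFin.symm.toEmbedding.trans (Function.Embedding.subtype _),
    A.equivFin.symm.toEmbedding.trans (Function.Embedding.subtype _), (X.rel A.card).refl' _, ?_⟩
  ext p
  rw [mem_graph, Finset.mem_image]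
  constructor
  · rintro ⟨a, ha, rfl⟩
    exact ⟨A.equivFin ⟨a, ha⟩, by simp⟩
  · rintro ⟨i, rfl⟩
    exact ⟨(A.equivFin.symm i : V), (A.equivFin.symm i).2, rfl⟩

theorem MScheme.isos_inv (X : MScheme V m) {f : Finset (V × V)} (hf : f ∈ X.isos) :
    f.image Prod.swap ∈ X.isos := by
  obtain ⟨s, hs, x, y, h, rfl⟩ := hf
  refine ⟨s, hs, y, x, (X.rel s).symm' h, ?_⟩
  ext p
  rw [mem_graph, Finset.mem_image]
  constructor
  · rintro ⟨q, hq, rfl⟩
    obtain ⟨i, rfl⟩ := mem_graph.1 hq
    exact ⟨i, rfl⟩
  · rintro ⟨i, rfl⟩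
    exact ⟨(x i, y i), mem_graph.2 ⟨i, rfl⟩, rfl⟩

end MS216
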