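import Pool.Agent.H.MP_216555_lc.SIsoA

/-!
# Partial isomorphisms of an m-scheme, part B: restriction and composition
-/

set_option linter.unusedSectionVars false

namespace MS216

open Finset

variable {V : Type} [Fintype V] [DecidableEq V] {m : ℕ}

/-- Remove one pair. -/
private theorem SIsoB_erase (X : MScheme V m) {f : Finset (V × V)} (hf : f ∈ X.isos) {p : V × V}
    (hp : p ∈ f) : f.erase p ∈ X.isos := by
  classical
  obtain ⟨s, hs, x, y, hxy, rfl⟩ := hf
  unfold graph at hp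
  rw [Finset.mem_image] at hp
  obtain ⟨i, -, rfl⟩ := hp
  cases s with
  | zero => exact i.elim0
  | succ t =>
    refine ⟨t, by omega, del i x, del i y, X.compatible t hs x y hxy i, ?_⟩
    have h1 : ∀ (u : Fin (t + 1) ↪ V) (j : Fin t), del i u j = u (i.succAbove j) := fun _ _ => rfl
    ext p
    unfold graph
    simp only [Finset.mem_erase, Finset.mem_image, Finset.mem_univ, true_and]
    constructor
    · rintro ⟨hne, j, rfl⟩
      have hji : j ≠ i := fun h => hne (by rw [h])
      obtain ⟨l, hl⟩ := Fin.exists_succAbove_eq hji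
      exact ⟨l, by rw [h1, h1, hl]⟩
    · rintro ⟨l, rfl⟩
      refine ⟨fun h => ?_, i.succAbove l, by rw [h1, h1]⟩
      rw [h1, h1, Prod.mk.injEq] at h
      exact Fin.succAbove_ne i l (x.injective h.1)

/-- Remove the pairs of `f \ g` one after another (`compatible` for the `i` of the removed pair),
i.e. prove it for `g = f.erase p` and use induction on `(f \ g).card`. -/
theorem MScheme.isos_sub (X : MScheme V m) {f : Finset (V × V)} (hf : f ∈ X.isos)
    (g : Finset (V × V)) (hg : g ⊆ f) : g ∈ X.isos := by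
  classical
  obtain ⟨n, hn⟩ : ∃ n, n = (f \ g).card := ⟨_, rfl⟩
  induction n generalizing f with
  | zero =>
    have h1 : f \ g = ∅ := Finset.card_eq_zero.1 hn.symm
    have h2 : f ⊆ g := Finset.sdiff_eq_empty_iff_subset.1 h1
    rwa [Finset.Subset.antisymm hg h2]
  | succ n ih =>
    have h1 : (f \ g).Nonempty := by
      rw [← Finset.card_pos, ← hn]
      omega
    obtain ⟨p, hp⟩ := h1
    rw [Finset.mem_sdiff] at hp
    refine ih (SIsoB_erase X hf hp.1) (fun q hq => ?_) ?_
    · rw [Finset.mem_erase]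
      refine ⟨fun h => hp.2 (h ▸ hq), hg hq⟩
    · have h2 : f.erase p \ g = (f \ g).erase p := by
        ext q
        simp only [Finset.mem_sdiff, Finset.mem_erase]
        tauto
      rw [h2, Finset.card_erase_of_mem (Finset.mem_sdiff.2 hp), ← hn]
      omega

/-- Sketch: let `f' = {p ∈ f : p.1 is a first coordinate of h}` etc. so that
`h = graph x z`, `f' = graph x y`, `g' = graph y z` for the tuples `x, y, z` obtained from an
enumeration of `h` (`f'`, `g'` in `isos` by `isos_sub`), then `isos_iff` and transitivity. -/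
theorem MScheme.isos_comp (X : MScheme V m) {f g : Finset (V × V)} (hf : f ∈ X.isos)
    (hg : g ∈ X.isos) (h : Finset (V × V))
    (hh : ∀ p ∈ h, ∃ b, (p.1, b) ∈ f ∧ (b, p.2) ∈ g) : h ∈ X.isos := by
  classical
  have hh' : ∀ p : V × V, ∃ b : V, p ∈ h → (p.1, b) ∈ f ∧ (b, p.2) ∈ g := by
    intro p
    by_cases hp : p ∈ h
    · obtain ⟨b, hb⟩ := hh p hp
      exact ⟨b, fun _ => hb⟩
    · exact ⟨p.1, fun h' => absurd h' hp⟩
  choose b hb using hh'
  have hb1 : ∀ p ∈ h, (p.1, b p) ∈ f := fun p hp => (hb p hp).1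
  have hb2 : ∀ p ∈ h, (b p, p.2) ∈ g := fun p hp => (hb p hp).2
  obtain ⟨E, hE⟩ : ∃ E : Fin h.card → V × V, E = fun i => (h.equivFin.symm i : V × V) := ⟨_, rfl⟩
  have hEm : ∀ i, E i ∈ h := by
    intro i
    rw [hE]
    exact (h.equivFin.symm i).2
  have hEi : Function.Injective E := by
    intro i j hij
    rw [hE] at hij
    exact h.equivFin.symm.injective (Subtype.ext hij)
  have hEs : ∀ p ∈ h, ∃ i, E i = p := by
    intro p hp
    refine ⟨h.equivFin ⟨p, hp⟩, ?_⟩
    rw [hE]
    show ((h.equivFin.symm (h.equivFin ⟨p, hp⟩) : h) : V × V) = p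
    rw [Equiv.symm_apply_apply]
  have f1 : ∀ i j, (E i).1 = (E j).1 ↔ b (E i) = b (E j) := fun i j =>
    X.isos_inj hf _ (hb1 _ (hEm i)) _ (hb1 _ (hEm j))
  have f2 : ∀ i j, b (E i) = b (E j) ↔ (E i).2 = (E j).2 := fun i j =>
    X.isos_inj hg _ (hb2 _ (hEm i)) _ (hb2 _ (hEm j))
  have f3 : ∀ i j, (E i).1 = (E j).1 → i = j := fun i j hij =>
    hEi (Prod.ext hij ((f2 i j).1 ((f1 i j).1 hij)))
  obtain ⟨x, hx⟩ : ∃ x : Fin h.card ↪ V, ∀ i, x i = (E i).1 :=
    ⟨⟨fun i => (E i).1, fun i j hij => f3 i j hij⟩, fun _ => rfl⟩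
  obtain ⟨y, hy⟩ : ∃ y : Fin h.card ↪ V, ∀ i, y i = b (E i) :=
    ⟨⟨fun i => b (E i), fun i j hij => f3 i j ((f1 i j).2 hij)⟩, fun _ => rfl⟩
  obtain ⟨z, hz⟩ : ∃ z : Fin h.card ↪ V, ∀ i, z i = (E i).2 :=
    ⟨⟨fun i => (E i).2, fun i j hij => f3 i j ((f1 i j).2 ((f2 i j).2 hij))⟩, fun _ => rfl⟩
  have g1 : graph x y ⊆ f := by
    intro p hp
    unfold graph at hp
    rw [Finset.mem_image] at hp
    obtain ⟨i, -, rfl⟩ := hp
    rw [hx, hy]
    exact hb1 _ (hEm i)
  have g2 : graph y z ⊆ g := by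
    intro p hp
    unfold graph at hp
    rw [Finset.mem_image] at hp
    obtain ⟨i, -, rfl⟩ := hp
    rw [hy, hz]
    exact hb2 _ (hEm i)
  have hc : (graph x y).card = h.card := by
    unfold graph
    rw [Finset.card_image_of_injective _ (fun i j hij => x.injective (congrArg Prod.fst hij)),
      Finset.card_univ, Fintype.card_fin]
  have hm : h.card ≤ m := by
    rw [← hc]
    exact (Finset.card_le_card g1).trans (X.isos_card hf)
  have r1 := (X.isos_iff hm x y).1 (X.isos_sub hf _ g1)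
  have r2 := (X.isos_iff hm y z).1 (X.isos_sub hg _ g2)
  refine ⟨h.card, hm, x, z, (X.rel h.card).trans r1 r2, ?_⟩
  ext p
  unfold graph
  rw [Finset.mem_image]
  constructor
  · intro hp
    obtain ⟨i, hi⟩ := hEs p hp
    refine ⟨i, Finset.mem_univ _, ?_⟩
    rw [hx, hz, hi]
  · rintro ⟨i, -, rfl⟩
    rw [hx, hz]
    exact hEm i

end MS216
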