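import Pool.Agent.H.MP_216555_lc.SIsoA

/-!
# Partial isomorphisms of an m-scheme, part C: extension
-/

set_option linter.unusedSectionVars false

namespace MS216

open Finset

variable {V : Type} [Fintype V] [DecidableEq V] {m : ℕ}

/-- the tuple `x` extended by `w` -/
private def snocE {s : ℕ} (x : Fin s ↪ V) (w : V) (h : ∀ i, x i ≠ w) : Fin (s + 1) ↪ V :=
  ⟨Fin.lastCases w (fun i => x i), by
    intro i j hij
    cases i using Fin.lastCases with
    | last =>
      cases j using Fin.lastCases with
      | last => rfl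
      | cast j =>
        simp only [Fin.lastCases_last, Fin.lastCases_castSucc] at hij
        exact absurd hij.symm (h j)
    | cast i =>
      cases j using Fin.lastCases with
      | last =>
        simp only [Fin.lastCases_last, Fin.lastCases_castSucc] at hij
        exact absurd hij (h i)
      | cast j =>
        simp only [Fin.lastCases_castSucc] at hij
        rw [x.injective hij]⟩

private theorem snocE_last {s : ℕ} (x : Fin s ↪ V) (w : V) (h : ∀ i, x i ≠ w) :
    snocE x w h (Fin.last s) = w := by
  show (Fin.lastCases w (fun i => x i) (Fin.last s) : V) = w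
  rw [Fin.lastCases_last]

private theorem snocE_cast {s : ℕ} (x : Fin s ↪ V) (w : V) (h : ∀ i, x i ≠ w) (i : Fin s) :
    snocE x w h i.castSucc = x i := by
  show (Fin.lastCases w (fun i => x i) i.castSucc : V) = x i
  rw [Fin.lastCases_castSucc]

private theorem del_last {s : ℕ} (x : Fin (s + 1) ↪ V) (i : Fin s) :
    del (Fin.last s) x i = x i.castSucc := by
  show x ((Fin.last s).succAbove i) = x i.castSucc
  rw [Fin.succAbove_last]

private theorem del_snocE {s : ℕ} (x : Fin s ↪ V) (w : V) (h : ∀ i, x i ≠ w) :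
    del (Fin.last s) (snocE x w h) = x := by
  ext i
  rw [del_last, snocE_cast]

private theorem ext_last {s : ℕ} {x y : Fin (s + 1) ↪ V} (h : del (Fin.last s) x =
    del (Fin.last s) y) (h' : x (Fin.last s) = y (Fin.last s)) : x = y := by
  ext i
  cases i using Fin.lastCases with
  | last => exact h'
  | cast i => rw [← del_last, ← del_last, h]

/-- the bijection of the tuples over `x` and over `y` -/
private theorem exists_fib (X : MScheme V m) {s : ℕ} (hs : s + 1 ≤ m) {x y : Fin s ↪ V}
    (h : (X.rel s) x y) :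
    ∃ e : {x' : Fin (s + 1) ↪ V // del (Fin.last s) x' = x} ≃
      {y' : Fin (s + 1) ↪ V // del (Fin.last s) y' = y}, ∀ a, (X.rel (s + 1)) a.1 (e a).1 := by
  classical
  have hfib : ∀ (z : Fin s ↪ V) (Q : Quotient (X.rel (s + 1))),
      Nat.card {a : {x' : Fin (s + 1) ↪ V // del (Fin.last s) x' = z} //
        Quotient.mk (X.rel (s + 1)) a.1 = Q} =
      Nat.card {x' : Fin (s + 1) ↪ V // del (Fin.last s) x' = z ∧
        (X.rel (s + 1)) Q.out x'} := by
    intro z Q
    refine Nat.card_congr ((Equiv.subtypeSubtypeEquivSubtypeInter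
      (fun x' : Fin (s + 1) ↪ V => del (Fin.last s) x' = z)
      (fun x' => Quotient.mk (X.rel (s + 1)) x' = Q)).trans (Equiv.subtypeEquivRight fun x' => ?_))
    refine and_congr_right fun _ => ?_
    constructor
    · intro h1
      refine Quotient.exact (s := X.rel (s + 1)) ?_
      rw [Quotient.out_eq, h1]
    · intro h1
      have h2 := Quotient.sound (s := X.rel (s + 1)) h1
      rw [Quotient.out_eq] at h2
      exact h2.symm
  have hne : ∀ Q : Quotient (X.rel (s + 1)), Nonempty
      ({a : {x' : Fin (s + 1) ↪ V // del (Fin.last s) x' = x} //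
        Quotient.mk (X.rel (s + 1)) a.1 = Q} ≃
      {a : {x' : Fin (s + 1) ↪ V // del (Fin.last s) x' = y} //
        Quotient.mk (X.rel (s + 1)) a.1 = Q}) := by
    intro Q
    rw [← Finite.card_eq, hfib x Q, hfib y Q]
    exact X.regular s hs (Fin.last s) x y h Q.out
  choose e he using fun Q => exists_true_iff_nonempty.2 (hne Q)
  refine ⟨(Equiv.sigmaFiberEquiv fun a : {x' : Fin (s + 1) ↪ V // del (Fin.last s) x' = x} =>
    Quotient.mk (X.rel (s + 1)) a.1).symm.trans ((Equiv.sigmaCongrRight e).trans
      (Equiv.sigmaFiberEquiv fun a : {x' : Fin (s + 1) ↪ V // del (Fin.last s) x' = y} =>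
    Quotient.mk (X.rel (s + 1)) a.1)), fun a => ?_⟩
  refine Quotient.exact (s := X.rel (s + 1)) ?_
  exact (e (Quotient.mk (X.rel (s + 1)) a.1) ⟨a, rfl⟩).2.symm

/-- Sketch: `f = graph x y`, `s = f.card < m`.  For each color `Q` of level `s + 1`, `regular` (with
`i = Fin.last s`) says that the sets of `w ∉ range x` with `(x,w) ∈ Q` and of `w' ∉ range y` with
`(y,w') ∈ Q` have the same size; so there is a bijection `(range x)ᶜ ≃ (range y)ᶜ` with
`(x,w) ~ (y,β w)` (e.g. `Equiv` between fibres of the color maps), extended by `x i ↦ y i`. -/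
theorem MScheme.isos_ext (X : MScheme V m) {f : Finset (V × V)} (hf : f ∈ X.isos)
    (hm : f.card < m) : ∃ β : Equiv.Perm V, ∀ w, insert (w, β w) f ∈ X.isos := by
  classical
  obtain ⟨s, hs, x, y, hxy, rfl⟩ := id hf
  have hcard : (graph x y).card = s := by
    unfold graph
    rw [Finset.card_image_of_injective, Finset.card_univ, Fintype.card_fin]
    intro i j hij
    exact x.injective (congrArg Prod.fst hij)
  rw [hcard] at hm
  obtain ⟨e, he⟩ := exists_fib X (Nat.succ_le_of_lt hm) hxy
  -- the map
  have hex : ∀ w : V, ∃ v : V, (∀ i, x i = w → v = y i) ∧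
      ∀ h : ∀ i, x i ≠ w, v = (e ⟨snocE x w h, del_snocE x w h⟩).1 (Fin.last s) := by
    intro w
    by_cases hw : ∃ i, x i = w
    · obtain ⟨i, hi⟩ := hw
      refine ⟨y i, fun j hj => ?_, fun h => absurd hi (h i)⟩
      rw [x.injective (hj.trans hi.symm)]
    · push Not at hw
      exact ⟨(e ⟨snocE x w hw, del_snocE x w hw⟩).1 (Fin.last s),
        fun i hi => absurd hi (hw i), fun _ => rfl⟩
  choose β h1 h2 using hex
  have hlast : ∀ (a : {x' : Fin (s + 1) ↪ V // del (Fin.last s) x' = x}) (i : Fin s),
      (e a).1 (Fin.last s) ≠ y i := by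
    intro a i hi
    have h3 : y i = (e a).1 i.castSucc := by rw [← del_last, (e a).2]
    rw [h3] at hi
    exact absurd ((e a).1.injective hi) (Fin.castSucc_lt_last i).ne'
  have hinj : Function.Injective β := by
    intro w w' hww
    by_cases hw : ∃ i, x i = w
    · obtain ⟨i, hi⟩ := hw
      by_cases hw' : ∃ i, x i = w'
      · obtain ⟨j, hj⟩ := hw'
        rw [h1 w i hi, h1 w' j hj] at hww
        rw [← hi, ← hj, y.injective hww]
      · push Not at hw'
        rw [h1 w i hi, h2 w' hw'] at hww
        exact absurd hww.symm (hlast _ i)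
    · push Not at hw
      by_cases hw' : ∃ i, x i = w'
      · obtain ⟨j, hj⟩ := hw'
        rw [h2 w hw, h1 w' j hj] at hww
        exact absurd hww (hlast _ j)
      · push Not at hw'
        rw [h2 w hw, h2 w' hw'] at hww
        have h3 : e ⟨snocE x w hw, del_snocE x w hw⟩ = e ⟨snocE x w' hw', del_snocE x w' hw'⟩ := by
          refine Subtype.ext (ext_last ?_ hww)
          rw [(e _).2, (e _).2]
        have h4 := congrArg (fun a : {x' : Fin (s + 1) ↪ V // del (Fin.last s) x' = x} =>
          a.1 (Fin.last s)) (e.injective h3)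
        simp only [snocE_last] at h4
        exact h4
  refine ⟨Equiv.ofBijective β (Finite.injective_iff_bijective.1 hinj), fun w => ?_⟩
  show insert (w, β w) (graph x y) ∈ X.isos
  by_cases hw : ∃ i, x i = w
  · obtain ⟨i, hi⟩ := hw
    have h3 : (w, β w) ∈ graph x y := by
      rw [h1 w i hi, ← hi]
      exact Finset.mem_image.2 ⟨i, Finset.mem_univ i, rfl⟩
    rw [Finset.insert_eq_of_mem h3]
    exact hf
  · push Not at hw
    refine ⟨s + 1, Nat.succ_le_of_lt hm, snocE x w hw, (e ⟨snocE x w hw, del_snocE x w hw⟩).1,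
      he ⟨snocE x w hw, del_snocE x w hw⟩, ?_⟩
    ext p
    unfold graph
    rw [Finset.mem_insert, Finset.mem_image, Finset.mem_image]
    constructor
    · rintro (rfl | ⟨i, -, rfl⟩)
      · refine ⟨Fin.last s, Finset.mem_univ _, ?_⟩
        rw [snocE_last, h2 w hw]
      · refine ⟨i.castSucc, Finset.mem_univ _, ?_⟩
        rw [snocE_cast, ← del_last, (e _).2]
    · rintro ⟨i, -, rfl⟩
      cases i using Fin.lastCases with
      | last =>
        left
        rw [snocE_last, h2 w hw]
      | cast i =>
        right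
        refine ⟨i, Finset.mem_univ _, ?_⟩
        rw [snocE_cast, ← del_last, (e _).2]

end MS216
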