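import Pool.Agent.H.MP_216555_lc.SIsoB
import Pool.Agent.H.MP_216555_lc.SIsoC

/-!
# The system of partial isomorphisms of an m-scheme
-/

set_option linter.unusedSectionVars false

namespace MS216

open Finset

variable {V : Type} [Fintype V] [DecidableEq V] {m : ℕ}

/-- The system of partial isomorphisms of an `m`-scheme. -/
def MScheme.toPI (X : MScheme V m) : PI V m where
  I := X.isos
  inj := fun _ hf => X.isos_inj hf
  idm := fun A hA => X.isos_idm A hA
  sub := fun _ hf g hg => X.isos_sub hf g hg
  inv := fun _ hf => X.isos_inv hf
  comp := fun _ hf _ hg h hh => X.isos_comp hf hg h hh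
  ext := fun _ hf hm => X.isos_ext hf hm

end MS216
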