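import Pool.Agent.H.MP_216555_lc.PairInd

/-!
# Triples, part A: the two constant counts
-/

set_option linter.unusedSectionVars false
set_option linter.unusedSimpArgs false

namespace MS216

open Finset

variable {V : Type} [Fintype V] [DecidableEq V] {m : ℕ} {P : PI V m} {K S : ℕ}

/-- Transfer of the number of pairs. -/
private theorem TqrA_count {B : Finset V} {l l' : List V} (h : P.Tp B l l')
    (hm : B.card + l.length + 1 < m) (R R' : V → V → Prop)
    (hR : ∀ y z y' z', P.Tp B (z :: y :: l) (z' :: y' :: l') → (R y z ↔ R' y' z')) :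
    (prs univ univ R).card = (prs univ univ R').card := by
  classical
  have hc : ∀ R : V → V → Prop, ((prs univ univ R).card : ℝ) = ∑ y, ((fs (R y)).card : ℝ) := by
    intro R
    have h1 : (prs univ univ R).card = ∑ y, (fs (R y)).card := by
      unfold prs fs
      rw [Finset.card_filter, Finset.sum_product]
      refine Finset.sum_congr rfl fun y _ => ?_
      rw [Finset.card_filter]
    rw [h1]
    push_cast
    rfl
  have h2 : ((prs univ univ R).card : ℝ) = ((prs univ univ R').card : ℝ) := by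
    rw [hc, hc]
    refine h.sum_eq (by omega) _ _ fun y y' hy => ?_
    have h3 := hy.card_eq (by simp only [List.length_cons]; omega) (R y) (R' y')
      fun z z' => hR y z y' z'
    rw [h3]
  exact_mod_cast h2

/-- The number `t` of `w ∈ C = fs (Sim B w₀)` such that `(w,y,z)` has the type of `(w₀,y₀,z₀)` is
the same for all `(y,z) ∈ C²` of the type of `(y₀,z₀)`, and is at least `n/K^S`.  Sketch:
`Tp.card_eq` for `Tp B [y₀,z₀] [y,z]` (`w ∈ C ↔ Sim B y₀ w`, `Tp.sim_iff`); for `(y₀,z₀)` itself the set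
is `{w : Sim B w₀ w ∧ Tp (insert z₀ (insert y₀ B)) [w₀] [w]}`, `sim_tp_large`,
`w₀ ∉ Dcl (insert z₀ (insert y₀ B))` by `ind3_rot`. -/
theorem PI.Env.tqr_t (hE : P.Env K S) {B : Finset V} (hB : B.card + 4 ≤ S) {w₀ y₀ z₀ : V}
    (hy : P.Sim B w₀ y₀) (hz : P.Sim B w₀ z₀) (hi : P.Ind3 B w₀ y₀ z₀) :
    ∃ t : ℕ, Fintype.card V ≤ K ^ S * t ∧ ∀ y z, P.Sim B w₀ y → P.Sim B w₀ z →
      P.Tp B [y₀, z₀] [y, z] →
      (fs (fun w => P.Sim B w₀ w ∧ P.Tp B [w₀, y₀, z₀] [w, y, z])).card = t := by
  have hm6 : B.card + 6 ≤ m := by have := hE.hm; omega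
  refine ⟨(fs (fun w => P.Sim B w₀ w ∧ P.Tp B [w₀, y₀, z₀] [w, y₀, z₀])).card, ?_, ?_⟩
  · have hcard : (insert z₀ (insert y₀ B)).card ≤ S := by
      have h1 := Finset.card_insert_le z₀ (insert y₀ B)
      have h2 := Finset.card_insert_le y₀ B
      omega
    have hd : w₀ ∉ P.Dcl (insert z₀ (insert y₀ B)) := (hE.ind3_rot (by omega) hi).2.2
    have h1 := hE.sim_tp_large (B := B) (B' := insert z₀ (insert y₀ B))
      ((Finset.subset_insert _ _).trans (Finset.subset_insert _ _)) hcard hd
    have h2 : (fs (fun z => P.Sim B w₀ z ∧ P.Tp (insert z₀ (insert y₀ B)) [w₀] [z])).card ≤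
        (fs (fun w => P.Sim B w₀ w ∧ P.Tp B [w₀, y₀, z₀] [w, y₀, z₀])).card := by
      refine Finset.card_le_card fun z hz => ?_
      rw [mem_fs] at hz ⊢
      exact ⟨hz.1, (by
      refine PI.Tp.mono hz.2 (by simp) ?_
      intro a b hab
      simp only [mem_pr, List.zip_cons_cons, List.zip_nil_right, List.mem_cons,
        List.not_mem_nil, Prod.mk.injEq, Finset.mem_insert, Finset.mem_union,
        Finset.mem_singleton, Finset.notMem_empty, or_false, and_false, false_or] at hab ⊢
      grind)⟩
    have h3 : K ^ (insert z₀ (insert y₀ B)).card ≤ K ^ S :=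
      Nat.pow_le_pow_right (by have := hE.hK; omega) hcard
    exact h1.trans (Nat.mul_le_mul h3 h2)
  · intro y z hy' _ ht
    refine (ht.card_eq (by simp only [List.length_cons, List.length_nil]; omega) _ _
      fun x x' hx => ?_).symm
    have k1 : P.Tp B [y₀, x] [y, x'] := (by
      refine PI.Tp.mono hx (by simp) ?_
      intro a b hab
      simp only [mem_pr, List.zip_cons_cons, List.zip_nil_right, List.mem_cons,
        List.not_mem_nil, Prod.mk.injEq, Finset.mem_insert, Finset.mem_union,
        Finset.mem_singleton, Finset.notMem_empty, or_false, and_false, false_or] at hab ⊢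
      grind)
    have k2 := k1.sim_iff hm6
    constructor
    · rintro ⟨a1, a2⟩
      exact ⟨hy'.trans hm6 (k2.1 ((hy.symm hm6).trans hm6 a1)), a2.trans hx⟩
    · rintro ⟨a1, a2⟩
      exact ⟨hy.trans hm6 (k2.2 ((hy'.symm hm6).trans hm6 a1)), a2.trans hx.symm⟩

/-- The number `c` of `(y,z) ∈ C²` such that `(w,y,z)` has the type of `(w₀,y₀,z₀)` is the same for
all `w ∈ C`.  (`Tp.card_eq`/`Tp.sum_eq` twice, from `Tp B [w] [w']`.) -/
theorem PI.Env.tqr_c (hE : P.Env K S) {B : Finset V} (hB : B.card + 4 ≤ S) {w₀ y₀ z₀ : V}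
    (hy : P.Sim B w₀ y₀) (hz : P.Sim B w₀ z₀) :
    ∃ c : ℕ, ∀ w, P.Sim B w₀ w →
      (prs (fs (P.Sim B w₀)) (fs (P.Sim B w₀))
        (fun y z => P.Tp B [w₀, y₀, z₀] [w, y, z])).card = c := by
  have hm6 : B.card + 6 ≤ m := by have := hE.hm; omega
  have e : ∀ w, prs (fs (P.Sim B w₀)) (fs (P.Sim B w₀))
      (fun y z => P.Tp B [w₀, y₀, z₀] [w, y, z]) =
      prs univ univ (fun y z => P.Sim B w₀ y ∧ P.Sim B w₀ z ∧
        P.Tp B [w₀, y₀, z₀] [w, y, z]) := by
    intro w
    ext ⟨a, b⟩
    simp only [mem_prs, mem_fs, Finset.mem_univ, true_and]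
  refine ⟨(prs (fs (P.Sim B w₀)) (fs (P.Sim B w₀))
      (fun y z => P.Tp B [w₀, y₀, z₀] [w₀, y, z])).card, fun w hw => ?_⟩
  rw [e, e]
  refine (TqrA_count hw.tp (by simp only [List.length_cons, List.length_nil]; omega) _ _
    fun y z y' z' ht => ?_).symm
  have k1 : P.Tp B [w₀, y] [w, y'] := (by
      refine PI.Tp.mono ht (by simp) ?_
      intro a b hab
      simp only [mem_pr, List.zip_cons_cons, List.zip_nil_right, List.mem_cons,
        List.not_mem_nil, Prod.mk.injEq, Finset.mem_insert, Finset.mem_union,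
        Finset.mem_singleton, Finset.notMem_empty, or_false, and_false, false_or] at hab ⊢
      grind)
  have k2 : P.Tp B [w₀, z] [w, z'] := (by
      refine PI.Tp.mono ht (by simp) ?_
      intro a b hab
      simp only [mem_pr, List.zip_cons_cons, List.zip_nil_right, List.mem_cons,
        List.not_mem_nil, Prod.mk.injEq, Finset.mem_insert, Finset.mem_union,
        Finset.mem_singleton, Finset.notMem_empty, or_false, and_false, false_or] at hab ⊢
      grind)
  have k3 : P.Tp B [w₀, y, z] [w, y', z'] := (by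
      refine PI.Tp.mono ht (by simp) ?_
      intro a b hab
      simp only [mem_pr, List.zip_cons_cons, List.zip_nil_right, List.mem_cons,
        List.not_mem_nil, Prod.mk.injEq, Finset.mem_insert, Finset.mem_union,
        Finset.mem_singleton, Finset.notMem_empty, or_false, and_false, false_or] at hab ⊢
      grind)
  have s1 := k1.sim_iff hm6
  have s2 := k2.sim_iff hm6
  constructor
  · rintro ⟨a1, a2, a3⟩
    exact ⟨hw.trans hm6 (s1.1 a1), hw.trans hm6 (s2.1 a2), a3.trans k3⟩
  · rintro ⟨a1, a2, a3⟩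
    exact ⟨s1.2 ((hw.symm hm6).trans hm6 a1), s2.2 ((hw.symm hm6).trans hm6 a2),
      a3.trans k3.symm⟩

/-- `G w w'` = number of `(y,z)` with `Sim B w y`, `Sim B w z`, and `(w,y,z)`, `(w',y,z)` both of the
type of `(w₀,y₀,z₀)`: an invariant function of `(w,w')`.  (`Tp.sum_eq` twice.) -/
theorem PI.Env.tqr_G (hE : P.Env K S) {B : Finset V} (hB : B.card + 4 ≤ S) (w₀ y₀ z₀ : V) :
    P.InvF B (fun w w' => ((prs univ univ (fun y z => P.Sim B w y ∧ P.Sim B w z ∧
      P.Tp B [w₀, y₀, z₀] [w, y, z] ∧ P.Tp B [w₀, y₀, z₀] [w', y, z])).card : ℝ)) := by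
  have hm6 : B.card + 6 ≤ m := by have := hE.hm; omega
  intro w w' v v' h
  refine congrArg Nat.cast ?_
  refine TqrA_count h (by simp only [List.length_cons, List.length_nil]; omega) _ _
    fun y z y' z' ht => ?_
  have k1 : P.Tp B [w, y] [v, y'] := (by
      refine PI.Tp.mono ht (by simp) ?_
      intro a b hab
      simp only [mem_pr, List.zip_cons_cons, List.zip_nil_right, List.mem_cons,
        List.not_mem_nil, Prod.mk.injEq, Finset.mem_insert, Finset.mem_union,
        Finset.mem_singleton, Finset.notMem_empty, or_false, and_false, false_or] at hab ⊢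
      grind)
  have k2 : P.Tp B [w, z] [v, z'] := (by
      refine PI.Tp.mono ht (by simp) ?_
      intro a b hab
      simp only [mem_pr, List.zip_cons_cons, List.zip_nil_right, List.mem_cons,
        List.not_mem_nil, Prod.mk.injEq, Finset.mem_insert, Finset.mem_union,
        Finset.mem_singleton, Finset.notMem_empty, or_false, and_false, false_or] at hab ⊢
      grind)
  have k3 : P.Tp B [w, y, z] [v, y', z'] := (by
      refine PI.Tp.mono ht (by simp) ?_
      intro a b hab
      simp only [mem_pr, List.zip_cons_cons, List.zip_nil_right, List.mem_cons,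
        List.not_mem_nil, Prod.mk.injEq, Finset.mem_insert, Finset.mem_union,
        Finset.mem_singleton, Finset.notMem_empty, or_false, and_false, false_or] at hab ⊢
      grind)
  have k4 : P.Tp B [w', y, z] [v', y', z'] := (by
      refine PI.Tp.mono ht (by simp) ?_
      intro a b hab
      simp only [mem_pr, List.zip_cons_cons, List.zip_nil_right, List.mem_cons,
        List.not_mem_nil, Prod.mk.injEq, Finset.mem_insert, Finset.mem_union,
        Finset.mem_singleton, Finset.notMem_empty, or_false, and_false, false_or] at hab ⊢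
      grind)
  have s1 := k1.sim_iff hm6
  have s2 := k2.sim_iff hm6
  constructor
  · rintro ⟨a1, a2, a3, a4⟩
    exact ⟨s1.1 a1, s2.1 a2, a3.trans k3, a4.trans k4⟩
  · rintro ⟨a1, a2, a3, a4⟩
    exact ⟨s1.2 a1, s2.2 a2, a3.trans k3.symm, a4.trans k4.symm⟩

end MS216
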