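import Pool.Agent.H.MP_216555_lc.TqrB

/-!
# Triples, part C: many triples of a given independent type
-/

set_option linter.unusedSectionVars false

namespace MS216

open Finset Matrix

/-- Counting triples over pairs. -/
private theorem TqrC_count {V : Type} [Fintype V] [DecidableEq V] (S₁ S₂ S₃ : Finset V)
    (R : V → V → V → Prop) (R' : V → V → Prop) :
    ∑ p ∈ prs S₂ S₃ R', (fs (fun w => w ∈ S₁ ∧ R w p.1 p.2)).card ≤ (trs S₁ S₂ S₃ R).card := by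
  rw [← Finset.card_sigma]
  refine Finset.card_le_card_of_injOn (fun q => (q.2, q.1.1, q.1.2)) ?_ ?_
  · rintro ⟨⟨y, z⟩, w⟩ hq
    rw [Finset.mem_coe, Finset.mem_sigma] at hq
    obtain ⟨h1, h2⟩ := hq
    rw [mem_prs] at h1
    rw [mem_fs] at h2
    rw [Finset.mem_coe, mem_trs]
    exact ⟨h2.1, h1.1, h1.2.1, h2.2⟩
  · rintro ⟨⟨y, z⟩, w⟩ _ ⟨⟨y', z'⟩, w'⟩ _ h
    simp only [Prod.mk.injEq] at h
    obtain ⟨rfl, rfl, rfl⟩ := h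
    rfl

/-- The real inequality. -/
private theorem TqrC_real {ι : Type} (Q Q' : Finset ι) (hQ : Q' ⊆ Q) (N : ι → ℝ) {τ n δ k : ℝ}
    (hn : 0 ≤ n) (hδ : 0 < δ) (hk : 0 < k) (hτ : δ * n / k ≤ τ)
    (h1 : δ ^ 2 / (2 * k ^ 2) * n ^ 2 ≤ (Q'.card : ℝ)) (h2 : (Q'.card : ℝ) ≤ n ^ 2)
    (h3 : ∑ p ∈ Q, (N p - τ) ^ 2 ≤ (δ ^ 3 / (4 * k ^ 3)) ^ 2 * n ^ 4) :
    δ ^ 3 / (4 * k ^ 3) * n ^ 3 ≤ ∑ p ∈ Q', N p := by
  have e1 : ∑ p ∈ Q', (N p - τ) ^ 2 ≤ ∑ p ∈ Q, (N p - τ) ^ 2 :=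
    Finset.sum_le_sum_of_subset_of_nonneg hQ fun _ _ _ => sq_nonneg _
  have e2 : (∑ p ∈ Q', (N p - τ)) ^ 2 ≤ (Q'.card : ℝ) * ∑ p ∈ Q', (N p - τ) ^ 2 :=
    sq_sum_le_card_mul_sum_sq
  have e3 : (∑ p ∈ Q', (N p - τ)) ^ 2 ≤ (δ ^ 3 / (4 * k ^ 3) * n ^ 3) ^ 2 := by
    refine e2.trans ?_
    have e4 : (Q'.card : ℝ) * ∑ p ∈ Q', (N p - τ) ^ 2 ≤
        n ^ 2 * ((δ ^ 3 / (4 * k ^ 3)) ^ 2 * n ^ 4) :=
      mul_le_mul h2 (e1.trans h3) (Finset.sum_nonneg fun _ _ => sq_nonneg _) (by positivity)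
    refine e4.trans (le_of_eq ?_)
    ring
  have e5 : 0 ≤ δ ^ 3 / (4 * k ^ 3) * n ^ 3 := by positivity
  have e6 := (abs_le_of_sq_le_sq' e3 e5).1
  rw [Finset.sum_sub_distrib, Finset.sum_const, nsmul_eq_mul] at e6
  have e7 : (δ * n / k) * (δ ^ 2 / (2 * k ^ 2) * n ^ 2) ≤ τ * (Q'.card : ℝ) :=
    mul_le_mul hτ h1 (by positivity) (le_trans (by positivity) hτ)
  have e8 : (δ * n / k) * (δ ^ 2 / (2 * k ^ 2) * n ^ 2) = 2 * (δ ^ 3 / (4 * k ^ 3) * n ^ 3) := by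
    field_simp
    ring
  rw [e8] at e7
  linarith

/-- Sketch (`δ ≤ 1`, as otherwise there is no such `S₁`).  `tqr_var` with
`ε = (δ³/(4 K^(3S)))²`: `τ ≥ |S₁|/K^S ≥ δ n/K^S`.  With `Q'` = the pairs of `S₂ × S₃` of the type of
`(y₀,z₀)`, a subset of `Q`, the number of triples is `∑_{Q'} N ≥ τ |Q'| - ∑_{Q'} |N - τ|`, and by
Cauchy-Schwarz `∑_{Q'} |N - τ| ≤ (|Q'| ∑_Q (N-τ)²)^(1/2) ≤ n · ε^(1/2) n²`.  `|Q'| ≥ δ²/(2K^(2S)) n²` by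
`pair` (`Ind2 B y₀ z₀` by `ind3_rot`).  So at least
`(δ³/(2K^(3S)) - δ³/(4K^(3S))) n³` triples. -/
theorem tqr (K S : ℕ) (δ : ℝ) (hδ : 0 < δ) : ∃ n₀ : ℕ,
    ∀ (V : Type) [Fintype V] [DecidableEq V]
    (m : ℕ) (P : PI V m), P.Env K S → n₀ ≤ Fintype.card V → ∀ B : Finset V, B.card + 4 ≤ S →
    ∀ w₀ y₀ z₀, P.Sim B w₀ y₀ → P.Sim B w₀ z₀ → P.Ind3 B w₀ y₀ z₀ → ∀ S₁ S₂ S₃ : Finset V,
      (∀ a ∈ S₁, P.Sim B w₀ a) → (∀ a ∈ S₂, P.Sim B w₀ a) → (∀ a ∈ S₃, P.Sim B w₀ a) →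
      δ * Fintype.card V ≤ S₁.card → δ * Fintype.card V ≤ S₂.card →
      δ * Fintype.card V ≤ S₃.card →
      δ ^ 3 / (4 * (K : ℝ) ^ (3 * S)) * (Fintype.card V : ℝ) ^ 3 ≤
        (trs S₁ S₂ S₃ (fun w y z => P.Tp B [w₀, y₀, z₀] [w, y, z])).card := by
  by_cases hK : 2 ≤ K
  swap
  · exact ⟨0, fun V _ _ m P hE => absurd hE.hK hK⟩
  have hk : (0 : ℝ) < (K : ℝ) := by exact_mod_cast (by omega : 0 < K)
  have hkS : (0 : ℝ) < (K : ℝ) ^ S := by positivity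
  obtain ⟨n₁, h₁⟩ := tqr_var K S ((δ ^ 3 / (4 * (K : ℝ) ^ (3 * S))) ^ 2) (by positivity)
  obtain ⟨n₂, h₂⟩ := pair K S δ hδ
  refine ⟨max n₁ n₂, ?_⟩
  intro V _ _ m P hE hn B hB w₀ y₀ z₀ hy hz hi S₁ S₂ S₃ hS₁ hS₂ hS₃ hc₁ hc₂ hc₃
  have hm : B.card + 6 ≤ m := by
    have := hE.hm
    omega
  obtain ⟨τ, hτ, hvar⟩ := h₁ V m P hE (le_trans (le_max_left _ _) hn) B hB w₀ y₀ z₀ hy hz hi S₁ hS₁
  have hr := hE.ind3_rot (by omega) hi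
  have hpair := h₂ V m P hE (le_trans (le_max_right _ _) hn) B (by omega) y₀ z₀ ⟨hr.1, hr.2.1⟩
    S₂ S₃ (fun a ha => (PI.Sim.symm hm hy).trans hm (hS₂ a ha))
    (fun a ha => (PI.Sim.symm hm hz).trans hm (hS₃ a ha)) hc₂ hc₃
  have hcnt := TqrC_count S₁ S₂ S₃ (fun w y z => P.Tp B [w₀, y₀, z₀] [w, y, z])
    (fun a b => P.Tp B [y₀, z₀] [a, b])
  have hcnt' : ∑ p ∈ prs S₂ S₃ (fun a b => P.Tp B [y₀, z₀] [a, b]),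
      ((fs (fun w => w ∈ S₁ ∧ P.Tp B [w₀, y₀, z₀] [w, p.1, p.2])).card : ℝ) ≤
      ((trs S₁ S₂ S₃ (fun w y z => P.Tp B [w₀, y₀, z₀] [w, y, z])).card : ℝ) := by
    exact_mod_cast hcnt
  refine le_trans ?_ hcnt'
  have p2 : (K : ℝ) ^ (2 * S) = ((K : ℝ) ^ S) ^ 2 := by rw [mul_comm, pow_mul]
  have p3 : (K : ℝ) ^ (3 * S) = ((K : ℝ) ^ S) ^ 3 := by rw [mul_comm, pow_mul]
  rw [p2] at hpair
  rw [p3] at hvar ⊢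
  refine TqrC_real (prs (fs (P.Sim B w₀)) (fs (P.Sim B w₀)) (fun y z => P.Tp B [y₀, z₀] [y, z]))
    _ ?_ _ (Nat.cast_nonneg _) hδ hkS ?_ hpair ?_ hvar
  · rintro ⟨a, b⟩ hab
    rw [mem_prs] at hab ⊢
    exact ⟨mem_fs.2 (hS₂ a hab.1), mem_fs.2 (hS₃ b hab.2.1), hab.2.2⟩
  · exact (div_le_div_of_nonneg_right hc₁ hkS.le).trans hτ
  · have h4 : (prs S₂ S₃ (fun a b => P.Tp B [y₀, z₀] [a, b])).card ≤ Fintype.card V ^ 2 := by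
      unfold prs
      classical
      refine (Finset.card_filter_le _ _).trans ?_
      rw [Finset.card_product, pow_two]
      exact Nat.mul_le_mul (Finset.card_le_univ _) (Finset.card_le_univ _)
    exact_mod_cast h4

end MS216
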