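import Pool.Agent.H.MP_216555_lc.PairInd

/-!
# Step G: cyclic triples
-/

set_option linter.unusedSectionVars false

namespace MS216

open Finset

open Classical in
private theorem Tri_rows {V : Type} [Fintype V] [DecidableEq V] (N X : Finset V)
    (R : V → V → Prop) (t : ℝ) (h : ∀ a ∈ N, ((X.filter fun b => R a b).card : ℝ) ≤ t) :
    ((prs N X R).card : ℝ) ≤ N.card * t := by
  have h1 : (prs N X R).card = ∑ a ∈ N, (X.filter fun b => R a b).card := by
    unfold prs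
    rw [Finset.card_filter, Finset.sum_product]
    refine Finset.sum_congr rfl fun a _ => ?_
    rw [Finset.card_filter]
  rw [h1, Nat.cast_sum]
  refine (Finset.sum_le_sum h).trans ?_
  rw [Finset.sum_const, nsmul_eq_mul]

open Classical in
private theorem Tri_cols {V : Type} [Fintype V] [DecidableEq V] (N X : Finset V)
    (R : V → V → Prop) (t : ℝ) (h : ∀ a ∈ N, ((X.filter fun b => R b a).card : ℝ) ≤ t) :
    ((prs X N R).card : ℝ) ≤ N.card * t := by
  have h1 : (prs X N R).card = ∑ a ∈ N, (X.filter fun b => R b a).card := by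
    unfold prs
    rw [Finset.card_filter, Finset.sum_product_right]
    refine Finset.sum_congr rfl fun a _ => ?_
    rw [Finset.card_filter]
  rw [h1, Nat.cast_sum]
  refine (Finset.sum_le_sum h).trans ?_
  rw [Finset.sum_const, nsmul_eq_mul]

/-- Sketch: `R a b := Tp B [y,z] [a,b]`, `c = (δ/3)²/(2K^(2S))` the constant of `pair` for `δ/3`,
`δ₁ = c/2` .  Let `N₁` be the set of `a ∈ X` with `|{b ∈ X : R a b}| < δ₁ n`: if
`|N₁| ≥ (δ/3) n`, `pair` for `N₁ × X` gives `≥ c n²` pairs, but there are `≤ |N₁| δ₁ n < c n²`.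
The same for `N₂` = the set of `a ∈ X` with `|{b ∈ X : R b a}| < δ₁ n` (`pair` for `X × N₂`).
So there is `a ∈ X` outside `N₁ ∪ N₂ ∪ Dcl d`.  `pair_ind` (with `δ₁`, `B' = insert a d`) for
`S₁ = {b ∈ X : R a b}`, `T₁ = {c ∈ X : R c a}`. -/
theorem tri (K S : ℕ) (δ : ℝ) (hδ : 0 < δ) : ∃ n₀ : ℕ,
    ∀ (V : Type) [Fintype V] [DecidableEq V]
    (m : ℕ) (P : PI V m), P.Env K S → n₀ ≤ Fintype.card V →
    ∀ B d : Finset V, B ⊆ d → d.card + 4 ≤ S →
    ∀ y z, P.Sim B y z → P.Ind2 B y z → ∀ X : Finset V, (∀ x ∈ X, P.Sim B y x) →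
      δ * Fintype.card V ≤ X.card →
      ∃ a ∈ X, ∃ b ∈ X, ∃ c ∈ X, P.Tp B [y, z] [a, b] ∧ P.Tp B [y, z] [b, c] ∧
        P.Tp B [y, z] [c, a] ∧ P.Ind3 d a b c := by
  classical
  by_cases hK : 2 ≤ K
  swap
  · exact ⟨0, fun V _ _ m P hE => absurd hE.hK hK⟩
  have hK0 : (0 : ℝ) < K := by exact_mod_cast (by omega : 0 < K)
  have hK1 : (1 : ℝ) ≤ K := by exact_mod_cast (by omega : 1 ≤ K)
  obtain ⟨c, hc⟩ : ∃ c : ℝ, c = (δ / 3) ^ 2 / (2 * (K : ℝ) ^ (2 * S)) := ⟨_, rfl⟩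
  have hc0 : 0 < c := by rw [hc]; positivity
  obtain ⟨n₁, H1⟩ := pair K S (δ / 3) (by positivity)
  obtain ⟨n₂, H2⟩ := pair_ind K S (c / 2) (by positivity)
  obtain ⟨n₃, H3⟩ := exists_nat_gt (3 * (K : ℝ) ^ S / δ)
  refine ⟨n₁ + n₂ + n₃ + 1, ?_⟩
  intro V _ _ m P hE hn B d hBd hd y z hyz hi X hX hXc
  have hBc : B.card ≤ d.card := Finset.card_le_card hBd
  have hBm : B.card + 6 ≤ m := by have := hE.hm; omega
  have hH1 := H1 V m P hE (by omega) B (by omega) y z hi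
  rw [← hc] at hH1
  obtain ⟨n, hn'⟩ : ∃ n : ℝ, n = Fintype.card V := ⟨_, rfl⟩
  rw [← hn'] at hH1 hXc
  have hn3 : (n₃ : ℝ) < n := by
    rw [hn']
    exact_mod_cast (by omega : n₃ < Fintype.card V)
  have hn0 : 0 < n := lt_of_le_of_lt (Nat.cast_nonneg _) hn3
  have hcard : ∀ N : Finset V, (N.card : ℝ) ≤ n := by
    intro N
    rw [hn']
    exact_mod_cast Finset.card_le_univ N
  have hzX : ∀ x ∈ X, P.Sim B z x := fun x hx => (hyz.symm hBm).trans hBm (hX x hx)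
  have h3X : δ / 3 * n ≤ X.card := by nlinarith
  have hlt : ∀ q : ℝ, c * n ^ 2 ≤ q → ∀ N : Finset V, q ≤ N.card * (c / 2 * n) → False := by
    intro q h1 N h2
    have h3 : (N.card : ℝ) * (c / 2 * n) ≤ n * (c / 2 * n) :=
      mul_le_mul_of_nonneg_right (hcard N) (by positivity)
    have h4 : 0 < c * n ^ 2 := by positivity
    nlinarith
  -- points with few successors
  obtain ⟨N₁, hN₁⟩ : ∃ N : Finset V, N = X.filter fun a =>
      ((X.filter fun b => P.Tp B [y, z] [a, b]).card : ℝ) < c / 2 * n := ⟨_, rfl⟩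
  obtain ⟨N₂, hN₂⟩ : ∃ N : Finset V, N = X.filter fun a =>
      ((X.filter fun b => P.Tp B [y, z] [b, a]).card : ℝ) < c / 2 * n := ⟨_, rfl⟩
  have k1 : (N₁.card : ℝ) < δ / 3 * n := by
    by_contra hcon
    refine hlt _ (hH1 N₁ X (fun a ha => hX a ?_) hzX (not_lt.1 hcon) h3X) N₁ ?_
    · rw [hN₁] at ha
      exact (Finset.mem_filter.1 ha).1
    · refine Tri_rows N₁ X _ _ fun a ha => ?_
      rw [hN₁] at ha
      exact (Finset.mem_filter.1 ha).2.le
  have k2 : (N₂.card : ℝ) < δ / 3 * n := by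
    by_contra hcon
    refine hlt _ (hH1 X N₂ hX (fun a ha => hzX a ?_) h3X (not_lt.1 hcon)) N₂ ?_
    · rw [hN₂] at ha
      exact (Finset.mem_filter.1 ha).1
    · refine Tri_cols N₂ X _ _ fun a ha => ?_
      rw [hN₂] at ha
      exact (Finset.mem_filter.1 ha).2.le
  have k3 : ((fs fun y => y ∈ P.Dcl d).card : ℝ) < δ / 3 * n := by
    have h1 : ((fs fun y => y ∈ P.Dcl d).card : ℝ) ≤ (K : ℝ) ^ d.card := by
      exact_mod_cast hE.dcl_card (by omega : d.card ≤ S)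
    have h2 : (K : ℝ) ^ d.card ≤ (K : ℝ) ^ S := pow_le_pow_right₀ hK1 (by omega)
    have h3 : 3 * (K : ℝ) ^ S / δ < n := H3.trans hn3
    rw [div_lt_iff₀ hδ] at h3
    nlinarith
  obtain ⟨a, haX, ha⟩ : ∃ a ∈ X, a ∉ N₁ ∪ N₂ ∪ fs fun y => y ∈ P.Dcl d := by
    by_contra hcon
    push Not at hcon
    have h1 : X ⊆ N₁ ∪ N₂ ∪ fs fun y => y ∈ P.Dcl d := hcon
    have h2 : X.card ≤ N₁.card + N₂.card + (fs fun y => y ∈ P.Dcl d).card :=
      (Finset.card_le_card h1).trans ((Finset.card_union_le _ _).trans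
        (Nat.add_le_add_right (Finset.card_union_le _ _) _))
    have h3 : (X.card : ℝ) ≤ N₁.card + N₂.card + (fs fun y => y ∈ P.Dcl d).card := by
      exact_mod_cast h2
    nlinarith
  rw [Finset.mem_union, Finset.mem_union, not_or, not_or] at ha
  obtain ⟨⟨a1, a2⟩, a3⟩ := ha
  have b1 : c / 2 * n ≤ (X.filter fun b => P.Tp B [y, z] [a, b]).card := by
    by_contra hcon
    refine a1 ?_
    rw [hN₁]
    exact Finset.mem_filter.2 ⟨haX, not_le.1 hcon⟩
  have b2 : c / 2 * n ≤ (X.filter fun b => P.Tp B [y, z] [b, a]).card := by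
    by_contra hcon
    refine a2 ?_
    rw [hN₂]
    exact Finset.mem_filter.2 ⟨haX, not_le.1 hcon⟩
  have b3 : a ∉ P.Dcl d := fun h => a3 (mem_fs.2 h)
  rw [hn'] at b1 b2
  have hcd : (insert a d).card ≤ d.card + 1 := Finset.card_insert_le a d
  obtain ⟨b, hb, c', hc', hT, hI⟩ := H2 V m P hE (by omega) B (insert a d)
    (hBd.trans (Finset.subset_insert a d)) (by omega) y z hi
    (X.filter fun b => P.Tp B [y, z] [a, b]) (X.filter fun b => P.Tp B [y, z] [b, a])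
    (fun x hx => hX x (Finset.mem_filter.1 hx).1) (fun x hx => hzX x (Finset.mem_filter.1 hx).1)
    b1 b2
  exact ⟨a, haX, b, (Finset.mem_filter.1 hb).1, c', (Finset.mem_filter.1 hc').1,
    (Finset.mem_filter.1 hb).2, hT, (Finset.mem_filter.1 hc').2, b3, hI.1, hI.2⟩

end MS216
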